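import Pool.Agent.R780.KirwanDefs

/-!
The diagonal `Sp(1) ⊂ Sp(4)`: the reduction `N/G` is disconnected.
-/

open Quaternion Matrix unitInterval

namespace Pool.Agent.R780.Kirwan

/-- diagonal quaternionic matrices as a ring homomorphism -/
theorem diag_mul (p q : ℍ[ℝ]) : (diagonal (fun _ => p) : HMat 3) * diagonal (fun _ => q) =
    diagonal (fun _ => p * q) := diagonal_mul_diagonal _ _

theorem diag_one : (diagonal (fun _ => (1 : ℍ[ℝ])) : HMat 3) = 1 := diagonal_one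

theorem diag_star (p : ℍ[ℝ]) : star (diagonal (fun _ => p) : HMat 3) = diagonal (fun _ => star p) := by
  rw [Matrix.star_eq_conjTranspose, diagonal_conjTranspose]
  rfl

theorem diag_inj {p q : ℍ[ℝ]} (h : (diagonal (fun _ => p) : HMat 3) = diagonal (fun _ => q)) :
    p = q := by
  have := congrFun (congrFun h 0) 0
  simpa using this

/-- The diagonal `Sp(1)` in `Sp(4)`. -/
def Gd : Subgroup (SpGroup 3) where
  carrier := {g | ∃ q : ℍ[ℝ], (g : HMat 3) = diagonal (fun _ => q)}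
  mul_mem' := by
    rintro a b ⟨p, hp⟩ ⟨q, hq⟩
    exact ⟨p * q, by rw [Submonoid.coe_mul, hp, hq, diag_mul]⟩
  one_mem' := ⟨1, by rw [Submonoid.coe_one, diag_one]⟩
  inv_mem' := by
    rintro a ⟨p, hp⟩
    refine ⟨star p, ?_⟩
    rw [← diag_star, ← hp]
    rfl

theorem mem_Gd {g : SpGroup 3} : g ∈ Gd ↔ ∃ q : ℍ[ℝ], (g : HMat 3) = diagonal (fun _ => q) :=
  Iff.rfl

theorem star_mul_self_of_norm {q : ℍ[ℝ]} (h : ‖q‖ = 1) : star q * q = 1 := by
  rw [Quaternion.star_mul_self, Quaternion.normSq_eq_norm_mul_self, h]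
  simp

theorem mul_star_self_of_norm {q : ℍ[ℝ]} (h : ‖q‖ = 1) : q * star q = 1 := by
  rw [Quaternion.self_mul_star, Quaternion.normSq_eq_norm_mul_self, h]
  simp

theorem norm_of_star_mul_self {q : ℍ[ℝ]} (h : star q * q = 1) : ‖q‖ = 1 := by
  rw [Quaternion.star_mul_self, Quaternion.normSq_eq_norm_mul_self] at h
  have h1 : ‖q‖ * ‖q‖ = 1 := by
    have := congrArg QuaternionAlgebra.re h
    simpa using this
  nlinarith [norm_nonneg q]

theorem diag_mem_unitary {q : ℍ[ℝ]} (h : ‖q‖ = 1) :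
    (diagonal (fun _ => q) : HMat 3) ∈ unitary (HMat 3) := by
  rw [Unitary.mem_iff, diag_star, diag_mul, diag_mul, star_mul_self_of_norm h,
    mul_star_self_of_norm h, diag_one]
  exact ⟨rfl, rfl⟩

theorem norm_of_unitary {q : ℍ[ℝ]} (h : (diagonal (fun _ => q) : HMat 3) ∈ unitary (HMat 3)) :
    ‖q‖ = 1 := by
  apply norm_of_star_mul_self
  have h1 := (Unitary.mem_iff.mp h).1
  rw [diag_star, diag_mul, ← diag_one] at h1
  exact diag_inj h1

/-- element of the group -/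
noncomputable def gd (q : ℍ[ℝ]) (h : ‖q‖ = 1) : SpGroup 3 := ⟨diagonal (fun _ => q), diag_mem_unitary h⟩

theorem gd_mem (q : ℍ[ℝ]) (h : ‖q‖ = 1) : gd q h ∈ Gd := ⟨q, rfl⟩

theorem isCompact_Gd : IsCompact (Gd : Set (SpGroup 3)) := by
  rw [Topology.IsEmbedding.subtypeVal.isCompact_iff]
  have : (Subtype.val '' (Gd : Set (SpGroup 3)) : Set (HMat 3)) =
      (fun q : ℍ[ℝ] => (diagonal (fun _ => q) : HMat 3)) '' Metric.sphere 0 1 := by
    ext M
    constructor
    · rintro ⟨g, ⟨q, hq⟩, rfl⟩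
      refine ⟨q, ?_, hq.symm⟩
      rw [mem_sphere_zero_iff_norm]
      apply norm_of_unitary
      rw [← hq]
      exact g.2
    · rintro ⟨q, hq, rfl⟩
      rw [mem_sphere_zero_iff_norm] at hq
      exact ⟨gd q hq, gd_mem q hq, rfl⟩
  rw [this]
  have : ProperSpace ℍ[ℝ] := FiniteDimensional.proper ℝ ℍ[ℝ]
  refine (isCompact_sphere 0 1).image ?_
  exact continuous_pi fun i => continuous_pi fun j => by
    by_cases h : i = j
    · subst h
      have h1 : (fun q : ℍ[ℝ] => (diagonal (fun _ => q) : HMat 3) i i) = fun q => q := by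
        funext q
        exact diagonal_apply_eq _ _
      rw [h1]
      exact continuous_id
    · simpa [diagonal_apply_ne _ h] using continuous_const

theorem diag_mulVec (q : ℍ[ℝ]) (x : HVec 3) (i : Fin 4) :
    ((diagonal (fun _ => q) : HMat 3) *ᵥ x) i = q * x i := mulVec_diagonal _ _ _

theorem stab_finite (x : HVec 3) (hx : x ∈ sph 3) :
    {g : SpGroup 3 | g ∈ Gd ∧ (g : HMat 3) *ᵥ x = x}.Finite := by
  refine (Set.finite_singleton (1 : SpGroup 3)).subset ?_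
  rintro g ⟨⟨q, hq⟩, h2⟩
  rw [Set.mem_singleton_iff]
  obtain ⟨i, hi⟩ : ∃ i, x i ≠ 0 := by
    by_contra h
    push Not at h
    have h1 : ∑ i, ‖x i‖ ^ 2 = 1 := hx
    simp [h] at h1
  have h3 := congrFun h2 i
  rw [hq, diag_mulVec] at h3
  have h4 : q = 1 := mul_right_cancel₀ hi (h3.trans (one_mul _).symm)
  apply Subtype.ext
  rw [hq, h4, diag_one]
  rfl

theorem exp_diag (p : ℍ[ℝ]) : NormedSpace.exp (diagonal (fun _ => p) : HMat 3) =
    diagonal (fun _ => NormedSpace.exp p) := by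
  rw [Matrix.exp_diagonal]
  congr 1
  funext i
  let _ : NormedAlgebra ℚ ℍ[ℝ] := NormedAlgebra.restrictScalars ℚ ℝ ℍ[ℝ]
  exact Pi.coe_exp _ i

theorem norm_exp_imag {p : ℍ[ℝ]} (hp : p.re = 0) : ‖NormedSpace.exp p‖ = 1 := by
  rw [Quaternion.norm_exp, hp]
  simp

section Deriv

attribute [local instance] Matrix.linftyOpNormedRing Matrix.linftyOpNormedAlgebra

theorem tendsto_slope_exp (ξ : HMat 3) :
    Filter.Tendsto (fun t : ℝ => t⁻¹ • (NormedSpace.exp (t • ξ) - 1)) (nhdsWithin 0 {0}ᶜ)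
      (nhds ξ) := by
  have h := hasDerivAt_exp_smul_const (𝕂 := ℝ) ξ 0
  rw [hasDerivAt_iff_tendsto_slope] at h
  rw [zero_smul, NormedSpace.exp_zero, one_mul] at h
  refine h.congr ?_
  intro t
  rw [slope_def_module, zero_smul, NormedSpace.exp_zero, sub_zero]
  rfl

end Deriv

theorem tendsto_entry (ξ : HMat 3) (i j : Fin 4) :
    Filter.Tendsto (fun t : ℝ => (t⁻¹ • (NormedSpace.exp (t • ξ) - 1) : HMat 3) i j)
      (nhdsWithin 0 {0}ᶜ) (nhds (ξ i j)) := by
  have h1 : Continuous (fun M : HMat 3 => M i j) := continuous_apply_apply i j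
  exact (h1.tendsto ξ).comp (tendsto_slope_exp ξ)

theorem mem_lieAlg_iff (ξ : HMat 3) : ξ ∈ lieAlg Gd ↔
    ∃ p : ℍ[ℝ], p.re = 0 ∧ ξ = diagonal (fun _ => p) := by
  constructor
  · intro h
    have hD : ∀ t : ℝ, ∃ q : ℍ[ℝ], NormedSpace.exp (t • ξ) = diagonal (fun _ => q) := by
      intro t
      obtain ⟨g, ⟨q, hq⟩, hg⟩ := h t
      exact ⟨q, by rw [← hg, hq]⟩
    have hξ : ξ = diagonal (fun _ => ξ 0 0) := by
      ext1 i j
      by_cases hij : i = j
      · subst hij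
        rw [diagonal_apply_eq]
        have h1 := tendsto_entry ξ i i
        have h2 := tendsto_entry ξ 0 0
        refine tendsto_nhds_unique h1 (h2.congr ?_)
        intro t
        obtain ⟨q, hq⟩ := hD t
        rw [hq]
        simp
      · rw [diagonal_apply_ne _ hij]
        have h1 := tendsto_entry ξ i j
        refine tendsto_nhds_unique h1 (tendsto_const_nhds.congr ?_)
        intro t
        obtain ⟨q, hq⟩ := hD t
        rw [hq]
        simp [hij]
    refine ⟨ξ 0 0, ?_, hξ⟩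
    obtain ⟨g, ⟨q, hq⟩, hg⟩ := h 1
    rw [one_smul, hξ, exp_diag] at hg
    have h3 : ‖NormedSpace.exp (ξ 0 0)‖ = 1 := by
      apply norm_of_unitary
      rw [← hg]
      exact g.2
    rw [Quaternion.norm_exp, ← Real.exp_eq_exp_ℝ, Real.norm_eq_abs,
      abs_of_pos (Real.exp_pos _), Real.exp_eq_one_iff] at h3
    exact h3
  · rintro ⟨p, hp, rfl⟩ t
    have h1 : (t • (diagonal (fun _ => p) : HMat 3)) = diagonal (fun _ => t • p) := by
      rw [← diagonal_smul]
      rfl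
    have h2 : ‖NormedSpace.exp (t • p)‖ = 1 := norm_exp_imag (by simp [hp])
    exact ⟨gd _ h2, gd_mem _ h2, by rw [h1, exp_diag]; rfl⟩

/-- imaginary quaternions -/
noncomputable def imH : Submodule ℝ ℍ[ℝ] where
  carrier := {p | p.re = 0}
  add_mem' := by
    intro a b ha hb
    have ha' : a.re = 0 := ha
    have hb' : b.re = 0 := hb
    simp [ha', hb']
  zero_mem' := by simp
  smul_mem' := by
    intro c a ha
    have ha' : a.re = 0 := ha
    simp [ha']

/-- diagonal embedding as a linear map -/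
noncomputable def diagL : ℍ[ℝ] →ₗ[ℝ] HMat 3 where
  toFun p := diagonal (fun _ => p)
  map_add' p q := (diagonal_add _ _).symm
  map_smul' c p := by
    change _ = c • (diagonal (fun _ => p) : HMat 3)
    rw [← diagonal_smul]
    rfl

theorem lieAlg_eq : lieAlg Gd = (imH.map diagL : Set (HMat 3)) := by
  ext ξ
  rw [mem_lieAlg_iff]
  constructor
  · rintro ⟨p, hp, rfl⟩
    exact ⟨p, hp, rfl⟩
  · rintro ⟨p, hp, rfl⟩
    exact ⟨p, hp, rfl⟩

theorem finrank_imH : Module.finrank ℝ imH = 3 := by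
  let f : ℍ[ℝ] →ₗ[ℝ] ℝ :=
    { toFun := fun p => p.re
      map_add' := fun _ _ => rfl
      map_smul' := fun _ _ => rfl }
  have h1 : LinearMap.ker f = imH := by
    ext p
    exact Iff.rfl
  have h2 := LinearMap.finrank_range_add_finrank_ker f
  have h3 : LinearMap.range f = ⊤ := by
    rw [LinearMap.range_eq_top]
    intro r
    exact ⟨(r : ℍ[ℝ]), rfl⟩
  rw [h1, h3, finrank_top, Module.finrank_self, Quaternion.finrank_eq_four] at h2
  omega

theorem dimG_Gd : dimG Gd = 3 := by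
  unfold dimG
  rw [lieAlg_eq, Submodule.span_eq]
  have hinj : Function.Injective diagL := fun p q h => diag_inj h
  rw [← (Submodule.equivMapOfInjective diagL hinj imH).finrank_eq, finrank_imH]

/-- The real `4 × 4` matrix of coordinates of a point of `ℍ⁴`. -/
def coordM (x : HVec 3) : Matrix (Fin 4) (Fin 4) ℝ :=
  Matrix.of ![fun a => (x a).re, fun a => (x a).imI, fun a => (x a).imJ, fun a => (x a).imK]

/-- left multiplication by a quaternion as a real matrix -/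
def leftM (q : ℍ[ℝ]) : Matrix (Fin 4) (Fin 4) ℝ :=
  !![q.re, -q.imI, -q.imJ, -q.imK;
     q.imI, q.re, -q.imK, q.imJ;
     q.imJ, q.imK, q.re, -q.imI;
     q.imK, -q.imJ, q.imI, q.re]

theorem coordM_mul (q : ℍ[ℝ]) (x : HVec 3) :
    coordM (fun i => q * x i) = leftM q * coordM x := by
  ext c a
  fin_cases c <;> simp [coordM, leftM, Matrix.mul_apply, Fin.sum_univ_four] <;> ring

theorem det_leftM (q : ℍ[ℝ]) : (leftM q).det = (q.re ^ 2 + q.imI ^ 2 + q.imJ ^ 2 + q.imK ^ 2) ^ 2 := by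
  simp [leftM, Matrix.det_succ_row_zero, Fin.sum_univ_succ, Fin.succAbove]
  ring

theorem normSq_expand (q : ℍ[ℝ]) : ‖q‖ ^ 2 = q.re ^ 2 + q.imI ^ 2 + q.imJ ^ 2 + q.imK ^ 2 := by
  rw [sq, ← Quaternion.normSq_eq_norm_mul_self, Quaternion.normSq_def']

theorem det_coordM_mul (q : ℍ[ℝ]) (hq : ‖q‖ = 1) (x : HVec 3) :
    (coordM (fun i => q * x i)).det = (coordM x).det := by
  rw [coordM_mul, Matrix.det_mul, det_leftM, ← normSq_expand, hq]
  simp

theorem mem_zeroLevel_iff (x : HVec 3) : x ∈ zeroLevel Gd ↔ x ∈ sph 3 ∧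
    ∀ p : ℍ[ℝ], p.re = 0 → ∑ i, star (x i) * (p * x i) = 0 := by
  constructor
  · rintro ⟨h1, h2⟩
    refine ⟨h1, fun p hp => ?_⟩
    have h3 := h2 (diagonal (fun _ => p)) ((mem_lieAlg_iff _).mpr ⟨p, hp, rfl⟩)
    rw [← h3]
    unfold dotProduct
    refine Finset.sum_congr rfl fun i _ => ?_
    rw [diag_mulVec]
    rfl
  · rintro ⟨h1, h2⟩
    refine ⟨h1, fun ξ hξ => ?_⟩
    obtain ⟨p, hp, rfl⟩ := (mem_lieAlg_iff _).mp hξ
    rw [← h2 p hp]
    unfold dotProduct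
    refine Finset.sum_congr rfl fun i _ => ?_
    rw [diag_mulVec]
    rfl

theorem cI (p x : ℍ[ℝ]) (hp : p.re = 0) : (star x * (p * x)).imI =
    p.imI * (x.re ^ 2 + x.imI ^ 2 - x.imJ ^ 2 - x.imK ^ 2) +
    2 * p.imJ * (x.imI * x.imJ + x.re * x.imK) + 2 * p.imK * (x.imI * x.imK - x.re * x.imJ) := by
  simp [hp]
  ring

theorem cJ (p x : ℍ[ℝ]) (hp : p.re = 0) : (star x * (p * x)).imJ =
    p.imJ * (x.re ^ 2 - x.imI ^ 2 + x.imJ ^ 2 - x.imK ^ 2) +
    2 * p.imI * (x.imI * x.imJ - x.re * x.imK) + 2 * p.imK * (x.imJ * x.imK + x.re * x.imI) := by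
  simp [hp]
  ring

theorem cK (p x : ℍ[ℝ]) (hp : p.re = 0) : (star x * (p * x)).imK =
    p.imK * (x.re ^ 2 - x.imI ^ 2 - x.imJ ^ 2 + x.imK ^ 2) +
    2 * p.imI * (x.imI * x.imK + x.re * x.imJ) + 2 * p.imJ * (x.imJ * x.imK - x.re * x.imI) := by
  simp [hp]
  ring

theorem cR (p x : ℍ[ℝ]) (hp : p.re = 0) : (star x * (p * x)).re = 0 := by
  simp [hp]
  ring

/-- unit quaternions -/
def qI : ℍ[ℝ] := ⟨0, 1, 0, 0⟩
/-- unit quaternions -/
def qJ : ℍ[ℝ] := ⟨0, 0, 1, 0⟩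
/-- unit quaternions -/
def qK : ℍ[ℝ] := ⟨0, 0, 0, 1⟩

theorem qI_re : qI.re = 0 := rfl
theorem qI_imI : qI.imI = 1 := rfl
theorem qI_imJ : qI.imJ = 0 := rfl
theorem qI_imK : qI.imK = 0 := rfl
theorem qJ_re : qJ.re = 0 := rfl
theorem qJ_imI : qJ.imI = 0 := rfl
theorem qJ_imJ : qJ.imJ = 1 := rfl
theorem qJ_imK : qJ.imK = 0 := rfl
theorem qK_re : qK.re = 0 := rfl
theorem qK_imI : qK.imI = 0 := rfl
theorem qK_imJ : qK.imJ = 0 := rfl
theorem qK_imK : qK.imK = 1 := rfl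

theorem coordM_orth (x : HVec 3) (hx : x ∈ zeroLevel Gd) :
    coordM x * (coordM x)ᵀ = (1 / 4 : ℝ) • (1 : Matrix (Fin 4) (Fin 4) ℝ) := by
  rw [mem_zeroLevel_iff] at hx
  obtain ⟨h0, h1⟩ := hx
  have hs : ∑ i, ‖x i‖ ^ 2 = 1 := h0
  have hI := h1 qI rfl
  have hJ := h1 qJ rfl
  have hK := h1 qK rfl
  simp only [normSq_expand] at hs
  rw [Fin.sum_univ_four] at hs hI hJ hK
  have i1 := congrArg QuaternionAlgebra.imI hI
  have i2 := congrArg QuaternionAlgebra.imJ hI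
  have i3 := congrArg QuaternionAlgebra.imK hI
  have j1 := congrArg QuaternionAlgebra.imI hJ
  have j2 := congrArg QuaternionAlgebra.imJ hJ
  have j3 := congrArg QuaternionAlgebra.imK hJ
  have k1 := congrArg QuaternionAlgebra.imI hK
  have k2 := congrArg QuaternionAlgebra.imJ hK
  have k3 := congrArg QuaternionAlgebra.imK hK
  simp only [Quaternion.imI_add, Quaternion.imJ_add, Quaternion.imK_add, Quaternion.imI_zero,
    Quaternion.imJ_zero, Quaternion.imK_zero] at i1 i2 i3 j1 j2 j3 k1 k2 k3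
  simp only [cI _ _ qI_re, cJ _ _ qI_re, cK _ _ qI_re, qI_imI, qI_imJ, qI_imK] at i1 i2 i3
  simp only [cI _ _ qJ_re, cJ _ _ qJ_re, cK _ _ qJ_re, qJ_imI, qJ_imJ, qJ_imK] at j1 j2 j3
  simp only [cI _ _ qK_re, cJ _ _ qK_re, cK _ _ qK_re, qK_imI, qK_imJ, qK_imK] at k1 k2 k3
  clear hI hJ hK h0 h1
  ext c d
  fin_cases c <;> fin_cases d <;>
    simp [coordM, Matrix.mul_apply, Fin.sum_univ_four] <;> linarith

end Pool.Agent.R780.Kirwan
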