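import Pool.Agent.R780.Kirwan

/-!
Failure of Kirwan surjectivity in degree zero.
-/

open Quaternion Matrix unitInterval

namespace Pool.Agent.R780.Kirwan

theorem det_coordM_ne_zero (x : HVec 3) (hx : x ∈ zeroLevel Gd) : (coordM x).det ≠ 0 := by
  intro h
  have h1 := congrArg Matrix.det (coordM_orth x hx)
  rw [Matrix.det_mul, h, zero_mul, Matrix.det_smul, Matrix.det_one] at h1
  norm_num at h1

theorem continuous_det : Continuous (fun x : HVec 3 => (coordM x).det) := by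
  refine Continuous.matrix_det ?_
  refine continuous_pi fun c => continuous_pi fun a => ?_
  fin_cases c
  · exact Quaternion.continuous_re.comp (continuous_apply a)
  · exact Quaternion.continuous_imI.comp (continuous_apply a)
  · exact Quaternion.continuous_imJ.comp (continuous_apply a)
  · exact Quaternion.continuous_imK.comp (continuous_apply a)

/-- The determinant as a function on the reduction. -/
noncomputable def detQ : OrbitSpace Gd (zeroLevel Gd) → ℝ :=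
  Quotient.lift (s := relQ Gd (zeroLevel Gd)) (fun x => (coordM x.1).det) (by
    rintro x y ⟨g, ⟨q, hq⟩, h⟩
    have hn : ‖q‖ = 1 := by
      apply norm_of_unitary
      rw [← hq]
      exact g.2
    have h1 : (x : HVec 3) = fun i => q * (y : HVec 3) i := by
      rw [← h, hq]
      funext i
      exact diag_mulVec _ _ _
    change (coordM x.1).det = (coordM y.1).det
    rw [h1]
    exact det_coordM_mul q hn _)

theorem continuous_detQ : Continuous detQ :=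
  Continuous.quotient_lift (continuous_det.comp continuous_subtype_val) _

theorem detQ_ne_zero (a : OrbitSpace Gd (zeroLevel Gd)) : detQ a ≠ 0 := by
  induction a using Quotient.inductionOn with
  | h x => exact det_coordM_ne_zero x.1 x.2

theorem detQ_joined (a b : OrbitSpace Gd (zeroLevel Gd)) (h : Joined a b) (ha : 0 < detQ a) :
    0 < detQ b := by
  by_contra hb
  have hb' : detQ b < 0 := lt_of_le_of_ne (not_lt.mp hb) (detQ_ne_zero b)
  obtain ⟨γ⟩ := h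
  have hc : Continuous (fun t : I => detQ (γ t)) := continuous_detQ.comp γ.continuous
  have h0 : (fun t : I => detQ (γ t)) 1 ≤ 0 := by
    simp only [γ.target]
    exact hb'.le
  have h1 : 0 ≤ (fun t : I => detQ (γ t)) 0 := by
    simp only [γ.source]
    exact ha.le
  obtain ⟨t, ht⟩ := mem_range_of_exists_le_of_exists_ge hc ⟨1, h0⟩ ⟨0, h1⟩
  exact detQ_ne_zero _ ht

/-- The class in `H⁰(N/G)` given by the sign of the determinant. -/
noncomputable def signClass : H0 (OrbitSpace Gd (zeroLevel Gd)) :=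
  ⟨fun a => if 0 < detQ a then 1 else 0, by
    intro a b h
    by_cases ha : 0 < detQ a
    · simp only [if_pos ha, if_pos (detQ_joined a b h ha)]
    · have hb : ¬ 0 < detQ b := fun hb => ha (detQ_joined b a h.symm hb)
      simp only [if_neg ha, if_neg hb]⟩

/-- the point `½ (ε, i, j, k)` -/
noncomputable def pt (ε : ℝ) : HVec 3 :=
  ![⟨ε / 2, 0, 0, 0⟩, ⟨0, 1 / 2, 0, 0⟩, ⟨0, 0, 1 / 2, 0⟩, ⟨0, 0, 0, 1 / 2⟩]

theorem pt_0 (ε : ℝ) : (pt ε 0).re = ε / 2 ∧ (pt ε 0).imI = 0 ∧ (pt ε 0).imJ = 0 ∧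
    (pt ε 0).imK = 0 := ⟨rfl, rfl, rfl, rfl⟩
theorem pt_1 (ε : ℝ) : (pt ε 1).re = 0 ∧ (pt ε 1).imI = 1 / 2 ∧ (pt ε 1).imJ = 0 ∧
    (pt ε 1).imK = 0 := ⟨rfl, rfl, rfl, rfl⟩
theorem pt_2 (ε : ℝ) : (pt ε 2).re = 0 ∧ (pt ε 2).imI = 0 ∧ (pt ε 2).imJ = 1 / 2 ∧
    (pt ε 2).imK = 0 := ⟨rfl, rfl, rfl, rfl⟩
theorem pt_3 (ε : ℝ) : (pt ε 3).re = 0 ∧ (pt ε 3).imI = 0 ∧ (pt ε 3).imJ = 0 ∧
    (pt ε 3).imK = 1 / 2 := ⟨rfl, rfl, rfl, rfl⟩

theorem pt_mem (ε : ℝ) (hε : ε ^ 2 = 1) : pt ε ∈ zeroLevel Gd := by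
  rw [mem_zeroLevel_iff]
  constructor
  · change ∑ i, ‖pt ε i‖ ^ 2 = 1
    simp only [normSq_expand]
    rw [Fin.sum_univ_four, (pt_0 ε).1, (pt_0 ε).2.1, (pt_0 ε).2.2.1, (pt_0 ε).2.2.2,
      (pt_1 ε).1, (pt_1 ε).2.1, (pt_1 ε).2.2.1, (pt_1 ε).2.2.2,
      (pt_2 ε).1, (pt_2 ε).2.1, (pt_2 ε).2.2.1, (pt_2 ε).2.2.2,
      (pt_3 ε).1, (pt_3 ε).2.1, (pt_3 ε).2.2.1, (pt_3 ε).2.2.2]
    nlinarith
  · intro p hp
    rw [Fin.sum_univ_four]
    apply Quaternion.ext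
    · simp only [Quaternion.re_add, cR _ _ hp, Quaternion.re_zero, add_zero]
    · simp only [Quaternion.imI_add, cI _ _ hp, Quaternion.imI_zero]
      rw [(pt_0 ε).1, (pt_0 ε).2.1, (pt_0 ε).2.2.1, (pt_0 ε).2.2.2,
        (pt_1 ε).1, (pt_1 ε).2.1, (pt_1 ε).2.2.1, (pt_1 ε).2.2.2,
        (pt_2 ε).1, (pt_2 ε).2.1, (pt_2 ε).2.2.1, (pt_2 ε).2.2.2,
        (pt_3 ε).1, (pt_3 ε).2.1, (pt_3 ε).2.2.1, (pt_3 ε).2.2.2]
      linear_combination (p.imI / 4) * hε
    · simp only [Quaternion.imJ_add, cJ _ _ hp, Quaternion.imJ_zero]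
      rw [(pt_0 ε).1, (pt_0 ε).2.1, (pt_0 ε).2.2.1, (pt_0 ε).2.2.2,
        (pt_1 ε).1, (pt_1 ε).2.1, (pt_1 ε).2.2.1, (pt_1 ε).2.2.2,
        (pt_2 ε).1, (pt_2 ε).2.1, (pt_2 ε).2.2.1, (pt_2 ε).2.2.2,
        (pt_3 ε).1, (pt_3 ε).2.1, (pt_3 ε).2.2.1, (pt_3 ε).2.2.2]
      linear_combination (p.imJ / 4) * hε
    · simp only [Quaternion.imK_add, cK _ _ hp, Quaternion.imK_zero]
      rw [(pt_0 ε).1, (pt_0 ε).2.1, (pt_0 ε).2.2.1, (pt_0 ε).2.2.2,
        (pt_1 ε).1, (pt_1 ε).2.1, (pt_1 ε).2.2.1, (pt_1 ε).2.2.2,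
        (pt_2 ε).1, (pt_2 ε).2.1, (pt_2 ε).2.2.1, (pt_2 ε).2.2.2,
        (pt_3 ε).1, (pt_3 ε).2.1, (pt_3 ε).2.2.1, (pt_3 ε).2.2.2]
      linear_combination (p.imK / 4) * hε

theorem coordM_pt (ε : ℝ) : coordM (pt ε) = Matrix.diagonal ![ε / 2, 1 / 2, 1 / 2, 1 / 2] := by
  ext c a
  fin_cases c <;> fin_cases a <;> rfl

theorem det_pt (ε : ℝ) : (coordM (pt ε)).det = ε / 16 := by
  rw [coordM_pt, Matrix.det_diagonal, Fin.prod_univ_four]
  simp
  ring

/-- the sphere is path connected -/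
theorem sph_pathConnected : IsPathConnected (sph 3) := by
  have h1 : IsPathConnected ({0}ᶜ : Set (HVec 3)) := by
    apply isPathConnected_compl_singleton_of_one_lt_rank
    have : Module.finrank ℝ (HVec 3) = 16 := by
      rw [Module.finrank_pi_fintype]
      simp [Quaternion.finrank_eq_four]
    have h2 : (1 : Cardinal) < ((16 : ℕ) : Cardinal) := by norm_num
    rwa [← this, Module.finrank_eq_rank] at h2
  let r : HVec 3 → ℝ := fun x => Real.sqrt (∑ i, ‖x i‖ ^ 2)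
  have hr : Continuous r := by
    refine Real.continuous_sqrt.comp (continuous_finsetSum _ fun i _ => ?_)
    exact (continuous_norm.comp (continuous_apply i)).pow 2
  have hsum : ∀ x : HVec 3, x ≠ 0 → 0 < ∑ i, ‖x i‖ ^ 2 := by
    intro x hx
    obtain ⟨i, hi⟩ := Function.ne_iff.mp hx
    refine Finset.sum_pos' (fun j _ => by positivity) ⟨i, Finset.mem_univ i, ?_⟩
    have : x i ≠ 0 := hi
    positivity
  have hr0 : ∀ x : HVec 3, x ≠ 0 → r x ≠ 0 := fun x hx => (Real.sqrt_pos.mpr (hsum x hx)).ne'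
  have h2 : sph 3 = (fun x : HVec 3 => (r x)⁻¹ • x) '' ({0}ᶜ) := by
    ext x
    constructor
    · intro hx
      have hx' : ∑ i, ‖x i‖ ^ 2 = 1 := hx
      refine ⟨x, ?_, ?_⟩
      · intro h0
        rw [Set.mem_singleton_iff] at h0
        rw [h0] at hx'
        simp at hx'
      · simp only [r, hx', Real.sqrt_one, inv_one, one_smul]
    · rintro ⟨y, hy, rfl⟩
      change ∑ i, ‖((r y)⁻¹ • y) i‖ ^ 2 = 1
      have hy' := hsum y hy
      simp only [Pi.smul_apply, norm_smul, mul_pow]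
      rw [← Finset.mul_sum, norm_inv, Real.norm_eq_abs, inv_pow, sq_abs, Real.sq_sqrt hy'.le]
      exact inv_mul_cancel₀ hy'.ne'
  rw [h2]
  refine h1.image' ?_
  refine ContinuousOn.smul (ContinuousOn.inv₀ hr.continuousOn ?_) continuousOn_id
  intro x hx
  exact hr0 x hx

theorem main (E : Type) [TopologicalSpace E] [MulAction Gd E] [PathConnectedSpace E] :
    ¬ ∀ f : H0 (OrbitSpace Gd (zeroLevel Gd)), ∃ g : H0 (Borel Gd E (sph 3)),
      ∀ p : Borel Gd E (zeroLevel Gd), g.1 (inclB Gd E p) = f.1 (projB Gd E p) := by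
  intro h
  obtain ⟨g, hg⟩ := h signClass
  obtain ⟨e⟩ := (inferInstance : Nonempty E)
  have hp := pt_mem 1 (by norm_num)
  have hm := pt_mem (-1) (by norm_num)
  have hpc : PathConnectedSpace (sph 3) := isPathConnected_iff_pathConnectedSpace.mp
    sph_pathConnected
  have h1 : Joined ((e, ⟨pt 1, hp.1⟩) : E × sph 3) (e, ⟨pt (-1), hm.1⟩) :=
    PathConnectedSpace.joined _ _
  have h2 : Joined (Quotient.mk (relB Gd E (sph 3)) (e, ⟨pt 1, hp.1⟩) : Borel Gd E (sph 3))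
      (Quotient.mk (relB Gd E (sph 3)) (e, ⟨pt (-1), hm.1⟩)) := by
    obtain ⟨γ⟩ := h1
    exact ⟨γ.map continuous_quot_mk⟩
  have h3 := g.2 _ _ h2
  have h4 := hg (Quotient.mk (relB Gd E (zeroLevel Gd)) (e, ⟨pt 1, hp⟩))
  have h5 := hg (Quotient.mk (relB Gd E (zeroLevel Gd)) (e, ⟨pt (-1), hm⟩))
  have h6 : signClass.1 (projB Gd E (Quotient.mk (relB Gd E (zeroLevel Gd)) (e, ⟨pt 1, hp⟩)))
      = 1 := by
    change (if 0 < (coordM (pt 1)).det then (1 : ℚ) else 0) = 1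
    rw [if_pos]
    rw [det_pt]
    norm_num
  have h7 : signClass.1 (projB Gd E (Quotient.mk (relB Gd E (zeroLevel Gd)) (e, ⟨pt (-1), hm⟩)))
      = 0 := by
    change (if 0 < (coordM (pt (-1))).det then (1 : ℚ) else 0) = 0
    rw [if_neg]
    rw [det_pt]
    norm_num
  rw [h6] at h4
  rw [h7] at h5
  have h8 : (1 : ℚ) = 0 := by
    rw [← h4, ← h5]
    exact h3
  norm_num at h8

end Pool.Agent.R780.Kirwan
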