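import Mathlib

/-!
Three-Sasakian reduction of spheres by subgroups of `Sp(n+1)`, Borel constructions and
zeroth singular cohomology.
-/

open Quaternion Matrix

namespace Pool.Agent.R780.Kirwan

/-- Quaternionic space `ℍ^{n+1}`. -/
abbrev HVec (n : ℕ) : Type := Fin (n + 1) → ℍ[ℝ]

/-- Quaternionic matrices of size `n+1`. -/
abbrev HMat (n : ℕ) : Type := Matrix (Fin (n + 1)) (Fin (n + 1)) ℍ[ℝ]

/-- The compact symplectic group `Sp(n+1)`: quaternionic matrices with `A* A = A A* = 1`. It acts
on `ℍ^{n+1}` by left matrix multiplication. -/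
abbrev SpGroup (n : ℕ) : Type := unitary (HMat n)

/-- The unit sphere `S^{4n+3}` in `ℍ^{n+1}`. -/
def sph (n : ℕ) : Set (HVec n) := {x | ∑ i, ‖x i‖ ^ 2 = 1}

section

variable {n : ℕ} (G : Subgroup (SpGroup n))

/-- The Lie algebra of a closed subgroup `G` of `Sp(n+1)`: the matrices `ξ` with `exp(tξ) ∈ G` for
all real `t`. -/
def lieAlg : Set (HMat n) :=
  {ξ | ∀ t : ℝ, ∃ g ∈ G, (g : HMat n) = NormedSpace.exp (t • ξ)}

/-- The dimension of the real vector space spanned by the Lie algebra of `G`, that is `dim G`. -/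
noncomputable def dimG : ℕ := Module.finrank ℝ (Submodule.span ℝ (lieAlg G))

/-- `N = μ⁻¹(0) ∩ S^{4n+3}`: the points of the sphere with `x* ξ x = 0` for all `ξ` in the Lie
algebra of `G`. -/
def zeroLevel : Set (HVec n) :=
  {x | x ∈ sph n ∧ ∀ ξ ∈ lieAlg G, star x ⬝ᵥ (ξ *ᵥ x) = 0}

/-- The orbit equivalence relation of `G` on a (`G`-invariant) subset `Y` of `ℍ^{n+1}`. -/
def relQ (Y : Set (HVec n)) : Setoid Y where
  r x y := ∃ g ∈ G, (g : HMat n) *ᵥ (y : HVec n) = x
  iseqv :=
    { refl := fun x => ⟨1, G.one_mem, by simp⟩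
      symm := by
        rintro x y ⟨g, hg, h⟩
        refine ⟨g⁻¹, G.inv_mem hg, ?_⟩
        rw [← h, Matrix.mulVec_mulVec, ← Submonoid.coe_mul, inv_mul_cancel]
        simp
      trans := by
        rintro x y z ⟨g, hg, h⟩ ⟨k, hk, h'⟩
        refine ⟨g * k, G.mul_mem hg hk, ?_⟩
        rw [← h, ← h', Matrix.mulVec_mulVec, ← Submonoid.coe_mul] }

/-- The orbit space `Y/G`. For `Y = zeroLevel G` it is the 3-Sasakian reduction. -/
def OrbitSpace (Y : Set (HVec n)) : Type := Quotient (relQ G Y)

instance (Y : Set (HVec n)) : TopologicalSpace (OrbitSpace G Y) :=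
  inferInstanceAs (TopologicalSpace (Quotient _))

variable (E : Type) [TopologicalSpace E] [MulAction G E]

/-- The orbit equivalence relation of the diagonal action of `G` on `E × Y`. -/
def relB (Y : Set (HVec n)) : Setoid (E × Y) where
  r a b := ∃ g : G, g • b.1 = a.1 ∧ ((g : SpGroup n) : HMat n) *ᵥ (b.2 : HVec n) = a.2
  iseqv :=
    { refl := fun x => ⟨1, one_smul _ _, by simp⟩
      symm := by
        rintro x y ⟨g, h1, h2⟩
        refine ⟨g⁻¹, by rw [← h1, inv_smul_smul], ?_⟩
        rw [← h2, Matrix.mulVec_mulVec, ← Submonoid.coe_mul, ← Subgroup.coe_mul, inv_mul_cancel]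
        simp
      trans := by
        rintro x y z ⟨g, h1, h2⟩ ⟨k, k1, k2⟩
        refine ⟨g * k, by rw [mul_smul, k1, h1], ?_⟩
        rw [← h2, ← k2, Matrix.mulVec_mulVec, ← Submonoid.coe_mul, ← Subgroup.coe_mul] }

/-- The Borel construction `(E × Y)/G`. For `E = EG` its cohomology is `H_G(Y)`. -/
def Borel (Y : Set (HVec n)) : Type := Quotient (relB G E Y)

instance (Y : Set (HVec n)) : TopologicalSpace (Borel G E Y) :=
  inferInstanceAs (TopologicalSpace (Quotient _))

/-- The map `N_G → S_G` of Borel constructions induced by the inclusion `N ⊂ S^{4n+3}`. -/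
def inclB : Borel G E (zeroLevel G) → Borel G E (sph n) :=
  Quotient.map' (s₁ := relB G E (zeroLevel G)) (s₂ := relB G E (sph n))
    (fun a => (a.1, ⟨a.2.1, a.2.2.1⟩)) (fun _ _ h => h)

/-- The map `N_G → N/G` induced by the projection `E × N → N`. -/
def projB : Borel G E (zeroLevel G) → OrbitSpace G (zeroLevel G) :=
  Quotient.map' (s₁ := relB G E (zeroLevel G)) (s₂ := relQ G (zeroLevel G))
    (fun a => a.2) (fun _ _ h => by
      obtain ⟨g, _, h2⟩ := h
      exact ⟨g, g.2, h2⟩)

end

/-- The zeroth singular cohomology `H⁰(X; ℚ)`: rational functions on `X` (singular `0`-cochains)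
which take equal values at the end points of every path (singular `1`-simplex). -/
def H0 (X : Type) [TopologicalSpace X] : Type :=
  {f : X → ℚ // ∀ x y : X, Joined x y → f x = f y}

end Pool.Agent.R780.Kirwan
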