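import Pool.Agent.R780.ObataDefs

/-!
A family of nilpotent hypercomplex Lie algebras whose Obata holonomy algebras have unbounded
derived length.
-/

set_option linter.unusedSectionVars false

namespace Pool.Agent.R780.Obata

/-! ### The family of examples -/

section Model

variable (A : Type) [CommRing A] [Algebra ℝ A]

/-- The four-dimensional solvable Lie algebra with coefficients in `A`. -/
def HA : Type := Fin 4 → A

instance : AddCommGroup (HA A) := inferInstanceAs (AddCommGroup (Fin 4 → A))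
instance : Module ℝ (HA A) := inferInstanceAs (Module ℝ (Fin 4 → A))

variable {A}

@[ext] theorem HA.ext {x y : HA A} (h0 : x 0 = y 0) (h1 : x 1 = y 1) (h2 : x 2 = y 2)
    (h3 : x 3 = y 3) : x = y := by
  funext i
  fin_cases i
  · exact h0
  · exact h1
  · exact h2
  · exact h3

@[simp] theorem HA.add_apply (x y : HA A) (i : Fin 4) : (x + y) i = x i + y i := rfl
@[simp] theorem HA.sub_apply (x y : HA A) (i : Fin 4) : (x - y) i = x i - y i := rfl
@[simp] theorem HA.neg_apply (x : HA A) (i : Fin 4) : (-x) i = -x i := rfl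
@[simp] theorem HA.zero_apply (i : Fin 4) : (0 : HA A) i = 0 := rfl
@[simp] theorem HA.smul_apply (r : ℝ) (x : HA A) (i : Fin 4) : (r • x) i = r • x i := rfl

/-- the vector with given coordinates -/
def vec (a b c d : A) : HA A := ![a, b, c, d]

@[simp] theorem vec_0 (a b c d : A) : vec a b c d 0 = a := rfl
@[simp] theorem vec_1 (a b c d : A) : vec a b c d 1 = b := rfl
@[simp] theorem vec_2 (a b c d : A) : vec a b c d 2 = c := rfl
@[simp] theorem vec_3 (a b c d : A) : vec a b c d 3 = d := rfl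

instance : Bracket (HA A) (HA A) :=
  ⟨fun x y => vec 0 (2 * (x 0 * y 1 - x 1 * y 0) + (x 2 * y 3 - x 3 * y 2))
    (x 0 * y 2 - x 2 * y 0) (x 0 * y 3 - x 3 * y 0)⟩

theorem HA.bracket_def (x y : HA A) : ⁅x, y⁆ =
  vec 0 (2 * (x 0 * y 1 - x 1 * y 0) + (x 2 * y 3 - x 3 * y 2))
    (x 0 * y 2 - x 2 * y 0) (x 0 * y 3 - x 3 * y 0) := rfl

@[simp] theorem HA.b0 (x y : HA A) : ⁅x, y⁆ 0 = 0 := rfl
@[simp] theorem HA.b1 (x y : HA A) :
    ⁅x, y⁆ 1 = 2 * (x 0 * y 1 - x 1 * y 0) + (x 2 * y 3 - x 3 * y 2) := rfl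
@[simp] theorem HA.b2 (x y : HA A) : ⁅x, y⁆ 2 = x 0 * y 2 - x 2 * y 0 := rfl
@[simp] theorem HA.b3 (x y : HA A) : ⁅x, y⁆ 3 = x 0 * y 3 - x 3 * y 0 := rfl

instance : LieRing (HA A) where
  add_lie x y z := by ext <;> simp <;> ring
  lie_add x y z := by ext <;> simp <;> ring
  lie_self x := by ext <;> simp <;> ring
  leibniz_lie x y z := by ext <;> simp <;> ring

instance : LieAlgebra ℝ (HA A) where
  lie_smul r x y := by
    ext <;> simp [Algebra.smul_def] <;> ring

theorem vec_add (a b c d a' b' c' d' : A) :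
    vec a b c d + vec a' b' c' d' = vec (a + a') (b + b') (c + c') (d + d') := by
  ext <;> rfl

/-- The first complex structure. -/
def j1 : HA A →ₗ[ℝ] HA A where
  toFun x := vec (-x 1) (x 0) (x 3) (-x 2)
  map_add' x y := by ext <;> simp <;> ring
  map_smul' r x := by ext <;> simp

/-- The second complex structure. -/
def j2 : HA A →ₗ[ℝ] HA A where
  toFun x := vec (-x 2) (-x 3) (x 0) (x 1)
  map_add' x y := by ext <;> simp <;> ring
  map_smul' r x := by ext <;> simp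

/-- The third complex structure. -/
def j3 : HA A →ₗ[ℝ] HA A where
  toFun x := vec (x 3) (-x 2) (x 1) (-x 0)
  map_add' x y := by ext <;> simp <;> ring
  map_smul' r x := by ext <;> simp

theorem j1_apply (x : HA A) : j1 x = vec (-x 1) (x 0) (x 3) (-x 2) := rfl
theorem j2_apply (x : HA A) : j2 x = vec (-x 2) (-x 3) (x 0) (x 1) := rfl
theorem j3_apply (x : HA A) : j3 x = vec (x 3) (-x 2) (x 1) (-x 0) := rfl

theorem isComplex_j1 : IsComplexStructure (j1 : HA A →ₗ[ℝ] HA A) where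
  sq x := by ext <;> simp [j1_apply]
  nijenhuis x y := by ext <;> simp [j1_apply] <;> ring

theorem isComplex_j2 : IsComplexStructure (j2 : HA A →ₗ[ℝ] HA A) where
  sq x := by ext <;> simp [j2_apply]
  nijenhuis x y := by ext <;> simp [j2_apply] <;> ring

theorem isComplex_j3 : IsComplexStructure (j3 : HA A →ₗ[ℝ] HA A) where
  sq x := by ext <;> simp [j3_apply]
  nijenhuis x y := by ext <;> simp [j3_apply] <;> ring

theorem isHypercomplex_HA : IsHypercomplex (j1 : HA A →ₗ[ℝ] HA A) j2 j3 where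
  isComplex₁ := isComplex_j1
  isComplex₂ := isComplex_j2
  isComplex₃ := isComplex_j3
  mul_eq x := by ext <;> simp [j1_apply, j2_apply, j3_apply]
  anti x := by ext <;> simp [j1_apply, j2_apply, j3_apply]

/-- The nilpotent subalgebra of vectors with entries in an ideal `I`. -/
def gI (I : Ideal A) : LieSubalgebra ℝ (HA A) where
  carrier := {x | ∀ i, x i ∈ I}
  add_mem' := by
    intro x y hx hy i
    exact I.add_mem (hx i) (hy i)
  zero_mem' := by
    intro i
    exact I.zero_mem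
  smul_mem' := by
    intro r x hx i
    rw [HA.smul_apply, Algebra.smul_def]
    exact I.mul_mem_left _ (hx i)
  lie_mem' := by
    intro x y hx hy i
    have hx' : ∀ i, x i ∈ I := hx
    fin_cases i
    · exact I.zero_mem
    · exact I.add_mem (I.mul_mem_left _ (I.sub_mem (I.mul_mem_right _ (hx' _))
        (I.mul_mem_right _ (hx' _)))) (I.sub_mem (I.mul_mem_right _ (hx' _))
        (I.mul_mem_right _ (hx' _)))
    · exact I.sub_mem (I.mul_mem_right _ (hx' _)) (I.mul_mem_right _ (hx' _))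
    · exact I.sub_mem (I.mul_mem_right _ (hx' _)) (I.mul_mem_right _ (hx' _))

theorem mem_gI {I : Ideal A} {x : HA A} : x ∈ gI I ↔ ∀ i, x i ∈ I := Iff.rfl

theorem vec_mem {I : Ideal A} {a b c d : A} (ha : a ∈ I) (hb : b ∈ I) (hc : c ∈ I)
    (hd : d ∈ I) : vec a b c d ∈ gI I := by
  intro i
  fin_cases i
  · exact ha
  · exact hb
  · exact hc
  · exact hd

/-- restriction to the nilpotent subalgebra -/
def k1 (I : Ideal A) : gI I →ₗ[ℝ] gI I :=
  (j1.restrict (p := (gI I).toSubmodule) (q := (gI I).toSubmodule) (by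
    intro x hx
    exact vec_mem (I.neg_mem (hx 1)) (hx 0) (hx 3) (I.neg_mem (hx 2))))

/-- restriction to the nilpotent subalgebra -/
def k2 (I : Ideal A) : gI I →ₗ[ℝ] gI I :=
  (j2.restrict (p := (gI I).toSubmodule) (q := (gI I).toSubmodule) (by
    intro x hx
    exact vec_mem (I.neg_mem (hx 2)) (I.neg_mem (hx 3)) (hx 0) (hx 1)))

/-- restriction to the nilpotent subalgebra -/
def k3 (I : Ideal A) : gI I →ₗ[ℝ] gI I :=
  (j3.restrict (p := (gI I).toSubmodule) (q := (gI I).toSubmodule) (by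
    intro x hx
    exact vec_mem (hx 3) (I.neg_mem (hx 2)) (hx 1) (I.neg_mem (hx 0))))

theorem coe_k1 (I : Ideal A) (x : gI I) : ((k1 I x : gI I) : HA A) = j1 (x : HA A) := rfl
theorem coe_k2 (I : Ideal A) (x : gI I) : ((k2 I x : gI I) : HA A) = j2 (x : HA A) := rfl
theorem coe_k3 (I : Ideal A) (x : gI I) : ((k3 I x : gI I) : HA A) = j3 (x : HA A) := rfl

theorem isHypercomplex_gI (I : Ideal A) : IsHypercomplex (k1 I) (k2 I) (k3 I) where
  isComplex₁ :=
    { sq := fun x => Subtype.ext (isComplex_j1.sq (x : HA A))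
      nijenhuis := fun x y => Subtype.ext (isComplex_j1.nijenhuis (x : HA A) (y : HA A)) }
  isComplex₂ :=
    { sq := fun x => Subtype.ext (isComplex_j2.sq (x : HA A))
      nijenhuis := fun x y => Subtype.ext (isComplex_j2.nijenhuis (x : HA A) (y : HA A)) }
  isComplex₃ :=
    { sq := fun x => Subtype.ext (isComplex_j3.sq (x : HA A))
      nijenhuis := fun x y => Subtype.ext (isComplex_j3.nijenhuis (x : HA A) (y : HA A)) }
  mul_eq x := Subtype.ext (isHypercomplex_HA.mul_eq (x : HA A))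
  anti x := Subtype.ext (isHypercomplex_HA.anti (x : HA A))

/-- The ideal of vectors with entries in `I ^ k`. -/
def idealPow (I : Ideal A) (k : ℕ) : LieSubmodule ℝ (gI I) (gI I) where
  carrier := {x | ∀ i, (x : HA A) i ∈ I ^ k}
  add_mem' := by
    intro x y hx hy i
    exact (I ^ k).add_mem (hx i) (hy i)
  zero_mem' := by
    intro i
    exact (I ^ k).zero_mem
  smul_mem' := by
    intro r x hx i
    change (r • (x : HA A)) i ∈ I ^ k
    rw [HA.smul_apply, Algebra.smul_def]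
    exact (I ^ k).mul_mem_left _ (hx i)
  lie_mem := by
    intro x y hy i
    have hy' : ∀ i, (y : HA A) i ∈ I ^ k := hy
    change (⁅(x : HA A), (y : HA A)⁆ : HA A) i ∈ I ^ k
    fin_cases i
    · exact (I ^ k).zero_mem
    · exact (I ^ k).add_mem ((I ^ k).mul_mem_left _ ((I ^ k).sub_mem
        ((I ^ k).mul_mem_left _ (hy' _)) ((I ^ k).mul_mem_left _ (hy' _))))
        ((I ^ k).sub_mem ((I ^ k).mul_mem_left _ (hy' _)) ((I ^ k).mul_mem_left _ (hy' _)))
    · exact (I ^ k).sub_mem ((I ^ k).mul_mem_left _ (hy' _)) ((I ^ k).mul_mem_left _ (hy' _))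
    · exact (I ^ k).sub_mem ((I ^ k).mul_mem_left _ (hy' _)) ((I ^ k).mul_mem_left _ (hy' _))

theorem lcs_le (I : Ideal A) (k : ℕ) :
    LieModule.lowerCentralSeries ℝ (gI I) (gI I) k ≤ idealPow I (k + 1) := by
  induction k with
  | zero =>
    intro x _ i
    rw [zero_add, pow_one]
    exact x.2 i
  | succ k ih =>
    rw [LieModule.lowerCentralSeries_succ, LieSubmodule.lie_le_iff]
    intro x _ m hm
    have hm' : ∀ i, (m : HA A) i ∈ I ^ (k + 1) := ih hm
    have hx : ∀ i, (x : HA A) i ∈ I := x.2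
    have hmul : ∀ i j, (x : HA A) i * (m : HA A) j ∈ I ^ (k + 1 + 1) := by
      intro i j
      rw [pow_succ' I (k + 1)]
      exact Ideal.mul_mem_mul (hx i) (hm' j)
    intro i
    change (⁅(x : HA A), (m : HA A)⁆ : HA A) i ∈ I ^ (k + 1 + 1)
    fin_cases i
    · exact (I ^ (k + 1 + 1)).zero_mem
    · exact (I ^ (k + 1 + 1)).add_mem ((I ^ (k + 1 + 1)).mul_mem_left _
        ((I ^ (k + 1 + 1)).sub_mem (hmul _ _) (hmul _ _)))
        ((I ^ (k + 1 + 1)).sub_mem (hmul _ _) (hmul _ _))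
    · exact (I ^ (k + 1 + 1)).sub_mem (hmul _ _) (hmul _ _)
    · exact (I ^ (k + 1 + 1)).sub_mem (hmul _ _) (hmul _ _)

theorem nilpotent_gI (I : Ideal A) (k : ℕ) (hk : I ^ (k + 1) = ⊥) :
    LieRing.IsNilpotent (gI I) := by
  change LieModule.IsNilpotent (gI I) (gI I)
  rw [LieModule.isNilpotent_iff ℝ]
  refine ⟨k, ?_⟩
  rw [eq_bot_iff]
  intro x hx
  have h := lcs_le I k hx
  have h' : ∀ i, (x : HA A) i ∈ I ^ (k + 1) := h
  rw [hk] at h'
  rw [LieSubmodule.mem_bot]
  apply Subtype.ext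
  ext
  · exact h' 0
  · exact h' 1
  · exact h' 2
  · exact h' 3

/-- The operator `z ↦ a K₁ z`. -/
def K1 (I : Ideal A) (a : A) : Module.End ℝ (gI I) where
  toFun z := ⟨vec (-(a * (z : HA A) 1)) (a * (z : HA A) 0) (-(a * (z : HA A) 3))
    (a * (z : HA A) 2), vec_mem (I.neg_mem (I.mul_mem_left _ (z.2 _))) (I.mul_mem_left _ (z.2 _))
    (I.neg_mem (I.mul_mem_left _ (z.2 _))) (I.mul_mem_left _ (z.2 _))⟩
  map_add' x y := by apply Subtype.ext; ext <;> simp <;> ring
  map_smul' r x := by apply Subtype.ext; ext <;> simp [Algebra.smul_def] <;> ring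

/-- The operator `z ↦ a K₂ z`. -/
def K2 (I : Ideal A) (a : A) : Module.End ℝ (gI I) where
  toFun z := ⟨vec (a * (z : HA A) 2) (-(a * (z : HA A) 3)) (-(a * (z : HA A) 0))
    (a * (z : HA A) 1), vec_mem (I.mul_mem_left _ (z.2 _)) (I.neg_mem (I.mul_mem_left _ (z.2 _)))
    (I.neg_mem (I.mul_mem_left _ (z.2 _))) (I.mul_mem_left _ (z.2 _))⟩
  map_add' x y := by apply Subtype.ext; ext <;> simp <;> ring
  map_smul' r x := by apply Subtype.ext; ext <;> simp [Algebra.smul_def] <;> ring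

/-- The operator `z ↦ a K₃ z`. -/
def K3 (I : Ideal A) (a : A) : Module.End ℝ (gI I) where
  toFun z := ⟨vec (a * (z : HA A) 3) (a * (z : HA A) 2) (-(a * (z : HA A) 1))
    (-(a * (z : HA A) 0)), vec_mem (I.mul_mem_left _ (z.2 _)) (I.mul_mem_left _ (z.2 _))
    (I.neg_mem (I.mul_mem_left _ (z.2 _))) (I.neg_mem (I.mul_mem_left _ (z.2 _)))⟩
  map_add' x y := by apply Subtype.ext; ext <;> simp <;> ring
  map_smul' r x := by apply Subtype.ext; ext <;> simp [Algebra.smul_def] <;> ring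

theorem coe_K1 (I : Ideal A) (a : A) (z : gI I) : ((K1 I a z : gI I) : HA A) =
    vec (-(a * (z : HA A) 1)) (a * (z : HA A) 0) (-(a * (z : HA A) 3)) (a * (z : HA A) 2) := rfl
theorem coe_K2 (I : Ideal A) (a : A) (z : gI I) : ((K2 I a z : gI I) : HA A) =
    vec (a * (z : HA A) 2) (-(a * (z : HA A) 3)) (-(a * (z : HA A) 0)) (a * (z : HA A) 1) := rfl
theorem coe_K3 (I : Ideal A) (a : A) (z : gI I) : ((K3 I a z : gI I) : HA A) =
    vec (a * (z : HA A) 3) (a * (z : HA A) 2) (-(a * (z : HA A) 1)) (-(a * (z : HA A) 0)) := rfl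

theorem comm12 (I : Ideal A) (a b : A) :
    K1 I a * K2 I b - K2 I b * K1 I a = (2 : ℝ) • K3 I (a * b) := by
  apply LinearMap.ext
  intro z
  apply Subtype.ext
  simp only [LinearMap.sub_apply, Module.End.mul_apply, LinearMap.smul_apply]
  ext <;> simp [coe_K1, coe_K2, coe_K3, two_smul] <;> ring

theorem comm23 (I : Ideal A) (a b : A) :
    K2 I a * K3 I b - K3 I b * K2 I a = (2 : ℝ) • K1 I (a * b) := by
  apply LinearMap.ext
  intro z
  apply Subtype.ext
  simp only [LinearMap.sub_apply, Module.End.mul_apply, LinearMap.smul_apply]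
  ext <;> simp [coe_K1, coe_K2, coe_K3, two_smul] <;> ring

theorem comm31 (I : Ideal A) (a b : A) :
    K3 I a * K1 I b - K1 I b * K3 I a = (2 : ℝ) • K2 I (a * b) := by
  apply LinearMap.ext
  intro z
  apply Subtype.ext
  simp only [LinearMap.sub_apply, Module.End.mul_apply, LinearMap.smul_apply]
  ext <;> simp [coe_K1, coe_K2, coe_K3, two_smul] <;> ring

theorem coe_obata (I : Ideal A) (x y : gI I) :
    ((obata (k1 I) (k2 I) (k3 I) x y : gI I) : HA A) =
      (1 / 2 : ℝ) • (⁅(x : HA A), (y : HA A)⁆ + j1 ⁅j1 (x : HA A), (y : HA A)⁆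
        - j2 ⁅(x : HA A), j2 (y : HA A)⁆ + j3 ⁅j1 (x : HA A), j2 (y : HA A)⁆) := rfl

/-- `2 ∇_x y` in coordinates. -/
theorem coe_obata' (I : Ideal A) (x y : gI I) :
    ((obata (k1 I) (k2 I) (k3 I) x y : gI I) : HA A) =
      (1 / 2 : ℝ) • vec
        (3 * ((x : HA A) 0 * (y : HA A) 0) + (x : HA A) 1 * (y : HA A) 1
          - (x : HA A) 2 * (y : HA A) 2 - (x : HA A) 3 * (y : HA A) 3)
        (3 * ((x : HA A) 0 * (y : HA A) 1) - (x : HA A) 1 * (y : HA A) 0
          + (x : HA A) 2 * (y : HA A) 3 - (x : HA A) 3 * (y : HA A) 2)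
        (3 * ((x : HA A) 0 * (y : HA A) 2) + (x : HA A) 1 * (y : HA A) 3
          + (x : HA A) 2 * (y : HA A) 0 + (x : HA A) 3 * (y : HA A) 1)
        (3 * ((x : HA A) 0 * (y : HA A) 3) - (x : HA A) 1 * (y : HA A) 2
          - (x : HA A) 2 * (y : HA A) 1 + (x : HA A) 3 * (y : HA A) 0) := by
  rw [coe_obata]
  congr 1
  ext <;> simp [j1_apply, j2_apply, j3_apply] <;> ring

theorem coe_gI_smul (I : Ideal A) (r : ℝ) (x : gI I) :
    ((r • x : gI I) : HA A) = r • (x : HA A) := rfl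

theorem curvature01 (I : Ideal A) (a b : A) (ha : a ∈ I) (hb : b ∈ I) :
    curvature (k1 I) (k2 I) (k3 I)
      ⟨vec a 0 0 0, vec_mem ha I.zero_mem I.zero_mem I.zero_mem⟩
      ⟨vec 0 b 0 0, vec_mem I.zero_mem hb I.zero_mem I.zero_mem⟩ = K1 I (a * b) := by
  apply LinearMap.ext
  intro z
  apply Subtype.ext
  simp only [curvature, LinearMap.sub_apply, Module.End.mul_apply]
  simp only [AddSubgroupClass.coe_sub, coe_obata', LieSubalgebra.coe_bracket]
  ext <;> simp only [coe_K1, HA.smul_apply, HA.sub_apply, HA.b0, HA.b1, HA.b2, HA.b3, vec_0,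
    vec_1, vec_2, vec_3] <;> algebra

theorem curvature02 (I : Ideal A) (a b : A) (ha : a ∈ I) (hb : b ∈ I) :
    curvature (k1 I) (k2 I) (k3 I)
      ⟨vec a 0 0 0, vec_mem ha I.zero_mem I.zero_mem I.zero_mem⟩
      ⟨vec 0 0 b 0, vec_mem I.zero_mem I.zero_mem hb I.zero_mem⟩
      = (1 / 2 : ℝ) • K2 I (a * b) := by
  apply LinearMap.ext
  intro z
  apply Subtype.ext
  simp only [curvature, LinearMap.sub_apply, Module.End.mul_apply, LinearMap.smul_apply]
  simp only [AddSubgroupClass.coe_sub, coe_obata', LieSubalgebra.coe_bracket,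
    coe_gI_smul]
  ext <;> simp only [coe_K2, HA.smul_apply, HA.sub_apply, HA.b0, HA.b1, HA.b2, HA.b3, vec_0,
    vec_1, vec_2, vec_3] <;> algebra

theorem curvature03 (I : Ideal A) (a b : A) (ha : a ∈ I) (hb : b ∈ I) :
    curvature (k1 I) (k2 I) (k3 I)
      ⟨vec a 0 0 0, vec_mem ha I.zero_mem I.zero_mem I.zero_mem⟩
      ⟨vec 0 0 0 b, vec_mem I.zero_mem I.zero_mem I.zero_mem hb⟩
      = (1 / 2 : ℝ) • K3 I (a * b) := by
  apply LinearMap.ext
  intro z
  apply Subtype.ext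
  simp only [curvature, LinearMap.sub_apply, Module.End.mul_apply, LinearMap.smul_apply]
  simp only [AddSubgroupClass.coe_sub, coe_obata', LieSubalgebra.coe_bracket,
    coe_gI_smul]
  ext <;> simp only [coe_K3, HA.smul_apply, HA.sub_apply, HA.b0, HA.b1, HA.b2, HA.b3, vec_0,
    vec_1, vec_2, vec_3] <;> algebra

theorem K1_mem (I : Ideal A) (S : Submodule ℝ (Module.End ℝ (gI I)))
    (hS : ∀ X Y, curvature (k1 I) (k2 I) (k3 I) X Y ∈ S) (a b : A) (ha : a ∈ I) (hb : b ∈ I) :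
    K1 I (a * b) ∈ S := by
  rw [← curvature01 I a b ha hb]
  exact hS _ _

theorem K2_mem (I : Ideal A) (S : Submodule ℝ (Module.End ℝ (gI I)))
    (hS : ∀ X Y, curvature (k1 I) (k2 I) (k3 I) X Y ∈ S) (a b : A) (ha : a ∈ I) (hb : b ∈ I) :
    K2 I (a * b) ∈ S := by
  have h : K2 I (a * b) = (2 : ℝ) • ((1 / 2 : ℝ) • K2 I (a * b)) := by
    rw [smul_smul]
    norm_num
  rw [h, ← curvature02 I a b ha hb]
  exact S.smul_mem _ (hS _ _)

theorem K3_mem (I : Ideal A) (S : Submodule ℝ (Module.End ℝ (gI I)))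
    (hS : ∀ X Y, curvature (k1 I) (k2 I) (k3 I) X Y ∈ S) (a b : A) (ha : a ∈ I) (hb : b ∈ I) :
    K3 I (a * b) ∈ S := by
  have h : K3 I (a * b) = (2 : ℝ) • ((1 / 2 : ℝ) • K3 I (a * b)) := by
    rw [smul_smul]
    norm_num
  rw [h, ← curvature03 I a b ha hb]
  exact S.smul_mem _ (hS _ _)

theorem iterate_mem (I : Ideal A) (S : Submodule ℝ (Module.End ℝ (gI I)))
    (hS : ∀ X Y, curvature (k1 I) (k2 I) (k3 I) X Y ∈ S) (t : A) (ht : t ∈ I) (k : ℕ) :
    K1 I (t ^ 2 ^ (k + 1)) ∈ derivedStep^[k] S ∧ K2 I (t ^ 2 ^ (k + 1)) ∈ derivedStep^[k] S ∧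
      K3 I (t ^ 2 ^ (k + 1)) ∈ derivedStep^[k] S := by
  induction k with
  | zero =>
    have h2 : t ^ 2 ^ (0 + 1) = t * t := by ring
    rw [h2]
    exact ⟨K1_mem I S hS t t ht ht, K2_mem I S hS t t ht ht, K3_mem I S hS t t ht ht⟩
  | succ k ih =>
    obtain ⟨h1, h2, h3⟩ := ih
    rw [Function.iterate_succ_apply']
    have hp : t ^ 2 ^ (k + 1 + 1) = t ^ 2 ^ (k + 1) * t ^ 2 ^ (k + 1) := by
      rw [← pow_add]
      congr 1
      ring
    have half : ∀ B : Module.End ℝ (gI I), B = (1 / 2 : ℝ) • ((2 : ℝ) • B) := by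
      intro B
      rw [smul_smul]
      norm_num
    rw [hp]
    refine ⟨?_, ?_, ?_⟩
    · rw [half (K1 I _), ← comm23]
      exact Submodule.smul_mem _ _ (Submodule.subset_span ⟨_, h2, _, h3, rfl⟩)
    · rw [half (K2 I _), ← comm31]
      exact Submodule.smul_mem _ _ (Submodule.subset_span ⟨_, h3, _, h1, rfl⟩)
    · rw [half (K3 I _), ← comm12]
      exact Submodule.smul_mem _ _ (Submodule.subset_span ⟨_, h1, _, h2, rfl⟩)

theorem K3_ne_zero (I : Ideal A) (t a : A) (ht : t ∈ I) (h : a * t ≠ 0) : K3 I a ≠ 0 := by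
  intro h0
  have h1 : ((K3 I a ⟨vec t 0 0 0, vec_mem ht I.zero_mem I.zero_mem I.zero_mem⟩ : gI I) : HA A) 3
      = 0 := by
    rw [h0]
    rfl
  rw [coe_K3] at h1
  simp only [vec_0, vec_3] at h1
  exact h (neg_eq_zero.mp h1)

instance [Module.Finite ℝ A] : Module.Finite ℝ (HA A) :=
  inferInstanceAs (Module.Finite ℝ (Fin 4 → A))

end Model

/-- The truncated polynomial ring `ℝ[t]/(t^m)`. -/
abbrev TP (m : ℕ) : Type := AdjoinRoot ((Polynomial.X : Polynomial ℝ) ^ m)

/-- The maximal ideal `(t)` of `ℝ[t]/(t^m)`. -/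
noncomputable abbrev TI (m : ℕ) : Ideal (TP m) :=
  Ideal.span {AdjoinRoot.root ((Polynomial.X : Polynomial ℝ) ^ m)}

theorem TP_finite (m : ℕ) : Module.Finite ℝ (TP m) :=
  (Polynomial.monic_X_pow m).finite_adjoinRoot

theorem root_pow_eq (m k : ℕ) : (AdjoinRoot.root ((Polynomial.X : Polynomial ℝ) ^ m)) ^ k =
    AdjoinRoot.mk ((Polynomial.X : Polynomial ℝ) ^ m) (Polynomial.X ^ k) := by
  rw [map_pow, AdjoinRoot.mk_X]

theorem root_pow_self (m : ℕ) :
    (AdjoinRoot.root ((Polynomial.X : Polynomial ℝ) ^ m)) ^ m = 0 := by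
  rw [root_pow_eq, AdjoinRoot.mk_eq_zero]

theorem root_pow_ne (m k : ℕ) (h : k < m) :
    (AdjoinRoot.root ((Polynomial.X : Polynomial ℝ) ^ m)) ^ k ≠ 0 := by
  rw [root_pow_eq]
  intro h0
  rw [AdjoinRoot.mk_eq_zero] at h0
  have := (Polynomial.X_pow_dvd_iff.mp h0) k h
  simp at this

theorem TI_pow (m : ℕ) : TI m ^ m = ⊥ := by
  rw [Ideal.span_singleton_pow, root_pow_self, Ideal.span_singleton_eq_bot]

theorem main (k : ℕ) :
    ∃ (𝔤 : Type) (_ : LieRing 𝔤) (_ : LieAlgebra ℝ 𝔤) (J₁ J₂ J₃ : 𝔤 →ₗ[ℝ] 𝔤),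
      FiniteDimensional ℝ 𝔤 ∧ LieRing.IsNilpotent 𝔤 ∧ IsHypercomplex J₁ J₂ J₃ ∧
      (∃ A ∈ holonomyAlgebra J₁ J₂ J₃, ∃ B ∈ holonomyAlgebra J₁ J₂ J₃, A * B ≠ B * A) ∧
      derivedStep^[k] (holonomyAlgebra J₁ J₂ J₃) ≠ ⊥ := by
  set m : ℕ := 2 ^ (k + 1) + 4 with hm
  set t : TP m := AdjoinRoot.root ((Polynomial.X : Polynomial ℝ) ^ m) with ht
  have htI : t ∈ TI m := Ideal.subset_span rfl
  have := TP_finite m
  refine ⟨gI (TI m), inferInstance, inferInstance, k1 _, k2 _, k3 _, ?_, ?_, ?_, ?_, ?_⟩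
  · exact inferInstanceAs (FiniteDimensional ℝ (gI (TI m)).toSubmodule)
  · refine nilpotent_gI (TI m) (m - 1) ?_
    have : m - 1 + 1 = m := Nat.sub_add_cancel (by
      rw [hm]
      linarith [Nat.zero_le (2 ^ (k + 1))])
    rw [this]
    exact TI_pow m
  · exact isHypercomplex_gI _
  · refine ⟨K1 _ (t * t), K1_mem _ _ (curvature_mem_holonomyAlgebra _ _ _) t t htI htI,
      K2 _ (t * t), K2_mem _ _ (curvature_mem_holonomyAlgebra _ _ _) t t htI htI, ?_⟩
    intro h
    have h1 := comm12 (TI m) (t * t) (t * t)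
    rw [h, sub_self] at h1
    have h2 : K3 (TI m) (t * t * (t * t)) = 0 := by
      rcases smul_eq_zero.mp h1.symm with h3 | h3
      · norm_num at h3
      · exact h3
    refine K3_ne_zero (TI m) t (t * t * (t * t)) htI ?_ h2
    have h4 : t * t * (t * t) * t = t ^ 5 := by ring
    rw [h4]
    refine root_pow_ne m 5 ?_
    have h5 : 2 ^ 1 ≤ 2 ^ (k + 1) := Nat.pow_le_pow_right (by norm_num) (by omega)
    rw [hm]
    linarith
  · intro h0
    have h1 := (iterate_mem (TI m) _ (curvature_mem_holonomyAlgebra (k1 _) (k2 _) (k3 _))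
      t htI k).2.2
    rw [h0, Submodule.mem_bot] at h1
    refine K3_ne_zero (TI m) t _ htI ?_ h1
    rw [← pow_succ]
    refine root_pow_ne m _ ?_
    rw [hm]
    linarith

end Pool.Agent.R780.Obata
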