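import Mathlib

/-!
Hypercomplex structures on real Lie algebras, the Obata connection, its curvature and its
holonomy algebra.
-/

namespace Pool.Agent.R780.Obata

variable {𝔤 : Type} [LieRing 𝔤] [LieAlgebra ℝ 𝔤]

/-- A complex structure on a real Lie algebra: a linear map `J` with `J² = -1` whose
Nijenhuis tensor vanishes. -/
structure IsComplexStructure (J : 𝔤 →ₗ[ℝ] 𝔤) : Prop where
  sq : ∀ X : 𝔤, J (J X) = -X
  nijenhuis : ∀ X Y : 𝔤, ⁅X, Y⁆ + J (⁅J X, Y⁆ + ⁅X, J Y⁆) - ⁅J X, J Y⁆ = 0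

/-- A hypercomplex structure on a real Lie algebra: three complex structures with
`J₁ J₂ = - J₂ J₁ = J₃`. -/
structure IsHypercomplex (J₁ J₂ J₃ : 𝔤 →ₗ[ℝ] 𝔤) : Prop where
  isComplex₁ : IsComplexStructure J₁
  isComplex₂ : IsComplexStructure J₂
  isComplex₃ : IsComplexStructure J₃
  mul_eq : ∀ X : 𝔤, J₁ (J₂ X) = J₃ X
  anti : ∀ X : 𝔤, -J₂ (J₁ X) = J₃ X

/-- The Obata connection on left-invariant fields:
`∇_X Y = ½ ([X,Y] + J₁[J₁X,Y] - J₂[X,J₂Y] + J₃[J₁X,J₂Y])`, as a linear map `X ↦ ∇_X`. -/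
noncomputable def obata (J₁ J₂ J₃ : 𝔤 →ₗ[ℝ] 𝔤) : 𝔤 →ₗ[ℝ] Module.End ℝ 𝔤 :=
  LinearMap.mk₂ ℝ
    (fun X Y => (1 / 2 : ℝ) • (⁅X, Y⁆ + J₁ ⁅J₁ X, Y⁆ - J₂ ⁅X, J₂ Y⁆ + J₃ ⁅J₁ X, J₂ Y⁆))
    (by intro a b c; simp only [add_lie, map_add]; module)
    (by intro a b c; simp only [smul_lie, map_smul]; module)
    (by intro a b c; simp only [lie_add, map_add]; module)
    (by intro a b c; simp only [lie_smul, map_smul]; module)

theorem obata_apply (J₁ J₂ J₃ : 𝔤 →ₗ[ℝ] 𝔤) (X Y : 𝔤) :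
    obata J₁ J₂ J₃ X Y =
      (1 / 2 : ℝ) • (⁅X, Y⁆ + J₁ ⁅J₁ X, Y⁆ - J₂ ⁅X, J₂ Y⁆ + J₃ ⁅J₁ X, J₂ Y⁆) := rfl

/-- The curvature operator `R(X,Y) = [∇_X, ∇_Y] - ∇_{[X,Y]}` of the Obata connection. -/
noncomputable def curvature (J₁ J₂ J₃ : 𝔤 →ₗ[ℝ] 𝔤) (X Y : 𝔤) : Module.End ℝ 𝔤 :=
  obata J₁ J₂ J₃ X * obata J₁ J₂ J₃ Y - obata J₁ J₂ J₃ Y * obata J₁ J₂ J₃ X
    - obata J₁ J₂ J₃ ⁅X, Y⁆

/-- The holonomy algebra of the (left-invariant) Obata connection: the smallest linear subspace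
of `gl(𝔤)` which contains all curvature operators `R(X,Y)`, is closed under commutators (that
is, is a Lie subalgebra) and is stable under `A ↦ [∇_X, A]` for all `X`
(the Ambrose-Singer description for a left-invariant connection). -/
noncomputable def holonomyAlgebra (J₁ J₂ J₃ : 𝔤 →ₗ[ℝ] 𝔤) : Submodule ℝ (Module.End ℝ 𝔤) :=
  sInf {S | (∀ X Y : 𝔤, curvature J₁ J₂ J₃ X Y ∈ S) ∧
    (∀ A ∈ S, ∀ B ∈ S, A * B - B * A ∈ S) ∧
    ∀ X : 𝔤, ∀ A ∈ S, obata J₁ J₂ J₃ X * A - A * obata J₁ J₂ J₃ X ∈ S}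

/-- The span of all commutators `[A,B]`, `A, B ∈ S`; for a Lie subalgebra `S` of `gl(𝔤)` this
is the derived algebra `[S,S]`, and iterating it gives the derived series of `S`. -/
def derivedStep (S : Submodule ℝ (Module.End ℝ 𝔤)) : Submodule ℝ (Module.End ℝ 𝔤) :=
  Submodule.span ℝ {C | ∃ A ∈ S, ∃ B ∈ S, C = A * B - B * A}

theorem curvature_mem_holonomyAlgebra (J₁ J₂ J₃ : 𝔤 →ₗ[ℝ] 𝔤) (X Y : 𝔤) :
    curvature J₁ J₂ J₃ X Y ∈ holonomyAlgebra J₁ J₂ J₃ := by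
  unfold holonomyAlgebra
  rw [Submodule.mem_sInf]
  intro S hS
  exact hS.1 X Y

end Pool.Agent.R780.Obata
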