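import Pool.Agent.R780.OrbConfDefs

/-!
The intermediate covering `(E × E × Conf2)/(1 × H) → (E × E × Conf2)/(H × H)`.
-/

open Topology

set_option linter.unusedSectionVars false

namespace Pool.Agent.R780.OrbConf

section Cov

variable (H X E : Type) [Group H] [MulAction H X] [MulAction H E]
  [TopologicalSpace X] [TopologicalSpace E]

/-- Orbits of the second factor. -/
def relM : Setoid (E × E × Conf2 H X) where
  r a b := ∃ k : H, b.1 = a.1 ∧ k • b.2.1 = a.2.1 ∧ b.2.2.1.1 = a.2.2.1.1 ∧
    k • b.2.2.1.2 = a.2.2.1.2
  iseqv :=
    { refl := fun a => ⟨1, rfl, one_smul _ _, rfl, one_smul _ _⟩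
      symm := by
        rintro a b ⟨k, h1, h2, h3, h4⟩
        exact ⟨k⁻¹, h1.symm, by rw [← h2, inv_smul_smul],
          h3.symm, by rw [← h4, inv_smul_smul]⟩
      trans := by
        rintro a b c ⟨k, h1, h2, h3, h4⟩ ⟨k', h1', h2', h3', h4'⟩
        exact ⟨k * k', h1'.trans h1, by rw [mul_smul, h2', h2],
          h3'.trans h3, by rw [mul_smul, h4', h4]⟩ }

/-- The intermediate quotient. -/
def BM : Type := Quotient (relM H X E)

instance : TopologicalSpace (BM H X E) := inferInstanceAs (TopologicalSpace (Quotient _))

variable {H X E}

/-- the class of a point -/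
def BM.mk (a : E × E × Conf2 H X) : BM H X E := Quotient.mk (relM H X E) a

/-- the class of a point -/
def B2.mk (a : E × E × Conf2 H X) : B2 H X E := Quotient.mk (rel2 H X E) a

/-- the class of a point -/
def B1.mk (a : E × X) : B1 H X E := Quotient.mk (rel1 H X E) a

theorem BM.continuous_mk : Continuous (BM.mk : E × E × Conf2 H X → BM H X E) :=
  continuous_quot_mk

theorem B2.continuous_mk : Continuous (B2.mk : E × E × Conf2 H X → B2 H X E) :=
  continuous_quot_mk

theorem B1.continuous_mk : Continuous (B1.mk : E × X → B1 H X E) :=
  continuous_quot_mk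

theorem BF.continuous_mk {y : X} : Continuous (BF.mk : E × FibY H X y → BF H X E y) :=
  continuous_quot_mk

/-- action of the first factor on representatives -/
def actL (h : H) (a : E × E × Conf2 H X) : E × E × Conf2 H X :=
  (h • a.1, a.2.1, ⟨(h • a.2.2.1.1, a.2.2.1.2), by
    intro k
    have := a.2.2.2 (k * h)
    rwa [mul_smul] at this⟩)

instance : MulAction H (BM H X E) where
  smul h := Quotient.map (sa := relM H X E) (sb := relM H X E) (actL h) (by
    rintro a b ⟨k, h1, h2, h3, h4⟩
    exact ⟨k, congrArg (h • ·) h1, h2, congrArg (h • ·) h3, h4⟩)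
  one_smul := by
    intro b
    induction b using Quotient.inductionOn with
    | h a => exact Quotient.sound ⟨1, (one_smul _ _).symm, one_smul _ _, (one_smul _ _).symm,
        one_smul _ _⟩
  mul_smul := by
    intro h h' b
    induction b using Quotient.inductionOn with
    | h a => exact Quotient.sound ⟨1, (mul_smul _ _ _).symm, one_smul _ _, (mul_smul _ _ _).symm,
        one_smul _ _⟩

theorem smul_mk (h : H) (a : E × E × Conf2 H X) : h • BM.mk a = BM.mk (actL h a) := rfl

/-- The covering. -/
def qmap : BM H X E → B2 H X E :=
  Quotient.lift (s := relM H X E) (fun a => B2.mk a) (by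
    rintro a b ⟨k, h1, h2, h3, h4⟩
    exact Quotient.sound ⟨1, k, by rw [one_smul]; exact h1, h2, by rw [one_smul]; exact h3, h4⟩)

theorem qmap_mk (a : E × E × Conf2 H X) : qmap (BM.mk a) = B2.mk a := rfl

theorem continuous_qmap : Continuous (qmap : BM H X E → B2 H X E) :=
  Continuous.quotient_lift B2.continuous_mk _

theorem isQuotientMap_qmap : IsQuotientMap (qmap : BM H X E → B2 H X E) := by
  refine IsQuotientMap.of_comp (f := (BM.mk : E × E × Conf2 H X → BM H X E))
    BM.continuous_mk continuous_qmap ?_
  exact isQuotientMap_quot_mk

/-- first coordinate -/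
def pr : BM H X E → E :=
  Quotient.lift (s := relM H X E) (fun a => a.1) (by
    rintro a b ⟨k, h1, h2, h3, h4⟩
    exact h1.symm)

theorem continuous_pr : Continuous (pr : BM H X E → E) :=
  Continuous.quotient_lift continuous_fst _

theorem pr_smul (h : H) (b : BM H X E) : pr (h • b) = h • pr b := by
  induction b using Quotient.inductionOn with
  | h a => rfl

theorem continuous_smulBM [ContinuousConstSMul H E] [ContinuousConstSMul H X] (h : H) :
    Continuous (fun b : BM H X E => h • b) := by
  have hc : Continuous (actL h : E × E × Conf2 H X → E × E × Conf2 H X) := by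
    unfold actL
    refine Continuous.prodMk (continuous_fst.const_smul h)
      (Continuous.prodMk (continuous_fst.comp continuous_snd) ?_)
    refine Continuous.subtype_mk (Continuous.prodMk ?_ ?_) _
    · exact (continuous_fst.comp (continuous_subtype_val.comp
        (continuous_snd.comp continuous_snd))).const_smul h
    · exact continuous_snd.comp (continuous_subtype_val.comp
        (continuous_snd.comp continuous_snd))
  exact Continuous.quotient_lift (BM.continuous_mk.comp hc) _

theorem isQuotientCoveringMap_qmap [ContinuousConstSMul H X] (hE : IsUniversal H E) :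
    IsQuotientCoveringMap (qmap : BM H X E → B2 H X E) H := by
  have := hE.continuous_smul
  exact
    { isQuotientMap_qmap with
      continuous_const_smul := continuous_smulBM
      apply_eq_iff_mem_orbit := by
        intro a b
        induction a using Quotient.inductionOn with
        | h a =>
          induction b using Quotient.inductionOn with
          | h b =>
            constructor
            · intro h0
              obtain ⟨h, k, h1, h2, h3, h4⟩ := Quotient.exact h0
              refine ⟨h, ?_⟩
              exact Quotient.sound ⟨k⁻¹, h1.symm, by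
                rw [inv_smul_eq_iff]; exact h2.symm, h3.symm, by
                rw [inv_smul_eq_iff]; exact h4.symm⟩
            · rintro ⟨h, h0⟩
              obtain ⟨k, h1, h2, h3, h4⟩ := Quotient.exact h0
              refine Quotient.sound ⟨h, k⁻¹, h1.symm, by
                rw [inv_smul_eq_iff]; exact h2.symm, h3.symm, by
                rw [inv_smul_eq_iff]; exact h4.symm⟩
      disjoint := by
        intro b
        obtain ⟨U, hU, hd⟩ := hE.disjoint (pr b)
        refine ⟨pr ⁻¹' U, continuous_pr.continuousAt.preimage_mem_nhds hU, ?_⟩
        intro h hh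
        apply hd h
        obtain ⟨c, ⟨c', hc', hcc⟩, hc⟩ := hh
        refine ⟨pr c, ⟨pr c', hc', ?_⟩, hc⟩
        simp only at hcc ⊢
        rw [← pr_smul, hcc] }

/-- The inclusion of a fibre into the intermediate quotient. -/
def inclM (e₀ : E) (y : X) : C(BF H X E y, BM H X E) where
  toFun := Quotient.lift (s := relF H X E y)
    (fun a => BM.mk (e₀, a.1, (⟨(y, a.2.1), a.2.2⟩ : Conf2 H X))) (by
      rintro a b ⟨h, h1, h2⟩
      exact Quotient.sound ⟨h, rfl, h1, rfl, h2⟩)
  continuous_toFun := by
    refine Continuous.quotient_lift ?_ _
    refine BM.continuous_mk.comp ?_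
    refine continuous_const.prodMk (continuous_fst.prodMk ?_)
    exact Continuous.subtype_mk
      (continuous_const.prodMk (continuous_subtype_val.comp continuous_snd)) _

theorem qmap_inclM (e₀ : E) (y : X) (b : BF H X E y) :
    qmap (inclM e₀ y b) = incl H X E e₀ y b := by
  induction b using Quotient.inductionOn with
  | h a => rfl

end Cov

end Pool.Agent.R780.OrbConf
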