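import Mathlib

/-!
Borel constructions (classifying spaces of translation groupoids) for the configuration orbifolds
`PB_1(M) = M`, `PB_2(M)` of a global quotient orbifold `M = X/H`, the map forgetting the second
point, and the inclusion of a fibre.

Throughout, `H` is a (discrete) group acting on the space `X`, and `E` is a model for `EH`: a
contractible space with an action of `H` such that every point has a neighbourhood whose
translates are pairwise disjoint.  For a group `K` acting on a space `Y`, the classifying space of
the translation groupoid of the action is (homotopy equivalent to) the orbit space of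
`EK × Y` under the diagonal action of `K`, and `E × E` is a model for `E(H × H)`.
-/

open Topology

namespace Pool.Agent.R780.OrbConf

/-- `E` is a model of the universal space `EH`: it is contractible, `H` acts by homeomorphisms, and
every point has a neighbourhood `U` with `hU ∩ U = ∅` for all `h ≠ 1`. -/
structure IsUniversal (H E : Type) [Group H] [TopologicalSpace E] [MulAction H E] : Prop where
  contractible : ContractibleSpace E
  continuous_smul : ContinuousConstSMul H E
  disjoint : ∀ e : E, ∃ U ∈ 𝓝 e, ∀ h : H, ((h • ·) '' U ∩ U).Nonempty → h = 1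

section Defs

variable (H X E : Type) [Group H] [MulAction H X] [MulAction H E]
  [TopologicalSpace X] [TopologicalSpace E]

/-- The manifold of pairs of points of `X` in different `H`-orbits.  It is the object space of
`PB_2(X/H)`, and `PB_2(X/H)` is its quotient by `H × H`. -/
def Conf2 : Type := {p : X × X // ∀ h : H, h • p.1 ≠ p.2}

instance : TopologicalSpace (Conf2 H X) := inferInstanceAs (TopologicalSpace (Subtype _))

/-- The set of points of `X` outside the orbit of `y`.  It is the object space of the fibre
`F_y = M ∖ {y}` of `PB_2(M) → M`, and `F_y` is its quotient by `H`. -/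
def FibY (y : X) : Type := {w : X // ∀ h : H, h • y ≠ w}

instance (y : X) : TopologicalSpace (FibY H X y) := inferInstanceAs (TopologicalSpace (Subtype _))

/-- The orbit equivalence relation of the diagonal action of `H` on `E × X`. -/
def rel1 : Setoid (E × X) where
  r a b := ∃ h : H, h • b.1 = a.1 ∧ h • b.2 = a.2
  iseqv :=
    { refl := fun a => ⟨1, one_smul _ _, one_smul _ _⟩
      symm := by
        rintro a b ⟨h, h1, h2⟩
        exact ⟨h⁻¹, by rw [← h1, inv_smul_smul], by rw [← h2, inv_smul_smul]⟩
      trans := by
        rintro a b c ⟨h, h1, h2⟩ ⟨k, k1, k2⟩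
        exact ⟨h * k, by rw [mul_smul, k1, h1], by rw [mul_smul, k2, h2]⟩ }

/-- The orbit equivalence relation of the action of `H × H` on `(E × E) × Conf2`, where
`(h, k)` acts by `(e, e', (z, w)) ↦ (h e, k e', (h z, k w))`. -/
def rel2 : Setoid (E × E × Conf2 H X) where
  r a b := ∃ h k : H, h • b.1 = a.1 ∧ k • b.2.1 = a.2.1 ∧ h • b.2.2.1.1 = a.2.2.1.1 ∧
    k • b.2.2.1.2 = a.2.2.1.2
  iseqv :=
    { refl := fun a => ⟨1, 1, one_smul _ _, one_smul _ _, one_smul _ _, one_smul _ _⟩
      symm := by
        rintro a b ⟨h, k, h1, h2, h3, h4⟩
        exact ⟨h⁻¹, k⁻¹, by rw [← h1, inv_smul_smul], by rw [← h2, inv_smul_smul],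
          by rw [← h3, inv_smul_smul], by rw [← h4, inv_smul_smul]⟩
      trans := by
        rintro a b c ⟨h, k, h1, h2, h3, h4⟩ ⟨h', k', h1', h2', h3', h4'⟩
        exact ⟨h * h', k * k', by rw [mul_smul, h1', h1], by rw [mul_smul, h2', h2],
          by rw [mul_smul, h3', h3], by rw [mul_smul, h4', h4]⟩ }

/-- The orbit equivalence relation of the diagonal action of `H` on `E × F̃_y`. -/
def relF (y : X) : Setoid (E × FibY H X y) where
  r a b := ∃ h : H, h • b.1 = a.1 ∧ h • b.2.1 = a.2.1
  iseqv :=
    { refl := fun a => ⟨1, one_smul _ _, one_smul _ _⟩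
      symm := by
        rintro a b ⟨h, h1, h2⟩
        exact ⟨h⁻¹, by rw [← h1, inv_smul_smul], by rw [← h2, inv_smul_smul]⟩
      trans := by
        rintro a b c ⟨h, h1, h2⟩ ⟨k, k1, k2⟩
        exact ⟨h * k, by rw [mul_smul, k1, h1], by rw [mul_smul, k2, h2]⟩ }

/-- The classifying space `(E × X)/H` of the orbifold `PB_1(M) = M = X/H`. -/
def B1 : Type := Quotient (rel1 H X E)

instance : TopologicalSpace (B1 H X E) := inferInstanceAs (TopologicalSpace (Quotient _))

/-- The classifying space `(E × E × Conf2)/(H × H)` of the orbifold `PB_2(M)`, `M = X/H`. -/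
def B2 : Type := Quotient (rel2 H X E)

instance : TopologicalSpace (B2 H X E) := inferInstanceAs (TopologicalSpace (Quotient _))

/-- The classifying space `(E × F̃_y)/H` of the fibre orbifold `F_y = M ∖ {y}`. -/
def BF (y : X) : Type := Quotient (relF H X E y)

instance (y : X) : TopologicalSpace (BF H X E y) := inferInstanceAs (TopologicalSpace (Quotient _))

variable {H X E} in
/-- The point of the classifying space of the fibre given by a point of `E × F̃_y`. -/
def BF.mk {y : X} (a : E × FibY H X y) : BF H X E y := Quotient.mk (relF H X E y) a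

/-- The map `f(M) : PB_2(M) → PB_1(M) = M` forgetting the last point, on classifying spaces:
`[e, e', (z, w)] ↦ [e, z]`. -/
def forget : C(B2 H X E, B1 H X E) where
  toFun := Quotient.lift (s := rel2 H X E)
    (fun a => (Quotient.mk (rel1 H X E) (a.1, a.2.2.1.1) : B1 H X E)) (by
      rintro a b ⟨h, k, h1, h2, h3, h4⟩
      exact Quotient.sound ⟨h, h1, h3⟩)
  continuous_toFun := by
    refine Continuous.quotient_lift ?_ _
    refine continuous_quot_mk.comp ?_
    exact continuous_fst.prodMk
      (continuous_fst.comp (continuous_subtype_val.comp (continuous_snd.comp continuous_snd)))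

/-- The inclusion of the fibre `F_y` over the point `y` into `PB_2(M)`, on classifying spaces:
`[e, w] ↦ [e₀, e, (y, w)]`. -/
def incl (e₀ : E) (y : X) : C(BF H X E y, B2 H X E) where
  toFun := Quotient.lift (s := relF H X E y)
    (fun a => (Quotient.mk (rel2 H X E) (e₀, a.1, (⟨(y, a.2.1), a.2.2⟩ : Conf2 H X)) :
      B2 H X E)) (by
      rintro a b ⟨h, h1, h2⟩
      exact Quotient.sound ⟨1, h, one_smul _ _, h1, one_smul _ _, h2⟩)
  continuous_toFun := by
    refine Continuous.quotient_lift ?_ _
    refine continuous_quot_mk.comp ?_
    refine continuous_const.prodMk (continuous_fst.prodMk ?_)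
    exact Continuous.subtype_mk
      (continuous_const.prodMk (continuous_subtype_val.comp continuous_snd)) _

end Defs

end Pool.Agent.R780.OrbConf
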