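import Pool.Agent.R780.OrbConfCov

/-!
The reflector orbifold `ℂ / conj`: the sequence
`π₁^orb(F_y) → π₁^orb(PB_2(M)) → π₁^orb(PB_1(M))` is not exact in the middle.
-/

open Topology unitInterval

namespace Pool.Agent.R780.OrbConf

/-- The Galois group of `ℂ` over `ℝ`, which consists of the identity and complex conjugation. -/
abbrev Gal : Type := ℂ ≃ₐ[ℝ] ℂ

theorem gal_cases (s : Gal) (z : ℂ) : s • z = z ∨ s • z = (starRingEnd ℂ) z := by
  rcases Complex.real_algHom_eq_id_or_conj (s : ℂ →ₐ[ℝ] ℂ) with h | h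
  · left
    exact congrArg (fun f : ℂ →ₐ[ℝ] ℂ => f z) h
  · right
    exact congrArg (fun f : ℂ →ₐ[ℝ] ℂ => f z) h

theorem gal_re (s : Gal) (z : ℂ) : (s • z).re = z.re := by
  rcases gal_cases s z with h | h
  · rw [h]
  · rw [h, Complex.conj_re]

theorem gal_im (s : Gal) (z : ℂ) : |(s • z).im| = |z.im| := by
  rcases gal_cases s z with h | h
  · rw [h]
  · rw [h, Complex.conj_im, abs_neg]

/-- Points off the real axis are smooth. -/
theorem gal_smooth (z : ℂ) (hz : z.im ≠ 0) (h : Gal) (hh : h • z = z) : h = 1 := by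
  rcases Complex.real_algHom_eq_id_or_conj (h : ℂ →ₐ[ℝ] ℂ) with h1 | h1
  · exact AlgEquiv.coe_algHom_injective h1
  · exfalso
    apply hz
    have h2 : h • z = (starRingEnd ℂ) z := congrArg (fun f : ℂ →ₐ[ℝ] ℂ => f z) h1
    rw [hh] at h2
    have h3 := congrArg Complex.im h2
    rw [Complex.conj_im] at h3
    linarith

instance : ContinuousConstSMul Gal ℂ where
  continuous_const_smul s :=
    LinearMap.continuous_of_finiteDimensional (s : ℂ →ₐ[ℝ] ℂ).toLinearMap

/-- the punctured plane mapped to the circle -/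
noncomputable def toCirc (z : {z : ℂ // z ≠ 0}) : Circle :=
  ⟨z.1 / ‖z.1‖, by
    apply mem_sphere_zero_iff_norm.mpr
    rw [norm_div, Complex.norm_real, norm_norm, div_self (norm_ne_zero_iff.mpr z.2)]⟩

theorem continuous_toCirc : Continuous toCirc := by
  refine Continuous.subtype_mk ?_ _
  refine Continuous.div continuous_subtype_val ?_ ?_
  · exact Complex.continuous_ofReal.comp (continuous_norm.comp continuous_subtype_val)
  · intro z
    exact_mod_cast norm_ne_zero_iff.mpr z.2

/-- the invariant function on pairs -/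
noncomputable def gfun (p : ℂ × ℂ) : ℂ := ((p.2.re - p.1.re : ℝ) : ℂ) + ((p.1.im + |p.2.im| : ℝ) : ℂ) * Complex.I

theorem gfun_re (p : ℂ × ℂ) : (gfun p).re = p.2.re - p.1.re := by
  simp [gfun]

theorem gfun_im (p : ℂ × ℂ) : (gfun p).im = p.1.im + |p.2.im| := by
  simp [gfun]

theorem continuous_gfun : Continuous gfun := by
  unfold gfun
  fun_prop

theorem gfun_ne (c : Conf2 Gal ℂ) : gfun c.1 ≠ 0 := by
  intro h0
  have h1 := congrArg Complex.re h0
  have h2 := congrArg Complex.im h0
  rw [gfun_re, Complex.zero_re] at h1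
  rw [gfun_im, Complex.zero_im] at h2
  rcases abs_cases c.1.2.im with h | h
  · apply c.2 Complex.conjAe
    change (starRingEnd ℂ) c.1.1 = c.1.2
    apply Complex.ext
    · rw [Complex.conj_re]; linarith
    · rw [Complex.conj_im]; linarith
  · apply c.2 1
    rw [one_smul]
    apply Complex.ext <;> linarith

variable {E : Type} [TopologicalSpace E] [MulAction Gal E]

/-- The circle-valued invariant on the intermediate quotient. -/
noncomputable def GC : C(BM Gal ℂ E, Circle) where
  toFun := Quotient.lift (s := relM Gal ℂ E) (fun a => toCirc ⟨gfun a.2.2.1, gfun_ne a.2.2⟩) (by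
    rintro a b ⟨k, h1, h2, h3, h4⟩
    congr 2
    apply Complex.ext
    · rw [gfun_re, gfun_re, ← h3, ← h4, gal_re]
    · rw [gfun_im, gfun_im, ← h3, ← h4, gal_im])
  continuous_toFun := by
    refine Continuous.quotient_lift ?_ _
    refine continuous_toCirc.comp (Continuous.subtype_mk ?_ _)
    exact continuous_gfun.comp (continuous_subtype_val.comp
      (continuous_snd.comp continuous_snd))

/-- The open upper half plane. -/
abbrev HP : Type := {z : ℂ // 0 < z.im}

instance : ContractibleSpace HP := by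
  have hc : Convex ℝ {z : ℂ | 0 < z.im} := by
    exact convex_halfSpace_im_gt 0
  exact hc.contractibleSpace ⟨Complex.I, by simp⟩

theorem HP.ne (z : HP) : (z : ℂ) ≠ 0 := by
  intro h
  have := z.2
  rw [h] at this
  simp at this

/-- the half plane to the circle -/
noncomputable def NC : C(HP, Circle) where
  toFun z := toCirc ⟨z.1, z.ne⟩
  continuous_toFun := continuous_toCirc.comp (Continuous.subtype_mk continuous_subtype_val _)

/-- the fibre to the half plane -/
noncomputable def KH (y : ℂ) (hy : 0 < y.im) : C(BF Gal ℂ E y, HP) where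
  toFun := Quotient.lift (s := relF Gal ℂ E y)
    (fun a => (⟨gfun (y, a.2.1), by
      rw [gfun_im]
      exact add_pos_of_pos_of_nonneg hy (abs_nonneg _)⟩ : HP)) (by
    rintro a b ⟨k, h1, h2⟩
    apply Subtype.ext
    apply Complex.ext
    · rw [gfun_re, gfun_re]
      simp only
      rw [← h2, gal_re]
    · rw [gfun_im, gfun_im]
      simp only
      rw [← h2, gal_im])
  continuous_toFun := by
    refine Continuous.quotient_lift ?_ _
    refine Continuous.subtype_mk ?_ _
    exact continuous_gfun.comp (continuous_const.prodMk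
      (continuous_subtype_val.comp continuous_snd))

theorem GC_inclM (e₀ : E) (y : ℂ) (hy : 0 < y.im) (b : BF Gal ℂ E y) :
    GC (inclM e₀ y b) = NC (KH y hy b) := by
  induction b using Quotient.inductionOn with
  | h a => rfl

/-- The moving point. -/
noncomputable def zpt (t : ℝ) : ℂ :=
  ((4 * Real.sin t : ℝ) : ℂ) + ((4 * Real.cos t - 1 : ℝ) : ℂ) * Complex.I

theorem zpt_re (t : ℝ) : (zpt t).re = 4 * Real.sin t := by
  simp only [zpt, Complex.add_re, Complex.ofReal_re, Complex.re_ofReal_mul, Complex.I_re,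
    mul_zero, add_zero]

theorem zpt_im (t : ℝ) : (zpt t).im = 4 * Real.cos t - 1 := by
  simp only [zpt, Complex.add_im, Complex.ofReal_im, Complex.im_ofReal_mul, Complex.I_im,
    mul_one, zero_add]

theorem zpt_ne (t : ℝ) (h : Gal) : h • zpt t ≠ Complex.I := by
  intro h0
  have h1 : (zpt t).re = 0 := by rw [← gal_re h, h0, Complex.I_re]
  have h2 : |(zpt t).im| = 1 := by rw [← gal_im h, h0, Complex.I_im, abs_one]
  rw [zpt_re] at h1
  rw [zpt_im] at h2
  have h3 := Real.sin_sq_add_cos_sq t
  have h4 : Real.sin t = 0 := by linarith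
  rw [h4] at h3
  rcases abs_cases (4 * Real.cos t - 1) with h5 | h5
  · have : Real.cos t = 1 / 2 := by linarith
    rw [this] at h3
    norm_num at h3
  · have : Real.cos t = 0 := by linarith
    rw [this] at h3
    norm_num at h3

theorem continuous_zpt : Continuous zpt := by
  unfold zpt
  fun_prop

/-- the point of the configuration space -/
noncomputable def cpt (t : ℝ) : Conf2 Gal ℂ := ⟨(zpt t, Complex.I), zpt_ne t⟩

theorem continuous_cpt : Continuous cpt :=
  Continuous.subtype_mk (continuous_zpt.prodMk continuous_const) _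

theorem zpt_zero : zpt 0 = 3 * Complex.I := by
  apply Complex.ext
  · rw [zpt_re]; simp
  · rw [zpt_im]; simp; norm_num

theorem zpt_two_pi : zpt (2 * Real.pi) = 3 * Complex.I := by
  apply Complex.ext
  · rw [zpt_re]; simp
  · rw [zpt_im]; simp; norm_num

theorem GC_loop (e₀ e : E) (t : ℝ) :
    GC (BM.mk (e₀, e, cpt t)) = Circle.exp (Real.pi / 2 + t) := by
  have h1 : gfun (cpt t).1 = 4 * Circle.exp (Real.pi / 2 + t) := by
    apply Complex.ext
    · rw [gfun_re]
      change Complex.I.re - (zpt t).re = _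
      rw [zpt_re, Circle.coe_exp, Complex.mul_re]
      have : (Complex.exp (((Real.pi / 2 + t : ℝ) : ℂ) * Complex.I)).re = - Real.sin t := by
        rw [Complex.exp_ofReal_mul_I_re, add_comm, Real.cos_add_pi_div_two]
      rw [this]
      simp
    · rw [gfun_im]
      change (zpt t).im + |Complex.I.im| = _
      rw [zpt_im, Circle.coe_exp, Complex.mul_im]
      have : (Complex.exp (((Real.pi / 2 + t : ℝ) : ℂ) * Complex.I)).im = Real.cos t := by
        rw [Complex.exp_ofReal_mul_I_im, add_comm, Real.sin_add_pi_div_two]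
      rw [this]
      simp
  change toCirc ⟨gfun (cpt t).1, gfun_ne (cpt t)⟩ = _
  apply Circle.ext
  change gfun (cpt t).1 / ‖gfun (cpt t).1‖ = _
  rw [h1, norm_mul, Circle.norm_coe]
  simp

/-- The circle loop `t ↦ exp (π/2 + 2πt)` is not homotopic to a constant. -/
theorem circle_loop_not_null (f : C(I, Circle))
    (hf : ∀ t : I, f t = Circle.exp (Real.pi / 2 + 2 * Real.pi * t)) (c : C(I, Circle))
    (hc : ∀ t : I, c t = Circle.exp (Real.pi / 2)) : ¬ c.HomotopicRel f {0, 1} := by
  intro h
  have cov := Circle.isCoveringMap_exp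
  have h0 : c 0 = Circle.exp (Real.pi / 2) := hc 0
  have h1 : f 0 = Circle.exp (Real.pi / 2) := by rw [hf]; simp
  have h2 := cov.liftPath_apply_one_eq_of_homotopicRel h (Real.pi / 2) h0 h1
  have h3 : (⟨fun _ => Real.pi / 2, continuous_const⟩ : C(I, ℝ)) =
      cov.liftPath c (Real.pi / 2) h0 := by
    rw [cov.eq_liftPath_iff']
    exact ⟨funext fun t => (hc t).symm, rfl⟩
  have h4 : (⟨fun t => Real.pi / 2 + 2 * Real.pi * t, by fun_prop⟩ : C(I, ℝ)) =
      cov.liftPath f (Real.pi / 2) h1 := by
    rw [cov.eq_liftPath_iff']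
    exact ⟨funext fun t => (hf t).symm, by simp⟩
  rw [← h3, ← h4] at h2
  simp at h2

section Final

variable (e₀ e : E)

/-- the loop in the total space -/
noncomputable def bigLoop : C(I, E × E × Conf2 Gal ℂ) where
  toFun t := (e₀, e, cpt (2 * Real.pi * t))
  continuous_toFun := by
    refine continuous_const.prodMk (continuous_const.prodMk ?_)
    exact continuous_cpt.comp (by fun_prop)

/-- the base point of the fibre -/
noncomputable def xpt : FibY Gal ℂ (3 * Complex.I) := ⟨Complex.I, by
  intro h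
  have := zpt_ne 0 h
  rwa [zpt_zero] at this⟩

theorem cpt_zero : cpt 0 = ⟨(3 * Complex.I, xpt.1), xpt.2⟩ :=
  Subtype.ext (Prod.ext zpt_zero rfl)

theorem cpt_two_pi : cpt (2 * Real.pi) = ⟨(3 * Complex.I, xpt.1), xpt.2⟩ :=
  Subtype.ext (Prod.ext zpt_two_pi rfl)

/-- The loop in `B PB_2(M)`. -/
noncomputable def theLoop : Path (incl Gal ℂ E e₀ (3 * Complex.I) (BF.mk (e, xpt)))
    (incl Gal ℂ E e₀ (3 * Complex.I) (BF.mk (e, xpt))) where
  toFun t := B2.mk (bigLoop e₀ e t)
  continuous_toFun := B2.continuous_mk.comp (bigLoop e₀ e).continuous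
  source' := by
    change B2.mk (e₀, e, cpt (2 * Real.pi * ((0 : I) : ℝ))) = B2.mk (e₀, e, _)
    rw [Set.Icc.coe_zero, mul_zero, cpt_zero]
  target' := by
    change B2.mk (e₀, e, cpt (2 * Real.pi * ((1 : I) : ℝ))) = B2.mk (e₀, e, _)
    rw [Set.Icc.coe_one, mul_one, cpt_two_pi]

theorem theLoop_not_mem (hE : IsUniversal Gal E)
    (d : Path (BF.mk (e, xpt) : BF Gal ℂ E (3 * Complex.I)) (BF.mk (e, xpt)))
    (hd : Path.Homotopic (d.map (incl Gal ℂ E e₀ (3 * Complex.I)).continuous)
      (theLoop e₀ e)) : False := by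
  have cov := (isQuotientCoveringMap_qmap (X := ℂ) hE).isCoveringMap
  set d' : C(I, BM Gal ℂ E) := (inclM e₀ (3 * Complex.I)).comp d.toContinuousMap with hd'
  set l' : C(I, BM Gal ℂ E) := ⟨fun t => BM.mk (bigLoop e₀ e t),
    BM.continuous_mk.comp (bigLoop e₀ e).continuous⟩ with hl'
  have h1 : (ContinuousMap.comp ⟨qmap, cov.continuous⟩ d').HomotopicRel
      (.comp ⟨qmap, cov.continuous⟩ l') {0, 1} := by
    have e1 : (ContinuousMap.comp ⟨qmap, cov.continuous⟩ d') =
        (d.map (incl Gal ℂ E e₀ (3 * Complex.I)).continuous).toContinuousMap := by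
      ext t
      exact qmap_inclM _ _ _
    have e2 : (ContinuousMap.comp ⟨qmap, cov.continuous⟩ l') =
        (theLoop e₀ e).toContinuousMap := by
      ext t
      rfl
    rw [e1, e2]
    exact hd
  have h2 : d'.HomotopicRel l' {0, 1} := by
    refine (cov.homotopicRel_iff_comp ⟨0, .inl rfl, ?_⟩).mpr h1
    change inclM e₀ (3 * Complex.I) (d 0) = BM.mk (e₀, e, cpt (2 * Real.pi * ((0 : I) : ℝ)))
    rw [d.source, Set.Icc.coe_zero, mul_zero, cpt_zero]
    rfl
  have h3 := h2.comp_continuousMap GC
  have hy : 0 < (3 * Complex.I).im := by simp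
  have h4 : Path.Homotopic (d.map (KH (3 * Complex.I) hy).continuous) (Path.refl _) :=
    SimplyConnectedSpace.paths_homotopic _ _
  have h5 := ContinuousMap.HomotopicRel.comp_continuousMap h4 NC
  have e3 : GC.comp d' = NC.comp (d.map (KH (3 * Complex.I) hy).continuous).toContinuousMap := by
    ext t
    exact congrArg _ (GC_inclM e₀ _ hy (d t))
  rw [e3] at h3
  refine circle_loop_not_null _ ?_ _ ?_ (h5.symm.trans h3)
  · intro t
    exact GC_loop e₀ e _
  · intro t
    change NC (KH (3 * Complex.I) hy (BF.mk (e, xpt))) = _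
    have := GC_inclM e₀ _ hy (BF.mk (e, xpt))
    rw [← this]
    have h6 := GC_loop e₀ e 0
    rw [add_zero, cpt_zero] at h6
    exact h6

theorem theLoop_mem_ker (hE : IsUniversal Gal E) :
    Path.Homotopic ((theLoop e₀ e).map (forget Gal ℂ E).continuous) (Path.refl _) := by
  have := hE.contractible
  let p : Path ((e₀, 3 * Complex.I) : E × ℂ) (e₀, 3 * Complex.I) :=
    { toFun := fun t => (e₀, zpt (2 * Real.pi * t))
      continuous_toFun := continuous_const.prodMk (continuous_zpt.comp (by fun_prop))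
      source' := by simp [zpt_zero]
      target' := by simp [zpt_two_pi] }
  have h : Path.Homotopic p (Path.refl _) := SimplyConnectedSpace.paths_homotopic _ _
  have h' := h.map ⟨(B1.mk : E × ℂ → B1 Gal ℂ E), B1.continuous_mk⟩
  exact h'

/-- The failure of exactness in the middle. -/
theorem not_exact (hE : IsUniversal Gal E) :
    (FundamentalGroup.map (incl Gal ℂ E e₀ (3 * Complex.I)) (BF.mk (e, xpt))).range ≠
      (FundamentalGroup.map (forget Gal ℂ E)
        (incl Gal ℂ E e₀ (3 * Complex.I) (BF.mk (e, xpt)))).ker := by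
  intro h
  have h1 : (FundamentalGroup.fromPath (Path.Homotopic.Quotient.mk (theLoop e₀ e))) ∈
      (FundamentalGroup.map (forget Gal ℂ E)
        (incl Gal ℂ E e₀ (3 * Complex.I) (BF.mk (e, xpt)))).ker := by
    rw [MonoidHom.mem_ker]
    exact Path.Homotopic.Quotient.eq.mpr (theLoop_mem_ker e₀ e hE)
  rw [← h] at h1
  obtain ⟨d, hd⟩ := h1
  obtain ⟨d, rfl⟩ := Path.Homotopic.Quotient.mk_surjective d
  exact theLoop_not_mem e₀ e hE d (Path.Homotopic.Quotient.eq.mp hd)

end Final

end Pool.Agent.R780.OrbConf
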