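import Mathlib
import Pool.Agent.R497.TB.Defs
import Pool.Agent.R506.TDTOP

/-! Project TB (helper497), piece BTOP by helper780 (after `R506/TDTOP.lean`): the factor of highest degree
decouples, averages over boxes. -/

set_option autoImplicit false

namespace Pool.Agent.R780.TB

open MeasureTheory Filter Finset
open Pool.Agent.R497.TB
open Pool.Agent.R497.TD (NiceG)
open Pool.Agent.Y957.MC (IsFlow flowInv smo box bavg)
open Pool.Agent.R506.TDTOP (exists_version condExp_re_im)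

universe u

lemma norm_bavg_le {k : ℕ} (M : Fin k → ℕ) (h : (Fin k → ℕ) → ℂ) :
    ‖bavg M h‖ ≤ ravg M (fun m => ‖h m‖) := by
  unfold bavg ravg
  rw [norm_mul, norm_div, norm_one, Complex.norm_natCast]
  exact mul_le_mul_of_nonneg_left (norm_sum_le _ _) (by positivity)

lemma ravg_mono {k : ℕ} (M : Fin k → ℕ) {h h' : (Fin k → ℕ) → ℝ} (hh : ∀ m, h m ≤ h' m) :
    ravg M h ≤ ravg M h' := by
  unfold ravg
  exact mul_le_mul_of_nonneg_left (sum_le_sum fun m _ => hh m) (by positivity)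

lemma ravg_mul {k : ℕ} (M : Fin k → ℕ) (c : ℝ) (h : (Fin k → ℕ) → ℝ) :
    ravg M (fun m => c * h m) = c * ravg M h := by
  unfold ravg
  rw [← mul_sum]
  ring

lemma bavg_add {k : ℕ} (M : Fin k → ℕ) (h h' : (Fin k → ℕ) → ℂ) :
    bavg M (fun m => h m + h' m) = bavg M h + bavg M h' := by
  unfold bavg
  rw [sum_add_distrib, mul_add]

lemma bavg_mul {k : ℕ} (M : Fin k → ℕ) (c : ℂ) (h : (Fin k → ℕ) → ℂ) :
    bavg M (fun m => c * h m) = c * bavg M h := by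
  unfold bavg
  rw [← mul_sum]
  ring

/-- the approximation argument -/
lemma seq_lemma {k : ℕ} (B : (Fin k → ℕ) → ℂ) (v : (Fin k → ℕ) → ℝ) (D : ℝ) (hv : ∀ m, |v m| ≤ D)
    (hD : 0 ≤ D)
    (H : ∀ ε : ℝ, 0 < ε → ∃ (Bl : (Fin k → ℕ) → ℂ) (C : ℝ), 0 ≤ C ∧ (∀ m, ‖Bl m‖ ≤ C) ∧
      (∀ᶠ M in atTop, ravg M (fun m => ‖B m - Bl m‖) ≤ ε) ∧
      ∀ δ : ℝ, 0 < δ → ∃ w : (Fin k → ℕ) → ℝ,
        Tendsto (fun M => bavg M fun m => Bl m * (w m : ℂ)) atTop (nhds 0) ∧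
        ∀ᶠ M in atTop, ravg M (fun m => |v m - w m|) ≤ δ) :
    Tendsto (fun M => bavg M fun m => B m * (v m : ℂ)) atTop (nhds 0) := by
  rw [NormedAddGroup.tendsto_nhds_zero]
  intro ε hε
  obtain ⟨Bl, C, hC0, hC, h1, h2⟩ := H (ε / (3 * (D + 1))) (by positivity)
  obtain ⟨w, hw1, hw2⟩ := h2 (ε / (3 * (C + 1))) (by positivity)
  rw [NormedAddGroup.tendsto_nhds_zero] at hw1
  filter_upwards [h1, hw2, hw1 (ε / 3) (by positivity)] with M hN1 hN2 hN3
  have e : (bavg M fun m => B m * (v m : ℂ)) =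
      (bavg M fun m => (B m - Bl m) * (v m : ℂ)) + (bavg M fun m => Bl m * (w m : ℂ)) +
      (bavg M fun m => Bl m * ((v m - w m : ℝ) : ℂ)) := by
    rw [← bavg_add, ← bavg_add]
    congr 1
    funext m
    push_cast
    ring
  have b1 : ‖bavg M fun m => (B m - Bl m) * (v m : ℂ)‖ ≤ D * ravg M (fun m => ‖B m - Bl m‖) := by
    refine (norm_bavg_le _ _).trans ?_
    rw [← ravg_mul]
    refine ravg_mono M fun m => ?_
    rw [norm_mul, Complex.norm_real, Real.norm_eq_abs, mul_comm]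
    exact mul_le_mul_of_nonneg_right (hv m) (norm_nonneg _)
  have b2 : ‖bavg M fun m => Bl m * ((v m - w m : ℝ) : ℂ)‖ ≤ C * ravg M (fun m => |v m - w m|) := by
    refine (norm_bavg_le _ _).trans ?_
    rw [← ravg_mul]
    refine ravg_mono M fun m => ?_
    rw [norm_mul, Complex.norm_real, Real.norm_eq_abs]
    exact mul_le_mul_of_nonneg_right (hC m) (abs_nonneg _)
  have key : ∀ K : ℝ, 0 ≤ K → K * (ε / (3 * (K + 1))) ≤ ε / 3 := by
    intro K hK
    rw [mul_div_assoc', div_le_div_iff₀ (by positivity) (by norm_num)]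
    nlinarith
  have c1 : D * ravg M (fun m => ‖B m - Bl m‖) ≤ ε / 3 :=
    (mul_le_mul_of_nonneg_left hN1 hD).trans (key D hD)
  have c2 : C * ravg M (fun m => |v m - w m|) ≤ ε / 3 :=
    (mul_le_mul_of_nonneg_left hN2 hC0).trans (key C hC0)
  rw [e]
  calc _ ≤ _ := norm_add₃_le
    _ < ε := by linarith

/-- the real case -/
lemma top_real (h1 : S_BCORER.{u}) (h2 : S_BCTRL.{u}) (h3 : S_APXU.{u}) {X : Type u} [MeasurableSpace X]
    {μ : Measure X} [IsProbabilityMeasure μ] {σ : ℝ → X → X} {g : X → ℝ} {k d : ℕ} {p : Fin k → Polynomial ℝ}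
    {B : (Fin k → ℕ) → ℝ → X → ℂ} (hk : 0 < k) (hσ : IsFlow μ σ) (hg : Measurable g)
    (hgb : ∃ C, ∀ x, |g x| ≤ C) (hP : SD p d)
    (hB : GoodWb μ d B) : ∀ᵐ a : ℝ, ∀ᵐ x ∂μ,
      Tendsto (fun M => bavg M fun m => B m a x *
        (((g (σ (a * sep p m) x) - (μ[g | flowInv σ]) x : ℝ)) : ℂ)) atTop (nhds 0) := by
  obtain ⟨gb, gk, hgbm, ⟨Cb, hCb⟩, hinv, heq, ⟨Ck, hCk⟩, hnice, hap⟩ := h3 X μ σ g hσ hg hgb
  obtain ⟨Cg, hCg⟩ := hgb
  obtain ⟨-, Bl, hBl, hBapp⟩ := hB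
  obtain ⟨K, hK0, hK⟩ := h2 k d p hk hP
  have hne : Nonempty X := nonempty_of_isProbabilityMeasure μ
  obtain ⟨x0⟩ := hne
  have hCg0 : 0 ≤ Cg := (abs_nonneg _).trans (hCg x0)
  have hCb0 : 0 ≤ Cb := (abs_nonneg _).trans (hCb x0)
  have hCk0 : 0 ≤ Ck := (abs_nonneg _).trans (hCk 0 x0)
  obtain ⟨D, hD⟩ : ∃ D : ℝ, D = Cg + Cb + Ck + 1 := ⟨_, rfl⟩
  have hD0 : 0 < D := by rw [hD]; linarith
  have hbd : ∀ j x, |g x - gb x - gk j x| ≤ D := by
    intro j x
    rw [hD]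
    have := (abs_sub (g x - gb x) (gk j x)).trans (add_le_add ((abs_sub (g x) (gb x)).trans
      (add_le_add (hCg x) (hCb x))) (hCk j x))
    linarith
  have hme : ∀ j, Measurable fun x => D⁻¹ * |g x - gb x - gk j x| := fun j =>
    measurable_const.mul ((hg.sub hgbm).sub (hnice j).1).norm
  have hint : ∀ j, Integrable (fun x => |g x - gb x - gk j x|) μ := fun j =>
    Integrable.of_bound ((hg.sub hgbm).sub (hnice j).1).norm.aestronglyMeasurable D
      (ae_of_all _ fun x => by rw [Real.norm_eq_abs, abs_abs]; exact hbd j x)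
  have a1 : ∀ᵐ a : ℝ, ∀ j l, ∀ᵐ x ∂μ, Tendsto (fun M => bavg M fun m =>
      Bl l m a x * (gk j (σ (a * sep p m) x) : ℂ)) atTop (nhds 0) := by
    rw [ae_all_iff]
    intro j
    rw [ae_all_iff]
    intro l
    exact h1 X μ σ (gk j) k d p (Bl l) hk hσ (hnice j) hP (hBl l)
  have a2 : ∀ᵐ a : ℝ, ∀ j, ∀ᵐ x ∂μ, ∀ ε : ℝ, 0 < ε → ∀ᶠ M in atTop,
      ravg M (fun m => D⁻¹ * |g (σ (a * sep p m) x) - gb (σ (a * sep p m) x) -
        gk j (σ (a * sep p m) x)|) ≤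
      ε + K ε * (μ[fun y => D⁻¹ * |g y - gb y - gk j y| | flowInv σ]) x := by
    rw [ae_all_iff]
    intro j
    refine hK X μ σ (fun y => D⁻¹ * |g y - gb y - gk j y|) hσ (hme j) (fun x => ⟨by positivity, ?_⟩)
    rw [inv_mul_le_iff₀ hD0, mul_one]
    exact hbd j x
  filter_upwards [a1, a2, hBapp] with a ha1 ha2 ha3
  have b1 : ∀ᵐ x ∂μ, ∀ j l, Tendsto (fun M => bavg M fun m =>
      Bl l m a x * (gk j (σ (a * sep p m) x) : ℂ)) atTop (nhds 0) := by
    rw [ae_all_iff]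
    intro j
    rw [ae_all_iff]
    intro l
    exact ha1 j l
  have b2 := ae_all_iff.2 ha2
  have b3 : ∀ᵐ x ∂μ, ∀ j, (μ[fun y => D⁻¹ * |g y - gb y - gk j y| | flowInv σ]) x =
      D⁻¹ * (μ[fun y => |g y - gb y - gk j y| | flowInv σ]) x := by
    rw [ae_all_iff]
    intro j
    have := condExp_smul (μ := μ) (D⁻¹) (fun y => |g y - gb y - gk j y|) (flowInv σ)
    filter_upwards [this] with x hx
    exact hx
  filter_upwards [b1, b2, ha3, heq, hap, b3] with x hx1 hx2 hx3 hx4 hx5 hx6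
  refine seq_lemma (fun m => B m a x) (fun m => g (σ (a * sep p m) x) - (μ[g | flowInv σ]) x)
    (Cg + |(μ[g | flowInv σ]) x|) (fun m => (abs_sub _ _).trans (by linarith [hCg (σ (a * sep p m) x)]))
    (by positivity) fun ε hε => ?_
  obtain ⟨l, hl⟩ := hx3 ε hε
  obtain ⟨-, Cl, hCl, -⟩ := hBl l
  refine ⟨fun m => Bl l m a x, Cl, (norm_nonneg _).trans (hCl 0 a x), fun m => hCl m a x, hl,
    fun δ hδ => ?_⟩
  obtain ⟨ε', hε'⟩ : ∃ ε' : ℝ, ε' = δ / (2 * D) := ⟨_, rfl⟩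
  have hε'0 : 0 < ε' := by rw [hε']; positivity
  have hKp := hK0 ε'
  obtain ⟨j, hj⟩ := hx5 (δ / (2 * K ε')) (by positivity)
  refine ⟨fun m => gk j (σ (a * sep p m) x), hx1 j l, ?_⟩
  filter_upwards [hx2 j ε' hε'0] with M hM
  rw [hx6 j, ravg_mul] at hM
  have e1 : K ε' * (D⁻¹ * (μ[fun y => |g y - gb y - gk j y| | flowInv σ]) x) ≤ δ / (2 * D) := by
    have h5 : K ε' * (D⁻¹ * (μ[fun y => |g y - gb y - gk j y| | flowInv σ]) x) ≤
        K ε' * (D⁻¹ * (δ / (2 * K ε'))) := by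
      refine mul_le_mul_of_nonneg_left (mul_le_mul_of_nonneg_left hj.le (by positivity)) hKp.le
    refine h5.trans (le_of_eq ?_)
    field_simp
  have e2 : D⁻¹ * ravg M (fun m => |g (σ (a * sep p m) x) - gb (σ (a * sep p m) x) -
        gk j (σ (a * sep p m) x)|) ≤ δ / D := by
    refine hM.trans ?_
    rw [hε'] at *
    have : δ / D = δ / (2 * D) + δ / (2 * D) := by field_simp; ring
    linarith
  have e3 : ravg M (fun m => |g (σ (a * sep p m) x) - gb (σ (a * sep p m) x) -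
        gk j (σ (a * sep p m) x)|) ≤ δ := by
    rw [inv_mul_le_iff₀ hD0] at e2
    refine e2.trans (le_of_eq ?_)
    field_simp
  refine le_trans (le_of_eq ?_) e3
  congr 1
  funext m
  rw [hinv, hx4]

theorem t_BTOP (hR : S_BCORER.{u}) (hC : S_BCTRL.{u}) (hA : S_APXU.{u}) : S_BTOP.{u} := by
  intro X _ μ _ σ g k d p B hk hσ hg hgb hP hB
  obtain ⟨f, hfm, ⟨C, hC'⟩, hgf⟩ := exists_version hg hgb
  have hint : Integrable f μ := Integrable.of_bound hfm.aestronglyMeasurable C (ae_of_all _ hC')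
  have r1 := top_real hR hC hA (g := fun y => (f y).re) hk hσ (Complex.measurable_re.comp hfm)
    ⟨C, fun x => (Complex.abs_re_le_norm _).trans (hC' x)⟩ hP hB
  have r2 := top_real hR hC hA (g := fun y => (f y).im) hk hσ (Complex.measurable_im.comp hfm)
    ⟨C, fun x => (Complex.abs_im_le_norm _).trans (hC' x)⟩ hP hB
  have c1 := condExp_re_im (m := flowInv σ) hint
  have c2 : μ[g | flowInv σ] =ᵐ[μ] μ[f | flowInv σ] := condExp_congr_ae hgf
  filter_upwards [r1, r2] with a ha1 ha2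
  have h5 : ∀ᵐ x ∂μ, ∀ m : Fin k → ℕ, g (σ (a * sep p m) x) = f (σ (a * sep p m) x) := by
    rw [ae_all_iff]
    intro m
    exact (hσ.mp _).quasiMeasurePreserving.ae hgf
  filter_upwards [ha1, ha2, c1, c2, h5] with x hx1 hx2 hx3 hx4 hx5
  have h6 := hx1.add (hx2.const_mul Complex.I)
  rw [mul_zero, add_zero] at h6
  refine h6.congr fun M => ?_
  rw [← bavg_mul, ← bavg_add]
  congr 1
  funext m
  rw [hx5 m, hx4, hx3]
  have e : f (σ (a * sep p m) x) = (((f (σ (a * sep p m) x)).re : ℝ) : ℂ) +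
      Complex.I * (((f (σ (a * sep p m) x)).im : ℝ) : ℂ) := by
    rw [mul_comm Complex.I]
    exact (Complex.re_add_im _).symm
  conv_rhs => rw [e]
  push_cast
  ring

end Pool.Agent.R780.TB
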