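import Pool.Agent.R780.TCDefs

/-!
Basic facts on `E_nG`: the covering `E_nG → B_nG`.
-/

open unitInterval Topology

namespace Pool.Agent.R780.TCB

section

variable {G : Type} [Group G] {n : ℕ}

theorem EnG.smul_apply (h : G) (x : EnG G n) (i : Fin (n + 1)) (g : G) :
    (h • x).1 i g = x.1 i (h⁻¹ * g) := rfl

theorem EnG.exists_pos (x : EnG G n) : ∃ i g, 0 < x.1 i g := by
  by_contra h
  push Not at h
  have h0 : ∀ i g, x.1 i g = 0 := fun i g => le_antisymm (h i g) (x.2.1 i g)
  have h1 := x.2.2.2
  simp [h0] at h1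

theorem EnG.continuous_apply (i : Fin (n + 1)) (g : G) :
    Continuous (fun x : EnG G n => x.1 i g) :=
  (continuous_apply_apply i g).comp continuous_subtype_val

instance : ContinuousConstSMul G (EnG G n) where
  continuous_const_smul h := by
    refine Continuous.subtype_mk ?_ _
    exact continuous_pi fun i => continuous_pi fun g => EnG.continuous_apply i _

theorem EnG.smul_inj (h k : G) (x : EnG G n) (hx : h • x = k • x) : h = k := by
  obtain ⟨i, g, hg⟩ := x.exists_pos
  have h1 := congrFun (congrFun (congrArg Subtype.val hx) i) (h * g)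
  rw [EnG.smul_apply, EnG.smul_apply, inv_mul_cancel_left] at h1
  have h2 : x.1 i (k⁻¹ * (h * g)) ≠ 0 := by
    rw [← h1]
    exact hg.ne'
  have h3 := x.2.2.1 i _ _ hg.ne' h2
  have h4 : k⁻¹ * h = 1 := by
    have : (k⁻¹ * h) * g = 1 * g := by rw [one_mul, mul_assoc, ← h3]
    exact mul_right_cancel this
  rw [inv_mul_eq_one] at h4
  exact h4.symm

/-- The projection `E_nG → B_nG`. -/
def proj : EnG G n → BnG G n := Quotient.mk (MulAction.orbitRel G (EnG G n))

theorem continuous_proj : Continuous (proj : EnG G n → BnG G n) := continuous_quot_mk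

theorem isQuotientCoveringMap_proj : IsQuotientCoveringMap (proj : EnG G n → BnG G n) G :=
  { (isQuotientMap_quot_mk : IsQuotientMap (proj : EnG G n → BnG G n)) with
    continuous_const_smul := continuous_const_smul
    apply_eq_iff_mem_orbit := fun {e₁ e₂} => Quotient.eq (r := MulAction.orbitRel G (EnG G n))
    disjoint := by
      intro x
      obtain ⟨i, g, hg⟩ := x.exists_pos
      refine ⟨{y | 0 < y.1 i g}, (isOpen_lt continuous_const
        (EnG.continuous_apply i g)).mem_nhds hg, ?_⟩
      rintro h ⟨y, ⟨z, hz, rfl⟩, hy⟩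
      have hz' : 0 < z.1 i g := hz
      have hy' : 0 < z.1 i (h⁻¹ * g) := hy
      have h1 := z.2.2.1 i _ _ hz'.ne' hy'.ne'
      have h2 : h⁻¹ = 1 := by
        have : h⁻¹ * g = 1 * g := by rw [one_mul, ← h1]
        exact mul_right_cancel this
      rwa [inv_eq_one] at h2 }

theorem proj_smul (h : G) (x : EnG G n) : proj (h • x) = proj x :=
  isQuotientCoveringMap_proj.map_smul h

theorem proj_eq_iff (x y : EnG G n) : proj x = proj y ↔ ∃ h : G, h • y = x :=
  isQuotientCoveringMap_proj.apply_eq_iff_mem_orbit

theorem proj_surjective : Function.Surjective (proj : EnG G n → BnG G n) :=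
  isQuotientCoveringMap_proj.surjective

end

end Pool.Agent.R780.TCB
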