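import Pool.Agent.R780.V4Coh

/-!
Milnor's spaces `E_nG`, `B_nG`, topological complexity and the growth function.
-/

open unitInterval

namespace Pool.Agent.R780.TCB

/-- Milnor's `E_nG = G * ... * G`, the `(n+1)`-fold join of the discrete set `G`.  A point of the
join is given by barycentric coordinates `t₀, ..., t_n ≥ 0` with `∑ t_i = 1` together with an
element `g_i` of `G` for every `i` with `t_i > 0`.  It is encoded by the function `x` with
`x i g = t_i` if `g = g_i` and `x i g = 0` otherwise; the topology is that of pointwise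
convergence of `x`. -/
def EnG (G : Type) (n : ℕ) : Type :=
  {x : Fin (n + 1) → G → ℝ // (∀ i g, 0 ≤ x i g) ∧
    (∀ i g h, x i g ≠ 0 → x i h ≠ 0 → g = h) ∧ ∑ i, ∑ᶠ g, x i g = 1}

instance (G : Type) (n : ℕ) : TopologicalSpace (EnG G n) :=
  inferInstanceAs (TopologicalSpace (Subtype _))

/-- The diagonal action of `G` on `E_nG`: `h` sends `(t_i, g_i)` to `(t_i, h g_i)`. -/
instance (G : Type) [Group G] (n : ℕ) : MulAction G (EnG G n) where
  smul h x := ⟨fun i g => x.1 i (h⁻¹ * g), fun i g => x.2.1 i _, fun i g k h1 h2 =>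
    mul_left_cancel (x.2.2.1 i _ _ h1 h2), by
      refine Eq.trans ?_ x.2.2.2
      refine Finset.sum_congr rfl fun i _ => ?_
      exact finsum_comp_equiv (Equiv.mulLeft h⁻¹) (f := fun g => x.1 i g)⟩
  one_smul x := by
    apply Subtype.ext
    funext i g
    change x.1 i (1⁻¹ * g) = _
    rw [inv_one, one_mul]
  mul_smul h k x := by
    apply Subtype.ext
    funext i g
    change x.1 i ((h * k)⁻¹ * g) = x.1 i (k⁻¹ * (h⁻¹ * g))
    rw [mul_inv_rev, mul_assoc]

/-- `B_nG = E_nG / G`. -/
def BnG (G : Type) [Group G] (n : ℕ) : Type := Quotient (MulAction.orbitRel G (EnG G n))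

instance (G : Type) [Group G] (n : ℕ) : TopologicalSpace (BnG G n) :=
  inferInstanceAs (TopologicalSpace (Quotient _))

/-- `X × X` is covered by `k + 1` open sets, each admitting a continuous section of the path
fibration `X^{[0,1]} → X × X`. -/
def TCle (X : Type) [TopologicalSpace X] (k : ℕ) : Prop :=
  ∃ U : Fin (k + 1) → Set (X × X), (∀ j, IsOpen (U j)) ∧ (∀ p, ∃ j, p ∈ U j) ∧
    ∀ j, ∃ s : C(U j, C(I, X)), ∀ p : U j, s p 0 = p.1.1 ∧ s p 1 = p.1.2

/-- Farber's (reduced) topological complexity of `X`: the least `k` with `TCle X k`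
(`∞` if there is none). -/
noncomputable def TC (X : Type) [TopologicalSpace X] : ℕ∞ := ⨅ (k : ℕ) (_ : TCle X k), (k : ℕ∞)

/-- The growth function `α_G(n) = |{k ≥ 1 : TC(B_kG) ≤ n}|`. -/
noncomputable def alpha (G : Type) [Group G] (n : ℕ) : ℕ :=
  Set.ncard {k : ℕ | 1 ≤ k ∧ TC (BnG G k) ≤ n}

end Pool.Agent.R780.TCB
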