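import Pool.Agent.R780.TCBasic

/-!
Motion planners on `B_nG` give locally constant functions with values in `G`.
-/

open unitInterval Topology

set_option linter.unusedSectionVars false

namespace Pool.Agent.R780.TCB

variable {G : Type} [Group G] {n : ℕ}

theorem smul_pos_unique (c d : G) (y : EnG G n) (i : Fin (n + 1)) (g : G)
    (h1 : 0 < y.1 i g) (h2 : 0 < (c • y).1 i (d * g)) : c = d := by
  have h2' : 0 < y.1 i (c⁻¹ * (d * g)) := h2
  have h3 := y.2.2.1 i _ _ h1.ne' h2'.ne'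
  have h4 : c⁻¹ * d = 1 := by
    have : (c⁻¹ * d) * g = 1 * g := by rw [one_mul, mul_assoc, ← h3]
    exact mul_right_cancel this
  rwa [inv_mul_eq_one] at h4

theorem lift_unique (Γ Γ' : C(I, EnG G n)) (h0 : Γ 0 = Γ' 0)
    (h : ∀ t, proj (Γ t) = proj (Γ' t)) : Γ = Γ' := by
  have := isQuotientCoveringMap_proj.isCoveringMap.eq_of_comp_eq Γ.continuous Γ'.continuous
    (funext h) 0 h0
  exact ContinuousMap.ext (congrFun this)

variable {T : Type} [TopologicalSpace T] (φ ψ : C(T, EnG G n))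

/-- the induced map to the product -/
def PhiM : C(T, BnG G n × BnG G n) :=
  ⟨fun p => (proj (φ p), proj (ψ p)), (continuous_proj.comp φ.continuous).prodMk
    (continuous_proj.comp ψ.continuous)⟩

/-- `Γ` is the lift of the planned path, ending at `c • ψ p`. -/
def IsLift (U : Set (BnG G n × BnG G n)) (s : C(U, C(I, BnG G n))) (p : T)
    (hp : PhiM φ ψ p ∈ U) (Γ : C(I, EnG G n)) (c : G) : Prop :=
  Γ 0 = φ p ∧ (∀ t, proj (Γ t) = s ⟨PhiM φ ψ p, hp⟩ t) ∧ Γ 1 = c • ψ p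

theorem IsLift.unique {U : Set (BnG G n × BnG G n)} {s : C(U, C(I, BnG G n))} {p : T}
    {hp : PhiM φ ψ p ∈ U} {Γ Γ' : C(I, EnG G n)} {c c' : G} (h : IsLift φ ψ U s p hp Γ c)
    (h' : IsLift φ ψ U s p hp Γ' c') : c = c' := by
  have h1 : Γ = Γ' := lift_unique Γ Γ' (h.1.trans h'.1.symm)
    (fun t => (h.2.1 t).trans (h'.2.1 t).symm)
  apply EnG.smul_inj c c' (ψ p)
  rw [← h.2.2, ← h'.2.2, h1]

theorem exists_lift (U : Set (BnG G n × BnG G n)) (hU : IsOpen U) (s : C(U, C(I, BnG G n)))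
    (hs : ∀ p : U, s p 0 = p.1.1 ∧ s p 1 = p.1.2) :
    ∃ c : T → G, (∀ p (hp : PhiM φ ψ p ∈ U), ∃ Γ : C(I, EnG G n), IsLift φ ψ U s p hp Γ (c p)) ∧
      ∀ p, PhiM φ ψ p ∈ U → ∀ᶠ q in 𝓝 p, c q = c p := by
  classical
  let Om : Set T := {p | PhiM φ ψ p ∈ U}
  have hOm : IsOpen Om := hU.preimage (PhiM φ ψ).continuous
  have cov := (isQuotientCoveringMap_proj (G := G) (n := n)).isCoveringMap
  let ι : C(Om, U) := ⟨fun p => ⟨PhiM φ ψ p.1, p.2⟩,
    Continuous.subtype_mk ((PhiM φ ψ).continuous.comp continuous_subtype_val) _⟩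
  let H : C(I × Om, BnG G n) :=
    ⟨fun tp => s (ι tp.2) tp.1, by
      have h1 : Continuous (fun tp : I × Om => (s (ι tp.2), tp.1)) :=
        ((s.continuous.comp ι.continuous).comp continuous_snd).prodMk continuous_fst
      exact (continuous_eval.comp h1)⟩
  let f : C(Om, EnG G n) := φ.comp ⟨Subtype.val, continuous_subtype_val⟩
  have H0 : ∀ a : Om, H (0, a) = proj (f a) := fun a => (hs (ι a)).1
  let L := cov.liftHomotopy H f H0
  have hL : ∀ t a, proj (L (t, a)) = H (t, a) := fun t a =>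
    congrFun (cov.liftHomotopy_lifts H f H0) (t, a)
  have hL0 : ∀ a, L (0, a) = f a := fun a => cov.liftHomotopy_zero H f H0 a
  have hend : ∀ a : Om, ∃ c : G, c • ψ a.1 = L (1, a) := by
    intro a
    rw [← proj_eq_iff, hL]
    exact (hs (ι a)).2
  choose d hd using hend
  let c : T → G := fun p => if hp : p ∈ Om then d ⟨p, hp⟩ else 1
  have hc : ∀ p (hp : p ∈ Om), c p = d ⟨p, hp⟩ := fun p hp => dif_pos hp
  refine ⟨c, ?_, ?_⟩
  · intro p hp
    refine ⟨⟨fun t => L (t, ⟨p, hp⟩), L.continuous.comp (by fun_prop)⟩, hL0 _, fun t => hL t _, ?_⟩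
    rw [hc p hp]
    exact (hd ⟨p, hp⟩).symm
  · intro p hp
    have hp' : p ∈ Om := hp
    obtain ⟨i, g, hg⟩ := (ψ p).exists_pos
    have e1 : ∀ᶠ q in 𝓝 p, 0 < (ψ q).1 i g :=
      ((EnG.continuous_apply i g).comp ψ.continuous).continuousAt.eventually
        (lt_mem_nhds hg)
    have e2 : ∀ᶠ q : Om in 𝓝 ⟨p, hp'⟩, 0 < (L (1, q)).1 i (d ⟨p, hp'⟩ * g) := by
      have hcont : Continuous (fun q : Om => (L (1, q)).1 i (d ⟨p, hp'⟩ * g)) :=
        (EnG.continuous_apply i _).comp (L.continuous.comp (by fun_prop))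
      refine hcont.continuousAt.eventually (lt_mem_nhds ?_)
      change 0 < (L (1, ⟨p, hp'⟩)).1 i (d ⟨p, hp'⟩ * g)
      rw [← hd ⟨p, hp'⟩, EnG.smul_apply, inv_mul_cancel_left]
      exact hg
    have e3 : ∀ᶠ q in 𝓝 p, ∀ hq : q ∈ Om, 0 < (L (1, ⟨q, hq⟩)).1 i (d ⟨p, hp'⟩ * g) := by
      rw [nhds_subtype_eq_comap, Filter.eventually_comap] at e2
      filter_upwards [e2] with q hq hq'
      exact hq ⟨q, hq'⟩ rfl
    filter_upwards [e1, e3, hOm.mem_nhds hp'] with q h1 h2 h3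
    rw [hc q h3, hc p hp']
    refine smul_pos_unique _ _ (ψ q) i g h1 ?_
    rw [hd ⟨q, h3⟩]
    exact h2 h3

end Pool.Agent.R780.TCB
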