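import Pool.Agent.R780.TCLift
import Pool.Agent.Helper133.BUProd

/-!
The lower bound `TC(B_n(Z/2 × Z/2)) ≥ 2n`.
-/

open unitInterval Topology

set_option linter.unusedSectionVars false

namespace Pool.Agent.R780.TCB

open Pool.Agent.Helper133.BU (K)
open Pool.Agent.Helper133.BT (Om PP flp sgn)

/-- second generator -/
def gB : V4 := (1, -1)

theorem gA_ne : gA ≠ 1 := by decide
theorem gB_ne : gB ≠ 1 := by decide
theorem gA_sq : gA * gA = 1 := by decide
theorem gB_sq : gB * gB = 1 := by decide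

/-- The point of the join attached to a point of the cross polytope. -/
noncomputable def phi0 (c : V4) {n : ℕ} (v : Fin (n + 1) → ℝ) : Fin (n + 1) → V4 → ℝ :=
  fun i g => if g = 1 then max (v i) 0 else if g = c then max (-v i) 0 else 0

theorem phi0_mem (c : V4) (hc : c ≠ 1) {n : ℕ} (v : Fin (n + 1) → ℝ) (hv : v ∈ K n) :
    (∀ i g, 0 ≤ phi0 c v i g) ∧ (∀ i g h, phi0 c v i g ≠ 0 → phi0 c v i h ≠ 0 → g = h) ∧
      ∑ i, ∑ᶠ g, phi0 c v i g = 1 := by
  refine ⟨?_, ?_, ?_⟩
  · intro i g
    unfold phi0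
    split_ifs
    · exact le_max_right _ _
    · exact le_max_right _ _
    · exact le_rfl
  · intro i g h h1 h2
    unfold phi0 at h1 h2
    split_ifs at h1 h2 with a b c' d e
    · rw [a, b]
    · exfalso
      rcases le_total (v i) 0 with h | h
      · exact h1 (max_eq_right h)
      · exact h2 (max_eq_right (by linarith))
    · exact absurd rfl h2
    · exfalso
      rcases le_total (v i) 0 with h | h
      · exact h2 (max_eq_right h)
      · exact h1 (max_eq_right (by linarith))
    · rw [d, ‹h = c›]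
    · exact absurd rfl h2
    all_goals exact absurd rfl h1
  · have hv' : ∑ i, |v i| = 1 := hv
    rw [← hv']
    refine Finset.sum_congr rfl fun i _ => ?_
    rw [finsum_eq_sum_of_fintype]
    have h1 : ∀ g ∈ (Finset.univ : Finset V4), g ∉ ({1, c} : Finset V4) → phi0 c v i g = 0 := by
      intro g _ hg
      simp only [Finset.mem_insert, Finset.mem_singleton, not_or] at hg
      unfold phi0
      rw [if_neg hg.1, if_neg hg.2]
    rw [← Finset.sum_subset (Finset.subset_univ ({1, c} : Finset V4)) h1,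
      Finset.sum_pair (Ne.symm hc)]
    unfold phi0
    rw [if_pos rfl, if_neg hc, if_pos rfl]
    rcases le_total (v i) 0 with h | h
    · rw [max_eq_right h, max_eq_left (by linarith), abs_of_nonpos h, zero_add]
    · rw [max_eq_left h, max_eq_right (by linarith), abs_of_nonneg h, add_zero]

/-- the map from the cross polytope to `E_nG` -/
noncomputable def phi (c : V4) (hc : c ≠ 1) (n : ℕ) : C(K n, EnG V4 n) where
  toFun v := ⟨phi0 c v.1, phi0_mem c hc v.1 v.2⟩
  continuous_toFun := by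
    refine Continuous.subtype_mk ?_ _
    refine continuous_pi fun i => continuous_pi fun g => ?_
    have hv : Continuous (fun v : K n => v.1 i) := (continuous_apply i).comp continuous_subtype_val
    unfold phi0
    split_ifs
    · exact hv.max continuous_const
    · exact hv.neg.max continuous_const
    · exact continuous_const

theorem K_neg {n : ℕ} {v : Fin (n + 1) → ℝ} (hv : v ∈ K n) : -v ∈ K n :=
  Pool.Agent.Helper133.BT.K_neg n hv

theorem phi_neg (c : V4) (hc : c ≠ 1) (hcc : c * c = 1) (n : ℕ) (v : K n) :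
    phi c hc n ⟨-v.1, K_neg v.2⟩ = c • phi c hc n v := by
  have hci : c⁻¹ = c := inv_eq_of_mul_eq_one_left hcc
  apply Subtype.ext
  funext i g
  rw [EnG.smul_apply, hci]
  change phi0 c (-v.1) i g = phi0 c v.1 i (c * g)
  unfold phi0
  by_cases h1 : g = 1
  · subst h1
    rw [if_pos rfl, mul_one, if_neg hc, if_pos rfl]
    rfl
  · by_cases h2 : g = c
    · subst h2
      rw [if_neg hc, if_pos rfl, hcc, if_pos rfl]
      simp
    · rw [if_neg h1, if_neg h2, if_neg, if_neg]
      · intro h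
        apply h1
        calc g = c⁻¹ * (c * g) := by group
          _ = 1 := by rw [h, inv_mul_cancel]
      · intro h
        apply h2
        calc g = c⁻¹ * (c * g) := by group
          _ = c := by rw [h, mul_one, hci]

/-- the product of two cross polytopes -/
abbrev TT (n : ℕ) : Type := K n × K n

/-- flip of the first factor -/
def flipA {n : ℕ} (p : TT n) : TT n := (⟨-p.1.1, K_neg p.1.2⟩, p.2)

/-- flip of the second factor -/
def flipB {n : ℕ} (p : TT n) : TT n := (p.1, ⟨-p.2.1, K_neg p.2.2⟩)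

/-- first map -/
noncomputable def fst' (n : ℕ) : C(TT n, EnG V4 n) := (phi gA gA_ne n).comp ⟨Prod.fst, continuous_fst⟩

/-- second map -/
noncomputable def snd' (n : ℕ) : C(TT n, EnG V4 n) := (phi gB gB_ne n).comp ⟨Prod.snd, continuous_snd⟩

theorem fst'_flipA {n : ℕ} (p : TT n) : fst' n (flipA p) = gA • fst' n p :=
  phi_neg gA gA_ne gA_sq n p.1
theorem fst'_flipB {n : ℕ} (p : TT n) : fst' n (flipB p) = fst' n p := rfl
theorem snd'_flipA {n : ℕ} (p : TT n) : snd' n (flipA p) = snd' n p := rfl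
theorem snd'_flipB {n : ℕ} (p : TT n) : snd' n (flipB p) = gB • snd' n p :=
  phi_neg gB gB_ne gB_sq n p.2

theorem Phi_flipA {n : ℕ} (p : TT n) : PhiM (fst' n) (snd' n) (flipA p) = PhiM (fst' n) (snd' n) p := by
  change (proj _, proj _) = (proj _, proj _)
  rw [fst'_flipA, snd'_flipA, proj_smul]

theorem Phi_flipB {n : ℕ} (p : TT n) : PhiM (fst' n) (snd' n) (flipB p) = PhiM (fst' n) (snd' n) p := by
  change (proj _, proj _) = (proj _, proj _)
  rw [fst'_flipB, snd'_flipB, proj_smul]

/-- Left translation as a continuous map. -/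
def smulC {n : ℕ} (c : V4) : C(EnG V4 n, EnG V4 n) := ⟨fun x => c • x, continuous_const_smul c⟩

theorem c_flipA {n : ℕ} (U : Set (BnG V4 n × BnG V4 n)) (s : C(U, C(I, BnG V4 n))) (c : TT n → V4)
    (hc : ∀ p (hp : PhiM (fst' n) (snd' n) p ∈ U), ∃ Γ : C(I, EnG V4 n),
      IsLift (fst' n) (snd' n) U s p hp Γ (c p)) (p : TT n)
    (hp : PhiM (fst' n) (snd' n) p ∈ U) : c (flipA p) = gA * c p := by
  have hp' : PhiM (fst' n) (snd' n) (flipA p) ∈ U := by rwa [Phi_flipA]
  obtain ⟨Γ, h⟩ := hc p hp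
  obtain ⟨Γ', h'⟩ := hc (flipA p) hp'
  refine IsLift.unique (fst' n) (snd' n) h' (Γ' := (smulC gA).comp Γ) ⟨?_, ?_, ?_⟩
  · change gA • Γ 0 = _
    rw [h.1, fst'_flipA]
  · intro t
    change proj (gA • Γ t) = _
    rw [proj_smul, h.2.1]
    congr 2
    exact Subtype.ext (Phi_flipA p).symm
  · change gA • Γ 1 = _
    rw [h.2.2, mul_smul, snd'_flipA]

theorem c_flipB {n : ℕ} (U : Set (BnG V4 n × BnG V4 n)) (s : C(U, C(I, BnG V4 n))) (c : TT n → V4)
    (hc : ∀ p (hp : PhiM (fst' n) (snd' n) p ∈ U), ∃ Γ : C(I, EnG V4 n),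
      IsLift (fst' n) (snd' n) U s p hp Γ (c p)) (p : TT n)
    (hp : PhiM (fst' n) (snd' n) p ∈ U) : c (flipB p) = c p * gB := by
  have hp' : PhiM (fst' n) (snd' n) (flipB p) ∈ U := by rwa [Phi_flipB]
  obtain ⟨Γ, h⟩ := hc p hp
  obtain ⟨Γ', h'⟩ := hc (flipB p) hp'
  refine IsLift.unique (fst' n) (snd' n) h' (Γ' := Γ) ⟨?_, ?_, ?_⟩
  · rw [h.1, fst'_flipB]
  · intro t
    rw [h.2.1]
    congr 2
    exact Subtype.ext (Phi_flipB p).symm
  · rw [h.2.2, snd'_flipB, smul_smul, mul_assoc, gB_sq, mul_one]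

end Pool.Agent.R780.TCB
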