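import Pool.Agent.R780.TCLower

/-!
The lower bound `TC(B_n(Z/2 × Z/2)) ≥ 2n`, second part.
-/

open unitInterval Topology

set_option linter.unusedSectionVars false

namespace Pool.Agent.R780.TCB

open Pool.Agent.Helper133.BU (K)
open Pool.Agent.Helper133.BT (Om PP flp sgn)

theorem isometry_flipA {n : ℕ} : Isometry (flipA : TT n → TT n) := by
  refine Isometry.of_dist_eq fun p q => ?_
  rw [Prod.dist_eq, Prod.dist_eq]
  congr 1
  change dist (-p.1.1) (-q.1.1) = dist p.1.1 q.1.1
  exact dist_neg_neg _ _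

theorem isometry_flipB {n : ℕ} : Isometry (flipB : TT n → TT n) := by
  refine Isometry.of_dist_eq fun p q => ?_
  rw [Prod.dist_eq, Prod.dist_eq]
  congr 1
  change dist (-p.2.1) (-q.2.1) = dist p.2.1 q.2.1
  exact dist_neg_neg _ _

theorem flipA_flipA {n : ℕ} (p : TT n) : flipA (flipA p) = p := by
  refine Prod.ext (Subtype.ext ?_) rfl
  exact neg_neg _

theorem flipB_flipB {n : ℕ} (p : TT n) : flipB (flipB p) = p := by
  refine Prod.ext rfl (Subtype.ext ?_)
  exact neg_neg _

open Classical in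
/-- A weight function which is positive exactly on the open set `O`. -/
noncomputable def wt {n : ℕ} (O : Set (TT n)) (p : TT n) : ℝ :=
  if (Oᶜ).Nonempty then Metric.infDist p Oᶜ else 1

theorem wt_continuous {n : ℕ} (O : Set (TT n)) : Continuous (wt O) := by
  unfold wt
  split_ifs
  · exact Metric.continuous_infDist_pt _
  · exact continuous_const

theorem wt_nonneg {n : ℕ} (O : Set (TT n)) (p : TT n) : 0 ≤ wt O p := by
  unfold wt
  split_ifs
  · exact Metric.infDist_nonneg
  · norm_num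

theorem wt_pos {n : ℕ} {O : Set (TT n)} (hO : IsOpen O) {p : TT n} (hp : p ∈ O) : 0 < wt O p := by
  unfold wt
  split_ifs with h
  · exact (hO.isClosed_compl.notMem_iff_infDist_pos h).mp (fun hp' => hp' hp)
  · norm_num

theorem wt_zero {n : ℕ} {O : Set (TT n)} {p : TT n} (hp : p ∉ O) : wt O p = 0 := by
  unfold wt
  rw [if_pos ⟨p, hp⟩]
  exact Metric.infDist_zero_of_mem hp

theorem wt_flip {n : ℕ} {O : Set (TT n)} (f : TT n → TT n) (hf : Isometry f)
    (hff : ∀ p, f (f p) = p) (hO : ∀ p, f p ∈ O ↔ p ∈ O) (p : TT n) : wt O (f p) = wt O p := by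
  unfold wt
  split_ifs
  · have h1 : f '' Oᶜ = Oᶜ := by
      ext q
      constructor
      · rintro ⟨r, hr, rfl⟩
        exact fun h => hr ((hO r).mp h)
      · intro hq
        exact ⟨f q, fun h => hq ((hO q).mp h), hff q⟩
    conv_lhs => rw [← h1]
    exact Metric.infDist_image hf
  · rfl

/-- sign of a unit as a real number -/
def sg (u : ℤˣ) : ℝ := ((u : ℤ) : ℝ)

theorem sg_abs (u : ℤˣ) : |sg u| = 1 := by
  rcases Int.units_eq_one_or u with h | h <;> subst h <;> simp [sg]

theorem sg_neg (u : ℤˣ) : sg (-1 * u) = - sg u := by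
  simp [sg]

theorem sg_ne (u : ℤˣ) : sg u ≠ 0 := by
  intro h
  have := sg_abs u
  rw [h] at this
  simp at this

/-- The data extracted from one motion planner. -/
theorem exists_FG {n : ℕ} (U : Set (BnG V4 n × BnG V4 n)) (hU : IsOpen U)
    (s : C(U, C(I, BnG V4 n))) (hs : ∀ p : U, s p 0 = p.1.1 ∧ s p 1 = p.1.2) :
    ∃ F F' : TT n → ℝ, Continuous F ∧ Continuous F' ∧
      (∀ p, F (flipA p) = - F p) ∧ (∀ p, F (flipB p) = F p) ∧
      (∀ p, F' (flipA p) = F' p) ∧ (∀ p, F' (flipB p) = - F' p) ∧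
      (∀ p, PhiM (fst' n) (snd' n) p ∈ U → F p ≠ 0 ∧ F' p ≠ 0) := by
  obtain ⟨c, hc, hloc⟩ := exists_lift (fst' n) (snd' n) U hU s hs
  let O : Set (TT n) := {p | PhiM (fst' n) (snd' n) p ∈ U}
  have hO : IsOpen O := hU.preimage (PhiM (fst' n) (snd' n)).continuous
  have hOA : ∀ p, flipA p ∈ O ↔ p ∈ O := fun p => by
    change PhiM _ _ _ ∈ U ↔ PhiM _ _ _ ∈ U
    rw [Phi_flipA]
  have hOB : ∀ p, flipB p ∈ O ↔ p ∈ O := fun p => by
    change PhiM _ _ _ ∈ U ↔ PhiM _ _ _ ∈ U
    rw [Phi_flipB]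
  have hwA : ∀ p, wt O (flipA p) = wt O p := wt_flip flipA isometry_flipA flipA_flipA hOA
  have hwB : ∀ p, wt O (flipB p) = wt O p := wt_flip flipB isometry_flipB flipB_flipB hOB
  have hcont : ∀ f : V4 → ℤˣ, Continuous (fun p => wt O p * sg (f (c p))) := by
    intro f
    rw [continuous_iff_continuousAt]
    intro p
    by_cases hp : p ∈ O
    · have h1 : (fun q => wt O q * sg (f (c p))) =ᶠ[𝓝 p] (fun q => wt O q * sg (f (c q))) := by
        filter_upwards [hloc p hp] with q hq
        rw [hq]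
      exact ((wt_continuous O).mul continuous_const).continuousAt.congr h1
    · have h0 : wt O p = 0 := wt_zero hp
      rw [ContinuousAt, h0, zero_mul]
      have h2 : Filter.Tendsto (wt O) (𝓝 p) (𝓝 0) := by
        have := (wt_continuous O).tendsto p
        rwa [h0] at this
      refine squeeze_zero_norm (a := wt O) ?_ h2
      intro q
      rw [Real.norm_eq_abs, abs_mul, sg_abs, mul_one, abs_of_nonneg (wt_nonneg O q)]
  refine ⟨fun p => wt O p * sg (c p).1, fun p => wt O p * sg (c p).2, hcont Prod.fst,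
    hcont Prod.snd, ?_, ?_, ?_, ?_, ?_⟩
  · intro p
    simp only
    by_cases hp : p ∈ O
    · rw [hwA, c_flipA U s c hc p hp]
      change wt O p * sg (-1 * (c p).1) = _
      rw [sg_neg, mul_neg]
    · rw [hwA, wt_zero hp]
      simp
  · intro p
    simp only
    by_cases hp : p ∈ O
    · rw [hwB, c_flipB U s c hc p hp]
      change wt O p * sg ((c p).1 * 1) = _
      rw [mul_one]
    · rw [hwB, wt_zero hp]
      simp
  · intro p
    simp only
    by_cases hp : p ∈ O
    · rw [hwA, c_flipA U s c hc p hp]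
      change wt O p * sg (1 * (c p).2) = _
      rw [one_mul]
    · rw [hwA, wt_zero hp]
      simp
  · intro p
    simp only
    by_cases hp : p ∈ O
    · rw [hwB, c_flipB U s c hc p hp]
      change wt O p * sg ((c p).2 * -1) = _
      rw [mul_comm (c p).2, sg_neg, mul_neg]
    · rw [hwB, wt_zero hp]
      simp
  · intro p hp
    have := wt_pos hO (p := p) hp
    exact ⟨mul_ne_zero this.ne' (sg_ne _), mul_ne_zero this.ne' (sg_ne _)⟩

open Classical in
/-- extension of a function from the product of cross polytopes -/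
noncomputable def ext' {n : ℕ} (F : TT n → ℝ) (v : Om (fun _ => n)) : ℝ :=
  if h : v 0 ∈ K n ∧ v 1 ∈ K n then F (⟨v 0, h.1⟩, ⟨v 1, h.2⟩) else 0

theorem ext'_of_mem {n : ℕ} (F : TT n → ℝ) (v : Om (fun _ => n)) (hv : v ∈ PP (fun _ => n)) :
    ext' F v = F (⟨v 0, hv 0⟩, ⟨v 1, hv 1⟩) := dif_pos ⟨hv 0, hv 1⟩

theorem ext'_continuousOn {n : ℕ} (F : TT n → ℝ) (hF : Continuous F) :
    ContinuousOn (ext' F) (PP (fun _ => n)) := by
  rw [continuousOn_iff_continuous_domRestrict]
  have h1 : (PP (fun _ => n)).domRestrict (ext' F) =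
      fun v => F (⟨v.1 0, v.2 0⟩, ⟨v.1 1, v.2 1⟩) := by
    funext v
    exact ext'_of_mem F v.1 v.2
  rw [h1]
  refine hF.comp (Continuous.prodMk ?_ ?_)
  · exact Continuous.subtype_mk ((continuous_apply 0).comp continuous_subtype_val) _
  · exact Continuous.subtype_mk ((continuous_apply 1).comp continuous_subtype_val) _

theorem ext'_flp0 {n : ℕ} (F : TT n → ℝ) (v : Om (fun _ => n)) (hv : v ∈ PP (fun _ => n)) :
    ext' F (flp (fun _ => n) 0 v) = F (flipA (⟨v 0, hv 0⟩, ⟨v 1, hv 1⟩)) := by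
  rw [ext'_of_mem F _ (Pool.Agent.Helper133.BT.flp_mem _ 0 hv)]
  congr 1

theorem ext'_flp1 {n : ℕ} (F : TT n → ℝ) (v : Om (fun _ => n)) (hv : v ∈ PP (fun _ => n)) :
    ext' F (flp (fun _ => n) 1 v) = F (flipB (⟨v 0, hv 0⟩, ⟨v 1, hv 1⟩)) := by
  rw [ext'_of_mem F _ (Pool.Agent.Helper133.BT.flp_mem _ 1 hv)]
  congr 1

theorem lower (n : ℕ) (hn : 1 ≤ n) (m : ℕ) (h : TCle (BnG V4 n) m) : 2 * n ≤ m := by
  by_contra hlt
  push Not at hlt
  obtain ⟨U, hUo, hUc, hUs⟩ := h
  choose s hs using hUs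
  have hFG := fun j => exists_FG (U j) (hUo j) (s j) (hs j)
  choose F F' hF hF' hFA hFB hFA' hFB' hne using hFG
  -- index the functions by natural numbers
  let f : ℕ → ℕ → Om (fun _ => n) → ℝ := fun i r =>
    if i = 0 then (if h : r < m + 1 then ext' (F ⟨r, h⟩) else 0)
    else (if h : n + r < m + 1 then ext' (F' ⟨n + r, h⟩) else 0)
  have hf : ∀ i r, ContinuousOn (f i r) (PP (fun _ => n)) := by
    intro i r
    simp only [f]
    split_ifs
    · exact ext'_continuousOn _ (hF _)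
    · exact continuousOn_const
    · exact ext'_continuousOn _ (hF' _)
    · exact continuousOn_const
  let p : ℕ → ℕ → ℕ → ZMod 2 := fun i _ k => if k = i then 1 else 0
  have hpar : ∀ i < 2, ∀ r < n, ∀ k < 2, ∀ v ∈ PP (fun _ => n),
      f i r (flp (fun _ => n) k v) = sgn (p i r k) * f i r v := by
    intro i hi r hr k hk v hv
    have s1 : sgn 1 = -1 := by simp [sgn]
    have s0 : sgn 0 = 1 := by simp [sgn]
    interval_cases i
    · by_cases hr' : r < m + 1
      · interval_cases k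
        · simp only [f, p, if_true, dif_pos hr']
          rw [ext'_flp0 _ v hv, hFA, ext'_of_mem _ v hv, s1, neg_one_mul]
        · simp only [f, p, if_true, dif_pos hr']
          rw [ext'_flp1 _ v hv, hFB, ext'_of_mem _ v hv, if_neg (by norm_num), s0, one_mul]
      · simp only [f, if_true, dif_neg hr']
        simp
    · by_cases hr' : n + r < m + 1
      · interval_cases k
        · simp only [f, p, if_neg (one_ne_zero : (1 : ℕ) ≠ 0), dif_pos hr']
          rw [ext'_flp0 _ v hv, hFA', ext'_of_mem _ v hv, if_neg (by norm_num), s0, one_mul]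
        · simp only [f, p, if_neg (one_ne_zero : (1 : ℕ) ≠ 0), if_true, dif_pos hr']
          rw [ext'_flp1 _ v hv, hFB', ext'_of_mem _ v hv, s1, neg_one_mul]
      · simp only [f, if_neg (one_ne_zero : (1 : ℕ) ≠ 0), dif_neg hr']
        simp
  obtain ⟨v, hv, hz⟩ := Pool.Agent.Helper133.BT.triangular (fun _ => n) (fun _ => hn) 2 p
    (fun i r => if_pos rfl) (fun i r k hik => if_neg hik.ne') f hf hpar
  obtain ⟨j, hj⟩ := hUc (PhiM (fst' n) (snd' n) (⟨v 0, hv 0⟩, ⟨v 1, hv 1⟩))
  have hj' := hne j _ hj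
  by_cases hjn : (j : ℕ) < n
  · have h1 := hz 0 (by norm_num) j hjn
    simp only [f, if_true, dif_pos j.2] at h1
    rw [ext'_of_mem _ v hv] at h1
    exact hj'.1 h1
  · have h2 : n + ((j : ℕ) - n) = j := by omega
    have h1 := hz 1 (by norm_num) (j - n) (by have := j.2; omega)
    have h3 : n + ((j : ℕ) - n) < m + 1 := by rw [h2]; exact j.2
    simp only [f, if_neg (one_ne_zero : (1 : ℕ) ≠ 0), dif_pos h3] at h1
    rw [ext'_of_mem _ v hv] at h1
    have h4 : (⟨n + ((j : ℕ) - n), h3⟩ : Fin (m + 1)) = j := Fin.ext h2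
    rw [h4] at h1
    exact hj'.2 h1

end Pool.Agent.R780.TCB
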