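import Pool.Agent.R780.TCUpper2
import Pool.Agent.R780.TCLower2

/-!
`TC(B_n(Z/2 × Z/2)) = 2n` and the growth function.
-/

namespace Pool.Agent.R780.TCB

theorem TC_le_of_TCle (X : Type) [TopologicalSpace X] (k : ℕ) (h : TCle X k) : TC X ≤ k :=
  iInf₂_le k h

theorem TC_V4 (k : ℕ) (hk : 1 ≤ k) : TC (BnG V4 k) = (2 * k : ℕ) := by
  apply le_antisymm
  · exact TC_le_of_TCle _ _ upper
  · refine le_iInf₂ fun m hm => ?_
    exact_mod_cast lower k hk m hm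

theorem alpha_set (n : ℕ) : {k : ℕ | 1 ≤ k ∧ TC (BnG V4 k) ≤ n} = Set.Icc 1 (n / 2) := by
  ext k
  constructor
  · rintro ⟨h1, h2⟩
    rw [TC_V4 k h1] at h2
    have h3 : 2 * k ≤ n := by exact_mod_cast h2
    exact ⟨h1, by omega⟩
  · rintro ⟨h1, h2⟩
    refine ⟨h1, ?_⟩
    rw [TC_V4 k h1]
    have h3 : 2 * k ≤ n := by omega
    exact_mod_cast h3

theorem alpha_V4 (n : ℕ) : alpha V4 n = n / 2 := by
  unfold alpha
  rw [alpha_set, Set.ncard_eq_toFinset_card']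
  simp

end Pool.Agent.R780.TCB
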