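import Pool.Agent.R780.TCBasic

/-!
The upper bound `TC(B_nG) ≤ 2n` for finite `G`.
-/

open unitInterval Topology

set_option linter.unusedSectionVars false

namespace Pool.Agent.R780.TCB

variable {G : Type} [Group G] [Fintype G] [DecidableEq G] {n : ℕ}

/-- barycentric coordinate -/
def tc (i : Fin (n + 1)) (x : EnG G n) : ℝ := ∑ g, x.1 i g

theorem tc_continuous (i : Fin (n + 1)) : Continuous (tc i : EnG G n → ℝ) :=
  continuous_finsetSum _ fun g _ => EnG.continuous_apply i g

theorem tc_smul (i : Fin (n + 1)) (h : G) (x : EnG G n) : tc i (h • x) = tc i x := by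
  unfold tc
  exact Fintype.sum_equiv (Equiv.mulLeft h⁻¹) _ _ (fun g => rfl)

theorem tc_nonneg (i : Fin (n + 1)) (x : EnG G n) : 0 ≤ tc i x :=
  Finset.sum_nonneg fun g _ => x.2.1 i g

theorem tc_sum (x : EnG G n) : ∑ i, tc i x = 1 := by
  rw [← x.2.2.2]
  refine Finset.sum_congr rfl fun i _ => ?_
  rw [finsum_eq_sum_of_fintype]
  rfl

theorem tc_eq (i : Fin (n + 1)) (x : EnG G n) (g : G) (h : x.1 i g ≠ 0) : tc i x = x.1 i g := by
  unfold tc
  refine Finset.sum_eq_single g ?_ (fun h => absurd (Finset.mem_univ g) h)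
  intro k _ hk
  by_contra h0
  exact hk (x.2.2.1 i _ _ h0 h)

theorem exists_of_tc_pos (i : Fin (n + 1)) (x : EnG G n) (h : 0 < tc i x) :
    ∃ g, x.1 i g ≠ 0 := by
  by_contra h0
  push Not at h0
  unfold tc at h
  simp [h0] at h

/-- barycentric coordinate on the quotient -/
def tB (i : Fin (n + 1)) : BnG G n → ℝ :=
  Quotient.lift (s := MulAction.orbitRel G (EnG G n)) (tc i) (by
    rintro x y ⟨h, rfl⟩
    exact tc_smul i h y)

theorem tB_proj (i : Fin (n + 1)) (x : EnG G n) : tB i (proj x) = tc i x := rfl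

theorem tB_continuous (i : Fin (n + 1)) : Continuous (tB i : BnG G n → ℝ) :=
  Continuous.quotient_lift (tc_continuous i) _

theorem tB_exists_pos (b : BnG G n) : ∃ i, 0 < tB i b := by
  obtain ⟨x, rfl⟩ := proj_surjective b
  by_contra h
  push Not at h
  have h1 := tc_sum x
  have h2 : ∀ i, tc i x = 0 := fun i => le_antisymm (h i) (tc_nonneg i x)
  simp [h2] at h1

/-- normalisation of the `i`-th group coordinate to `1` -/
noncomputable def nrm (i : Fin (n + 1)) (x : EnG G n) : Fin (n + 1) → G → ℝ :=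
  fun j h => (∑ g, x.1 i g * x.1 j (g * h)) / tc i x

theorem nrm_eq (i : Fin (n + 1)) (x : EnG G n) (g : G) (h : x.1 i g ≠ 0) :
    nrm i x = (g⁻¹ • x).1 := by
  funext j k
  rw [EnG.smul_apply, inv_inv]
  unfold nrm
  rw [tc_eq i x g h, Finset.sum_eq_single g]
  · field_simp
  · intro g' _ hg'
    have : x.1 i g' = 0 := by
      by_contra h0
      exact hg' (x.2.2.1 i _ _ h0 h)
    rw [this, zero_mul]
  · exact fun h => absurd (Finset.mem_univ g) h

theorem nrm_smul (i : Fin (n + 1)) (h : G) (x : EnG G n) : nrm i (h • x) = nrm i x := by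
  by_cases h0 : ∃ g, x.1 i g ≠ 0
  · obtain ⟨g, hg⟩ := h0
    have hg' : (h • x).1 i (h * g) ≠ 0 := by
      rw [EnG.smul_apply, inv_mul_cancel_left]
      exact hg
    rw [nrm_eq i x g hg, nrm_eq i (h • x) (h * g) hg', smul_smul]
    congr 3
    group
  · push Not at h0
    have h1 : tc i x = 0 := by
      unfold tc
      simp [h0]
    funext j k
    unfold nrm
    rw [tc_smul, h1, div_zero, div_zero]

theorem nrm_continuousAt (i : Fin (n + 1)) (x : EnG G n) (h : 0 < tc i x) :
    ContinuousAt (nrm i) x := by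
  refine continuousAt_pi.mpr fun j => continuousAt_pi.mpr fun k => ?_
  refine ContinuousAt.div ?_ (tc_continuous i).continuousAt h.ne'
  refine Continuous.continuousAt ?_
  exact continuous_finsetSum _ fun g _ =>
    (EnG.continuous_apply i g).mul (EnG.continuous_apply j (g * k))

/-- The section over the set where the `i`-th coordinate is positive. -/
noncomputable def sec (i : Fin (n + 1)) : BnG G n → Fin (n + 1) → G → ℝ :=
  Quotient.lift (s := MulAction.orbitRel G (EnG G n)) (nrm i) (by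
    rintro x y ⟨h, rfl⟩
    exact nrm_smul i h y)

theorem sec_proj (i : Fin (n + 1)) (x : EnG G n) : sec i (proj x) = nrm i x := rfl

theorem sec_spec (i : Fin (n + 1)) (b : BnG G n) (hb : 0 < tB i b) :
    ∃ y : EnG G n, y.1 = sec i b ∧ proj y = b ∧ ∀ h, y.1 i h ≠ 0 → h = 1 := by
  obtain ⟨x, rfl⟩ := proj_surjective b
  obtain ⟨g, hg⟩ := exists_of_tc_pos i x hb
  refine ⟨g⁻¹ • x, ?_, proj_smul _ _, ?_⟩
  · rw [sec_proj, nrm_eq i x g hg]
  · intro h hh
    rw [EnG.smul_apply, inv_inv] at hh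
    have := x.2.2.1 i _ _ hh hg
    exact mul_eq_left.mp this

theorem sec_continuousOn (i : Fin (n + 1)) : ContinuousOn (sec i : BnG G n → _) {b | 0 < tB i b} := by
  intro b hb
  apply ContinuousAt.continuousWithinAt
  obtain ⟨x, rfl⟩ := proj_surjective b
  have h1 : Filter.map (proj : EnG G n → BnG G n) (𝓝 x) = 𝓝 (proj x) :=
    (isQuotientCoveringMap_proj.isOpenQuotientMap).map_nhds_eq x
  rw [ContinuousAt, ← h1, Filter.tendsto_map'_iff]
  exact nrm_continuousAt i x hb

/-- a vertex of the join -/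
def vtx (i : Fin (n + 1)) : Fin (n + 1) → G → ℝ := fun k h => if k = i ∧ h = 1 then 1 else 0

theorem vtx_nonneg (i k : Fin (n + 1)) (h : G) : 0 ≤ vtx i k h := by
  unfold vtx
  split_ifs <;> norm_num

theorem vtx_ne (i k : Fin (n + 1)) (h : G) (hh : vtx i k h ≠ 0) : k = i ∧ h = 1 := by
  unfold vtx at hh
  by_contra h0
  exact hh (if_neg h0)

theorem vtx_sum (i : Fin (n + 1)) : ∑ k, ∑ g : G, vtx i k g = 1 := by
  rw [Finset.sum_eq_single i]
  · rw [Finset.sum_eq_single 1]
    · simp [vtx]
    · intro g _ hg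
      simp [vtx, hg]
    · exact fun h => absurd (Finset.mem_univ _) h
  · intro k _ hk
    simp [vtx, hk]
  · exact fun h => absurd (Finset.mem_univ _) h

/-- coefficient functions -/
noncomputable def ca (s : ℝ) : ℝ := max 0 (1 - 3 * s)
/-- coefficient functions -/
noncomputable def cb (s : ℝ) : ℝ := max 0 (min (3 * s) (2 - 3 * s))
/-- coefficient functions -/
noncomputable def cc' (s : ℝ) : ℝ := max 0 (min (3 * s - 1) (3 - 3 * s))
/-- coefficient functions -/
noncomputable def cd (s : ℝ) : ℝ := max 0 (3 * s - 2)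

theorem ca_continuous : Continuous ca := by unfold ca; fun_prop
theorem cb_continuous : Continuous cb := by unfold cb; fun_prop
theorem cc_continuous : Continuous cc' := by unfold cc'; fun_prop
theorem cd_continuous : Continuous cd := by unfold cd; fun_prop

theorem coeff_sum (s : ℝ) (h0 : 0 ≤ s) (h1 : s ≤ 1) : ca s + cb s + cc' s + cd s = 1 := by
  unfold ca cb cc' cd
  rcases le_total s (1 / 3) with h | h
  · rw [max_eq_right (by linarith : (0 : ℝ) ≤ 1 - 3 * s), min_eq_left (by linarith),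
      max_eq_right (by linarith : (0 : ℝ) ≤ 3 * s), min_eq_left (by linarith),
      max_eq_left (by linarith), max_eq_left (by linarith)]
    ring
  · rcases le_total s (2 / 3) with h' | h'
    · rw [max_eq_left (by linarith : 1 - 3 * s ≤ 0), min_eq_right (by linarith),
        max_eq_right (by linarith : (0 : ℝ) ≤ 2 - 3 * s), min_eq_left (by linarith),
        max_eq_right (by linarith : (0 : ℝ) ≤ 3 * s - 1), max_eq_left (by linarith)]
      ring
    · rw [max_eq_left (by linarith : 1 - 3 * s ≤ 0), min_eq_right (by linarith),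
        max_eq_left (by linarith : 2 - 3 * s ≤ 0), min_eq_right (by linarith),
        max_eq_right (by linarith : (0 : ℝ) ≤ 3 - 3 * s), max_eq_right (by linarith)]
      ring

theorem coeff_ac (s : ℝ) : ca s = 0 ∨ cc' s = 0 := by
  unfold ca cc'
  rcases le_total s (1 / 3) with h | h
  · right
    exact max_eq_left ((min_le_left _ _).trans (by linarith))
  · left
    exact max_eq_left (by linarith)

theorem coeff_ad (s : ℝ) : ca s = 0 ∨ cd s = 0 := by
  unfold ca cd
  rcases le_total s (1 / 3) with h | h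
  · right
    exact max_eq_left (by linarith)
  · left
    exact max_eq_left (by linarith)

theorem coeff_bd (s : ℝ) : cb s = 0 ∨ cd s = 0 := by
  unfold cb cd
  rcases le_total s (2 / 3) with h | h
  · right
    exact max_eq_left (by linarith)
  · left
    exact max_eq_left ((min_le_right _ _).trans (by linarith))

/-- the polygonal path -/
noncomputable def pol (i j : Fin (n + 1)) (x y : Fin (n + 1) → G → ℝ) (s : ℝ) :
    Fin (n + 1) → G → ℝ :=
  fun k h => ca s * x k h + cb s * vtx i k h + cc' s * vtx j k h + cd s * y k h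

theorem pol_mem (i j : Fin (n + 1)) (x y : EnG G n) (hx : ∀ h, x.1 i h ≠ 0 → h = 1)
    (hy : ∀ h, y.1 j h ≠ 0 → h = 1) (s : ℝ) (h0 : 0 ≤ s) (h1 : s ≤ 1) :
    (∀ k g, 0 ≤ pol i j x.1 y.1 s k g) ∧
    (∀ k g h, pol i j x.1 y.1 s k g ≠ 0 → pol i j x.1 y.1 s k h ≠ 0 → g = h) ∧
      ∑ k, ∑ᶠ g, pol i j x.1 y.1 s k g = 1 := by
  have ha : 0 ≤ ca s := le_max_left _ _
  have hb : 0 ≤ cb s := le_max_left _ _
  have hc : 0 ≤ cc' s := le_max_left _ _
  have hd : 0 ≤ cd s := le_max_left _ _
  refine ⟨?_, ?_, ?_⟩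
  · intro k g
    unfold pol
    have := x.2.1 k g
    have := y.2.1 k g
    have := vtx_nonneg i k g
    have := vtx_nonneg j k g
    positivity
  · have key : ∀ k g, pol i j x.1 y.1 s k g ≠ 0 →
        (ca s ≠ 0 ∧ x.1 k g ≠ 0) ∨ (cb s ≠ 0 ∧ k = i ∧ g = 1) ∨ (cc' s ≠ 0 ∧ k = j ∧ g = 1) ∨
          (cd s ≠ 0 ∧ y.1 k g ≠ 0) := by
      intro k g hne
      by_contra hcon
      simp only [not_or] at hcon
      obtain ⟨q1, q2, q3, q4⟩ := hcon
      apply hne
      unfold pol
      have r1 : ca s * x.1 k g = 0 := by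
        by_contra h
        exact q1 ⟨left_ne_zero_of_mul h, right_ne_zero_of_mul h⟩
      have r2 : cb s * vtx i k g = 0 := by
        by_contra h
        exact q2 ⟨left_ne_zero_of_mul h, vtx_ne _ _ _ (right_ne_zero_of_mul h)⟩
      have r3 : cc' s * vtx j k g = 0 := by
        by_contra h
        exact q3 ⟨left_ne_zero_of_mul h, vtx_ne _ _ _ (right_ne_zero_of_mul h)⟩
      have r4 : cd s * y.1 k g = 0 := by
        by_contra h
        exact q4 ⟨left_ne_zero_of_mul h, right_ne_zero_of_mul h⟩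
      rw [r1, r2, r3, r4]
      norm_num
    intro k g h hg hh
    rcases key k g hg with ⟨a1, a2⟩ | ⟨a1, a2, a3⟩ | ⟨a1, a2, a3⟩ | ⟨a1, a2⟩ <;>
    rcases key k h hh with ⟨b1, b2⟩ | ⟨b1, b2, b3⟩ | ⟨b1, b2, b3⟩ | ⟨b1, b2⟩
    · exact x.2.2.1 k _ _ a2 b2
    · subst b2; rw [b3]; exact hx _ a2
    · rcases coeff_ac s with h | h <;> contradiction
    · rcases coeff_ad s with h | h <;> contradiction
    · subst a2; rw [a3]; exact (hx _ b2).symm
    · rw [a3, b3]
    · rw [a3, b3]
    · rcases coeff_bd s with h | h <;> contradiction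
    · rcases coeff_ac s with h | h <;> contradiction
    · rw [a3, b3]
    · rw [a3, b3]
    · subst a2; rw [a3]; exact (hy _ b2).symm
    · rcases coeff_ad s with h | h <;> contradiction
    · rcases coeff_bd s with h | h <;> contradiction
    · subst b2; rw [b3]; exact hy _ a2
    · exact y.2.2.1 k _ _ a2 b2
  · have hx1 : ∑ k, ∑ g, x.1 k g = 1 := tc_sum x
    have hy1 : ∑ k, ∑ g, y.1 k g = 1 := tc_sum y
    simp only [finsum_eq_sum_of_fintype, pol, Finset.sum_add_distrib, ← Finset.mul_sum]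
    rw [hx1, hy1, vtx_sum, vtx_sum, mul_one, mul_one, mul_one, mul_one]
    exact coeff_sum s h0 h1

end Pool.Agent.R780.TCB
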