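import Pool.Agent.R780.TCUpper

/-!
The upper bound `TC(B_nG) ≤ 2n` for finite `G`, second part.
-/

open unitInterval Topology

set_option linter.unusedSectionVars false

namespace Pool.Agent.R780.TCB

variable {G : Type} [Group G] [Fintype G] [DecidableEq G] {n : ℕ}

/-- the domain of a basic planner -/
def Vij (G : Type) [Group G] [Fintype G] [DecidableEq G] (n : ℕ) (i j : Fin (n + 1)) :
    Set (BnG G n × BnG G n) :=
  {p | 0 < tB i p.1 ∧ 0 < tB j p.2}

theorem pol_mem' (i j : Fin (n + 1)) (p : BnG G n × BnG G n) (hp : p ∈ Vij G n i j) (s : I) :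
    (∀ k g, 0 ≤ pol i j (sec i p.1) (sec j p.2) s k g) ∧
    (∀ k g h, pol i j (sec i p.1) (sec j p.2) s k g ≠ 0 →
      pol i j (sec i p.1) (sec j p.2) s k h ≠ 0 → g = h) ∧
      ∑ k, ∑ᶠ g, pol i j (sec i p.1) (sec j p.2) s k g = 1 := by
  obtain ⟨x, hx1, _, hx3⟩ := sec_spec i p.1 hp.1
  obtain ⟨y, hy1, _, hy3⟩ := sec_spec j p.2 hp.2
  rw [← hx1, ← hy1]
  exact pol_mem i j x y hx3 hy3 s s.2.1 s.2.2

/-- the uncurried planner -/
noncomputable def plan0 (i j : Fin (n + 1)) : C(Vij G n i j × I, EnG G n) where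
  toFun q := ⟨pol i j (sec i q.1.1.1) (sec j q.1.1.2) q.2, pol_mem' i j q.1.1 q.1.2 q.2⟩
  continuous_toFun := by
    refine Continuous.subtype_mk ?_ _
    have h1 : Continuous (fun q : Vij G n i j × I => sec i q.1.1.1) := by
      have := (sec_continuousOn (G := G) (n := n) i).comp_continuous
        (f := fun q : Vij G n i j × I => q.1.1.1) (by fun_prop) (fun q => q.1.2.1)
      exact this
    have h2 : Continuous (fun q : Vij G n i j × I => sec j q.1.1.2) := by
      have := (sec_continuousOn (G := G) (n := n) j).comp_continuous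
        (f := fun q : Vij G n i j × I => q.1.1.2) (by fun_prop) (fun q => q.1.2.2)
      exact this
    have hs : Continuous (fun q : Vij G n i j × I => (q.2 : ℝ)) := by fun_prop
    refine continuous_pi fun k => continuous_pi fun g => ?_
    unfold pol
    have h1' : Continuous (fun q : Vij G n i j × I => sec i q.1.1.1 k g) :=
      (continuous_apply_apply k g).comp h1
    have h2' : Continuous (fun q : Vij G n i j × I => sec j q.1.1.2 k g) :=
      (continuous_apply_apply k g).comp h2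
    exact ((((ca_continuous.comp hs).mul h1').add ((cb_continuous.comp hs).mul
      continuous_const)).add ((cc_continuous.comp hs).mul continuous_const)).add
      ((cd_continuous.comp hs).mul h2')

/-- the planner -/
noncomputable def plan (i j : Fin (n + 1)) : C(Vij G n i j, C(I, BnG G n)) :=
  ((⟨proj, continuous_proj⟩ : C(EnG G n, BnG G n)).comp (plan0 i j)).curry

theorem plan_zero (i j : Fin (n + 1)) (p : Vij G n i j) : plan i j p 0 = p.1.1 := by
  obtain ⟨x, hx1, hx2, _⟩ := sec_spec i p.1.1 p.2.1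
  change proj _ = _
  refine Eq.trans ?_ hx2
  congr 1
  apply Subtype.ext
  change pol i j (sec i p.1.1) (sec j p.1.2) (0 : ℝ) = x.1
  rw [hx1]
  funext k h
  have e1 : ca 0 = 1 := by simp [ca]
  have e2 : cb 0 = 0 := by simp [cb]
  have e3 : cc' 0 = 0 := by
    unfold cc'
    exact max_eq_left ((min_le_left _ _).trans (by norm_num))
  have e4 : cd 0 = 0 := by
    unfold cd
    exact max_eq_left (by norm_num)
  unfold pol
  rw [e1, e2, e3, e4]
  ring

theorem plan_one (i j : Fin (n + 1)) (p : Vij G n i j) : plan i j p 1 = p.1.2 := by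
  obtain ⟨y, hy1, hy2, _⟩ := sec_spec j p.1.2 p.2.2
  change proj _ = _
  refine Eq.trans ?_ hy2
  congr 1
  apply Subtype.ext
  change pol i j (sec i p.1.1) (sec j p.1.2) (1 : ℝ) = y.1
  rw [hy1]
  funext k h
  have e1 : ca 1 = 0 := by
    unfold ca
    exact max_eq_left (by norm_num)
  have e2 : cb 1 = 0 := by
    unfold cb
    exact max_eq_left ((min_le_right _ _).trans (by norm_num))
  have e3 : cc' 1 = 0 := by
    unfold cc'
    exact max_eq_left ((min_le_right _ _).trans (by norm_num))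
  have e4 : cd 1 = 1 := by
    unfold cd
    rw [max_eq_right (by norm_num)]
    norm_num
  unfold pol
  rw [e1, e2, e3, e4]
  ring

/-- the pieces of the cover -/
def Wij (G : Type) [Group G] [Fintype G] [DecidableEq G] (n : ℕ) (i j : Fin (n + 1)) :
    Set (BnG G n × BnG G n) :=
  {p | (0 < tB i p.1 ∧ 0 < tB j p.2) ∧ (∀ j' : Fin (n + 1), j' < j → tB j' p.2 < tB i p.1) ∧
    ∀ i' : Fin (n + 1), i' < i → tB i' p.1 < tB j p.2}

theorem Wij_subset (i j : Fin (n + 1)) : Wij G n i j ⊆ Vij G n i j := fun _ hp => hp.1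

theorem Wij_open (i j : Fin (n + 1)) : IsOpen (Wij G n i j) := by
  have h1 : ∀ i : Fin (n + 1), Continuous (fun p : BnG G n × BnG G n => tB i p.1) := fun i =>
    (tB_continuous i).comp continuous_fst
  have h2 : ∀ i : Fin (n + 1), Continuous (fun p : BnG G n × BnG G n => tB i p.2) := fun i =>
    (tB_continuous i).comp continuous_snd
  have e : Wij G n i j = ({p | 0 < tB i p.1} ∩ {p | 0 < tB j p.2}) ∩
      ((⋂ j' : Fin (n + 1), ⋂ _ : j' < j, {p | tB j' p.2 < tB i p.1}) ∩
      (⋂ i' : Fin (n + 1), ⋂ _ : i' < i, {p | tB i' p.1 < tB j p.2})) := by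
    ext p
    simp only [Wij, Set.mem_ofPred_eq, Set.mem_inter_iff, Set.mem_iInter]
  rw [e]
  refine ((isOpen_lt continuous_const (h1 i)).inter (isOpen_lt continuous_const (h2 j))).inter
    (IsOpen.inter ?_ ?_)
  · exact isOpen_iInter_of_finite fun j' => isOpen_iInter_of_finite fun _ =>
      isOpen_lt (h2 j') (h1 i)
  · exact isOpen_iInter_of_finite fun i' => isOpen_iInter_of_finite fun _ =>
      isOpen_lt (h1 i') (h2 j)

theorem Wij_disjoint (i j i' j' : Fin (n + 1)) (hk : (i : ℕ) + j = i' + j')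
    (p : BnG G n × BnG G n) (h : p ∈ Wij G n i j) (h' : p ∈ Wij G n i' j') : i = i' ∧ j = j' := by
  rcases lt_trichotomy i i' with hlt | heq | hgt
  · exfalso
    have hj : j' < j := by
      rw [Fin.lt_def] at hlt ⊢
      omega
    exact lt_asymm (h.2.1 j' hj) (h'.2.2 i hlt)
  · refine ⟨heq, ?_⟩
    subst heq
    apply Fin.ext
    omega
  · exfalso
    have hj : j < j' := by
      rw [Fin.lt_def] at hgt ⊢
      omega
    exact lt_asymm (h'.2.1 j hj) (h.2.2 i' hgt)

theorem Wij_cover (p : BnG G n × BnG G n) : ∃ i j, p ∈ Wij G n i j := by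
  classical
  obtain ⟨i, hi, hmin⟩ : ∃ i, 0 < tB i p.1 ∧ ∀ i', i' < i → ¬ 0 < tB i' p.1 := by
    have hne : (Finset.univ.filter fun i => 0 < tB i p.1).Nonempty := by
      obtain ⟨i, hi⟩ := tB_exists_pos p.1
      exact ⟨i, by simpa using hi⟩
    refine ⟨Finset.min' _ hne, ?_, ?_⟩
    · have := Finset.min'_mem _ hne
      simpa using this
    · intro i' hi' hpos
      have hmem : i' ∈ Finset.univ.filter fun i => 0 < tB i p.1 := by simpa using hpos
      have := Finset.min'_le _ i' hmem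
      exact absurd hi' (not_lt.mpr this)
  obtain ⟨j, hj, hminj⟩ : ∃ j, 0 < tB j p.2 ∧ ∀ j', j' < j → ¬ 0 < tB j' p.2 := by
    have hne : (Finset.univ.filter fun i => 0 < tB i p.2).Nonempty := by
      obtain ⟨i, hi⟩ := tB_exists_pos p.2
      exact ⟨i, by simpa using hi⟩
    refine ⟨Finset.min' _ hne, ?_, ?_⟩
    · have := Finset.min'_mem _ hne
      simpa using this
    · intro i' hi' hpos
      have hmem : i' ∈ Finset.univ.filter fun i => 0 < tB i p.2 := by simpa using hpos
      have := Finset.min'_le _ i' hmem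
      exact absurd hi' (not_lt.mpr this)
  exact ⟨i, j, ⟨hi, hj⟩, fun j' h => (not_lt.mp (hminj j' h)).trans_lt hi,
    fun i' h => (not_lt.mp (hmin i' h)).trans_lt hj⟩

/-- index pairs with given sum -/
def Idx (n k : ℕ) : Type := {q : Fin (n + 1) × Fin (n + 1) // (q.1 : ℕ) + q.2 = k}

theorem upper : TCle (BnG G n) (2 * n) := by
  classical
  let U : Fin (2 * n + 1) → Set (BnG G n × BnG G n) := fun k =>
    ⋃ q : Idx n k, Wij G n q.1.1 q.1.2
  refine ⟨U, fun k => isOpen_iUnion fun q => Wij_open _ _, ?_, ?_⟩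
  · intro p
    obtain ⟨i, j, h⟩ := Wij_cover p
    refine ⟨⟨i + j, by have := i.2; have := j.2; omega⟩, ?_⟩
    exact Set.mem_iUnion.mpr ⟨⟨(i, j), rfl⟩, h⟩
  · intro k
    let S : Idx n k → Set (U k) := fun q => {p | p.1 ∈ Wij G n q.1.1 q.1.2}
    let φ : ∀ q : Idx n k, C(S q, C(I, BnG G n)) := fun q =>
      (plan q.1.1 q.1.2).comp
        ⟨fun p => ⟨p.1.1, Wij_subset _ _ p.2⟩, by
          refine Continuous.subtype_mk ?_ _
          exact continuous_subtype_val.comp continuous_subtype_val⟩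
    have hφ : ∀ (q r : Idx n k) (x : U k) (hq : x ∈ S q) (hr : x ∈ S r),
        φ q ⟨x, hq⟩ = φ r ⟨x, hr⟩ := by
      intro q r x hq hr
      have h1 := Wij_disjoint q.1.1 q.1.2 r.1.1 r.1.2 (q.2.trans r.2.symm) x.1 hq hr
      have h2 : q = r := Subtype.ext (Prod.ext h1.1 h1.2)
      subst h2
      rfl
    have hS : ∀ x : U k, ∃ q, S q ∈ 𝓝 x := by
      intro x
      obtain ⟨q, hq⟩ := Set.mem_iUnion.mp x.2
      exact ⟨q, ((Wij_open _ _).preimage continuous_subtype_val).mem_nhds hq⟩
    refine ⟨ContinuousMap.liftCover S φ hφ hS, ?_⟩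
    intro p
    obtain ⟨q, hq⟩ := Set.mem_iUnion.mp p.2
    have h3 : ContinuousMap.liftCover S φ hφ hS p = φ q ⟨p, hq⟩ :=
      ContinuousMap.liftCover_coe (S := S) (φ := φ) (hφ := hφ) (hS := hS) (⟨p, hq⟩ : S q)
    rw [h3]
    exact ⟨plan_zero _ _ _, plan_one _ _ _⟩

end Pool.Agent.R780.TCB
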