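import Pool.Agent.R780.OrbConfDefs

/-!
Every group `H` has a universal space in the sense of `IsUniversal`: the space of all functions
`ℝ → H` with the distance `(outer measure on (0,1]) {f ≠ g}`.
-/

open Topology unitInterval MeasureTheory

namespace Pool.Agent.R780.OrbConf

/-- All functions from the reals to `H`. -/
def FunSpace (H : Type) : Type := ℝ → H

/-- Lebesgue measure on `(0,1]`. -/
noncomputable def mu : Measure ℝ := (volume : Measure ℝ).restrict (Set.Ioc (0 : ℝ) 1)

theorem mu_univ : mu Set.univ = 1 := by
  unfold mu
  rw [Measure.restrict_apply_univ, Real.volume_Ioc]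
  norm_num

instance : IsProbabilityMeasure mu := ⟨mu_univ⟩

theorem mu_compl : mu (Set.Ioc (0 : ℝ) 1)ᶜ = 0 := by
  unfold mu
  rw [Measure.restrict_apply measurableSet_Ioc.compl]
  simp

theorem mu_Ioc (a b : ℝ) : (mu (Set.Ioc a b)).toReal ≤ |b - a| := by
  have h1 : mu (Set.Ioc a b) ≤ volume (Set.Ioc a b) := Measure.restrict_apply_le _ _
  rw [Real.volume_Ioc] at h1
  refine (ENNReal.toReal_mono ENNReal.ofReal_ne_top h1).trans ?_
  rcases le_total (b - a) 0 with h | h
  · rw [ENNReal.ofReal_of_nonpos h]
    simp
  · rw [ENNReal.toReal_ofReal h]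
    exact le_abs_self _

variable {H : Type}

theorem toReal_mono_mu {s t : Set ℝ} (h : s ⊆ t) : (mu s).toReal ≤ (mu t).toReal :=
  ENNReal.toReal_mono (measure_ne_top _ _) (measure_mono h)

theorem toReal_union_mu (s t : Set ℝ) : (mu (s ∪ t)).toReal ≤ (mu s).toReal + (mu t).toReal := by
  rw [← ENNReal.toReal_add (measure_ne_top _ _) (measure_ne_top _ _)]
  exact ENNReal.toReal_mono (ENNReal.add_ne_top.mpr ⟨measure_ne_top _ _, measure_ne_top _ _⟩)
    (measure_union_le _ _)

noncomputable instance : PseudoMetricSpace (FunSpace H) where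
  dist f g := (mu {x | f x ≠ g x}).toReal
  dist_self f := by simp
  dist_comm f g := by
    congr 2
    ext x
    exact ne_comm
  dist_triangle f g h := by
    refine (toReal_mono_mu ?_).trans (toReal_union_mu _ _)
    intro x hx
    by_cases h1 : f x = g x
    · right
      intro h2
      exact hx (h1.trans h2)
    · left
      exact h1

theorem dist_def (f g : FunSpace H) : dist f g = (mu {x | f x ≠ g x}).toReal := rfl

variable [Group H]

instance : MulAction H (FunSpace H) where
  smul h f := fun x => h * f x
  one_smul _ := funext fun _ => one_mul _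
  mul_smul _ _ _ := funext fun _ => mul_assoc _ _ _

theorem smul_apply' (h : H) (f : FunSpace H) (x : ℝ) : (h • f) x = h * f x := rfl

theorem dist_smul' (h : H) (f g : FunSpace H) : dist (h • f) (h • g) = dist f g := by
  rw [dist_def, dist_def]
  congr 2
  ext x
  simp [smul_apply']

theorem dist_smul_self (h : H) (hh : h ≠ 1) (f : FunSpace H) : dist (h • f) f = 1 := by
  rw [dist_def]
  have : {x | (h • f) x ≠ f x} = Set.univ := by
    ext x
    simp [smul_apply', hh]
  rw [this, mu_univ]
  simp

open Classical in
/-- The contraction. -/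
noncomputable def contr (t : ℝ) (f : FunSpace H) : FunSpace H :=
  fun x => if (0 < x ∧ x ≤ t) ∨ t = 1 then 1 else f x

theorem dist_contr (t s : ℝ) (f g : FunSpace H) :
    dist (contr t f) (contr s g) ≤ dist f g + |t - s| := by
  have h1 : {x | contr t f x ≠ contr s g x} ⊆
      ({x | f x ≠ g x} ∪ Set.Ioc (min t s) (max t s)) ∪ (Set.Ioc (0 : ℝ) 1)ᶜ := by
    intro x hx
    by_cases hx1 : x ∈ Set.Ioc (0 : ℝ) 1
    · left
      by_cases hx2 : x ∈ Set.Ioc (min t s) (max t s)
      · right
        exact hx2
      · left
        intro hfg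
        apply hx
        rw [Set.mem_Ioc, not_and_or, not_lt, not_le] at hx2
        rcases hx2 with h | h
        · have ht : x ≤ t := h.trans (min_le_left _ _)
          have hs : x ≤ s := h.trans (min_le_right _ _)
          unfold contr
          rw [if_pos (Or.inl ⟨hx1.1, ht⟩), if_pos (Or.inl ⟨hx1.1, hs⟩)]
        · have ht : t < x := (le_max_left _ _).trans_lt h
          have hs : s < x := (le_max_right _ _).trans_lt h
          unfold contr
          rw [if_neg, if_neg]
          · exact hfg
          · rintro (h1 | h1)
            · exact absurd h1.2 (not_le.mpr hs)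
            · rw [h1] at hs
              exact absurd hx1.2 (not_le.mpr hs)
          · rintro (h1 | h1)
            · exact absurd h1.2 (not_le.mpr ht)
            · rw [h1] at ht
              exact absurd hx1.2 (not_le.mpr ht)
    · right
      exact hx1
  rw [dist_def, dist_def]
  refine (toReal_mono_mu h1).trans ?_
  refine (toReal_union_mu _ _).trans ?_
  rw [mu_compl, ENNReal.toReal_zero, add_zero]
  refine (toReal_union_mu _ _).trans ?_
  gcongr
  refine (mu_Ioc _ _).trans ?_
  rw [max_sub_min_eq_abs, abs_abs, abs_sub_comm]

theorem continuous_contr : Continuous (fun p : I × FunSpace H => contr (p.1 : ℝ) p.2) := by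
  rw [Metric.continuous_iff]
  intro a ε hε
  refine ⟨ε / 2, by positivity, ?_⟩
  intro b hb
  refine (dist_contr _ _ _ _).trans_lt ?_
  have h1 : dist b.1 a.1 < ε / 2 := (le_max_left _ _).trans_lt hb
  have h2 : dist b.2 a.2 < ε / 2 := (le_max_right _ _).trans_lt hb
  have h3 : |(b.1 : ℝ) - a.1| < ε / 2 := h1
  linarith

theorem contr_zero (f : FunSpace H) : contr 0 f = f := by
  funext x
  unfold contr
  rw [if_neg]
  rintro (h | h)
  · exact absurd h.1 (not_lt.mpr h.2)
  · norm_num at h

theorem contr_one (f : FunSpace H) : contr 1 f = fun _ => 1 := by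
  funext x
  unfold contr
  rw [if_pos (Or.inr rfl)]

instance : ContractibleSpace (FunSpace H) := by
  rw [contractible_iff_id_nullhomotopic]
  refine ⟨(fun _ => 1 : FunSpace H), ⟨?_⟩⟩
  exact
    { toFun := fun p => contr (p.1 : ℝ) p.2
      continuous_toFun := continuous_contr
      map_zero_left := fun f => by simpa using contr_zero f
      map_one_left := fun f => by
        change contr (((1 : I) : ℝ)) f = _
        rw [Set.Icc.coe_one]
        exact contr_one f }

/-- Every group has a universal space. -/
theorem isUniversal_funSpace (H : Type) [Group H] : IsUniversal H (FunSpace H) where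
  contractible := inferInstance
  continuous_smul :=
    { continuous_const_smul := fun h => by
        rw [Metric.continuous_iff]
        intro a ε hε
        refine ⟨ε, hε, ?_⟩
        intro b hb
        rwa [dist_smul'] }
  disjoint f := by
    refine ⟨Metric.ball f (1 / 2), Metric.ball_mem_nhds _ (by norm_num), ?_⟩
    rintro h ⟨g, ⟨k, hk, rfl⟩, hg⟩
    by_contra hh
    have h1 := dist_smul_self h hh k
    have h2 : dist (h • k) k ≤ dist (h • k) f + dist k f := dist_triangle_right _ _ _
    rw [Metric.mem_ball] at hk hg
    simp only at hg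
    linarith

end Pool.Agent.R780.OrbConf
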