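import Mathlib

/-!
The group `{±1} × {±1}` has infinite cohomological dimension.
-/

open CategoryTheory

namespace Pool.Agent.R780.TCB

/-- A group `G` has infinite cohomological dimension: for every `N` there are `k ≥ N` and a
`G`-module `M` with `H^k(G; M) ≠ 0`. -/
def InfiniteCohDim (G : Type) [Group G] : Prop :=
  ∀ N : ℕ, ∃ k : ℕ, N ≤ k ∧ ∃ M : Rep.{0} ℤ G, Nontrivial (groupCohomology M k)

/-- The Klein four group. -/
abbrev V4 : Type := ℤˣ × ℤˣ

/-- first generator -/
def gA : V4 := (-1, 1)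

/-- the first factor -/
abbrev SA : Subgroup V4 := Subgroup.zpowers gA

/-- generator of the first factor -/
def genA : SA := ⟨gA, Subgroup.mem_zpowers _⟩

theorem genA_gen : ∀ x : SA, x ∈ Subgroup.zpowers genA := by
  rintro ⟨x, k, hk⟩
  refine ⟨k, ?_⟩
  apply Subtype.ext
  simpa [genA] using hk

theorem card_SA : Nat.card SA = 2 := by
  rw [Nat.card_zpowers]
  refine orderOf_eq_prime ?_ ?_
  · decide
  · decide

theorem coh_ne (i : ℕ) [NeZero i] (hi : Even i) :
    Nontrivial (groupCohomology (Rep.trivial ℤ SA ℤ) i) := by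
  classical
  let _ : Fintype SA := Fintype.ofFinite _
  have h := Rep.FiniteCyclicGroup.groupCohomologyπEven_eq_zero_iff
    (Rep.trivial ℤ SA ℤ) genA genA_gen i hi
  by_contra hn
  rw [not_nontrivial_iff_subsingleton] at hn
  have hx := (h ⟨(1 : ℤ), by
    rw [LinearMap.mem_ker]
    change (1 : ℤ) - 1 = 0
    norm_num⟩).mp (Subsingleton.elim _ _)
  obtain ⟨y, hy⟩ := hx
  have hy2 : (∑ g : SA, (Rep.trivial ℤ SA ℤ).ρ g) y = (1 : ℤ) := hy
  rw [LinearMap.sum_apply] at hy2
  have h3 : ∀ g : SA, (Rep.trivial ℤ SA ℤ).ρ g y = y := fun g => rfl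
  simp only [h3] at hy2
  rw [Finset.sum_const, Finset.card_univ, ← Nat.card_eq_fintype_card, card_SA] at hy2
  have h4 : (2 : ℤ) * y = 1 := by
    rw [two_mul, ← two_nsmul]
    exact hy2
  omega

theorem infiniteCohDim_V4 : InfiniteCohDim V4 := by
  intro N
  refine ⟨2 * (N + 1), by omega, Rep.coind SA.subtype (Rep.trivial ℤ SA ℤ), ?_⟩
  have : NeZero (2 * (N + 1)) := ⟨by omega⟩
  have h1 := coh_ne (2 * (N + 1)) (even_two_mul _)
  have e := (groupCohomology.coindIso (Rep.trivial ℤ SA ℤ) (2 * (N + 1))).toLinearEquiv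
  exact e.toEquiv.nontrivial

end Pool.Agent.R780.TCB
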